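import Pool.Agent.J4H34.HF.H10

/-!
The flow of an automorphic L-function: global statements and the example of Dirichlet characters.
-/

set_option autoImplicit false

open Complex Set MeasureTheory Filter Topology
open scoped ComplexConjugate Nat

namespace Pool.Agent.J4H34.HF

open H353.E H353.F

variable {f : ℂ → ℂ}

/-- the heat operator is injective -/
lemma heat_ne (hf : Differentiable ℂ f) (hg : GrC f) (hne : ∃ z, f z ≠ 0) {τ : ℝ} (hτ : 0 < τ) :
    ∃ z, heat τ f z ≠ 0 := by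
  by_contra hcon
  push Not at hcon
  obtain ⟨s, hs⟩ := hne
  apply hs
  -- the flow at `s` as an entire function of the time
  set F : ℂ → ℂ := fun w => ∑' j : ℕ, (w ^ j / j !) * iteratedDeriv (2 * j) f s with hF
  have hFd : Differentiable ℂ F := by
    intro w
    obtain ⟨K, hK0, hK⟩ := even_bd hf hg (τ := ‖w‖ + 1) (by positivity) ‖s‖ (norm_nonneg _)
    have h1 : DifferentiableOn ℂ F (Metric.ball 0 (‖w‖ + 1)) := by
      refine differentiableOn_tsum_of_summable_norm (u := fun j => K * (1 / 4) ^ j)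
        ((summable_geometric_of_lt_one (by norm_num) (by norm_num)).mul_left K) (fun j => ?_)
        Metric.isOpen_ball (fun j z hz => ?_)
      · exact Differentiable.differentiableOn (by fun_prop)
      · rw [Metric.mem_ball, dist_zero_right] at hz
        refine le_trans ?_ (hK j s le_rfl)
        rw [norm_mul, norm_mul, norm_div, norm_pow, Complex.norm_natCast, Complex.norm_real,
          Real.norm_eq_abs, abs_of_nonneg (by positivity)]
        gcongr
    refine h1.differentiableAt (Metric.isOpen_ball.mem_nhds ?_)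
    rw [Metric.mem_ball, dist_zero_right]
    linarith
  have hFh : ∀ u : ℝ, 0 < u → F u = heat u f s := fun u hu => by
    rw [← (heat_hasSum hf hg hu s).tsum_eq]
    simp only [hF]
    refine tsum_congr fun j => ?_
    push_cast
    rfl
  have hF0 : F 0 = f s := by
    simp only [hF]
    rw [tsum_eq_single 0]
    · simp
    · intro j hj
      simp [hj]
  have hzero : ∀ u : ℝ, 0 < u → F ((τ + u : ℝ) : ℂ) = 0 := fun u hu => by
    rw [hFh _ (by positivity), ← heat_heat hf hg hτ hu]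
    have h1 : heat τ f = fun _ => 0 := funext hcon
    rw [h1]
    simp [heat]
  have hA : AnalyticOnNhd ℂ F univ := fun x _ => hFd.analyticAt x
  have h1 := hA.eqOn_zero_of_preconnected_of_frequently_eq_zero isPreconnected_univ
    (mem_univ ((τ + 1 : ℝ) : ℂ)) ?_ (mem_univ 0)
  · rw [← hF0]
    exact h1
  · have ht : Tendsto (fun n : ℕ => (((τ + 1 + 1 / ((n : ℝ) + 1) : ℝ)) : ℂ)) atTop
        (𝓝[≠] ((τ + 1 : ℝ) : ℂ)) := by
      rw [tendsto_nhdsWithin_iff]
      constructor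
      · have h2 : Tendsto (fun n : ℕ => (τ + 1 + 1 / ((n : ℝ) + 1) : ℝ)) atTop (𝓝 (τ + 1 + 0)) :=
          tendsto_one_div_add_atTop_nhds_zero_nat.const_add _
        rw [add_zero] at h2
        exact (Complex.continuous_ofReal.tendsto _).comp h2
      · refine Eventually.of_forall fun n => ?_
        rw [mem_compl_iff, mem_singleton_iff]
        intro h
        have h2 : τ + 1 + 1 / ((n : ℝ) + 1) = τ + 1 := by exact_mod_cast h
        have h3 : (0 : ℝ) < 1 / ((n : ℝ) + 1) := by positivity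
        linarith
    refine ht.frequently (Frequently.of_forall fun n => ?_)
    have h2 : (τ + 1 + 1 / ((n : ℝ) + 1) : ℝ) = τ + (1 + 1 / ((n : ℝ) + 1)) := by ring
    rw [h2]
    exact hzero _ (by positivity)

/-- the flow tends to the initial function -/
lemma heat_small (hf : Differentiable ℂ f) (hg : GrC f) (R : ℝ) : ∃ K : ℝ, 0 ≤ K ∧
    ∀ τ : ℝ, 0 < τ → τ ≤ 1 → ∀ z, ‖z‖ ≤ R → ‖heat τ f z - f z‖ ≤ K * τ := by
  obtain ⟨K, hK0, hK⟩ := even_bd hf hg one_pos (max R 0) (le_max_right _ _)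
  have hgeo : Summable fun j : ℕ => (1 / 4 : ℝ) ^ j :=
    summable_geometric_of_lt_one (by norm_num) (by norm_num)
  set S : ℝ := ∑' j : ℕ, (1 / 4 : ℝ) ^ j with hS
  have hS0 : 0 ≤ S := tsum_nonneg fun j => by positivity
  refine ⟨K * S, by positivity, fun τ hτ hτ1 z hz => ?_⟩
  have hz' : ‖z‖ ≤ max R 0 := hz.trans (le_max_left _ _)
  have h1 := heat_hasSum hf hg hτ z
  have h2 : HasSum (fun j : ℕ => if j = 0 then f z else 0) (f z) := by
    have := hasSum_ite_eq (0 : ℕ) (f z)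
    exact this
  have h3 := h1.sub h2
  have h4 : ∀ j : ℕ, ‖((τ ^ j / j ! : ℝ) : ℂ) * iteratedDeriv (2 * j) f z -
      (if j = 0 then f z else 0)‖ ≤ K * τ * (1 / 4) ^ j := fun j => by
    rcases Nat.eq_zero_or_pos j with rfl | hj
    · simp
      positivity
    · rw [if_neg hj.ne', sub_zero]
      have h5 := hK j z hz'
      rw [norm_mul, Complex.norm_real, Real.norm_eq_abs, abs_of_nonneg (by positivity)] at h5 ⊢
      have h6 : τ ^ j ≤ τ * 1 ^ j := by
        rw [one_pow, mul_one]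
        calc τ ^ j ≤ τ ^ 1 := pow_le_pow_of_le_one hτ.le hτ1 hj
          _ = τ := pow_one τ
      calc τ ^ j / j ! * ‖iteratedDeriv (2 * j) f z‖ ≤ (τ * 1 ^ j) / j ! *
          ‖iteratedDeriv (2 * j) f z‖ := by gcongr
        _ = τ * (1 ^ j / j ! * ‖iteratedDeriv (2 * j) f z‖) := by ring
        _ ≤ τ * (K * (1 / 4) ^ j) := by gcongr
        _ = _ := by ring
  rw [← h3.tsum_eq]
  have h5 := tsum_of_norm_bounded ((hgeo.mul_left (K * τ)).hasSum) h4
  refine h5.trans (le_of_eq ?_)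
  rw [tsum_mul_left, ← hS]
  ring

/-- all zeros on the critical line -/
def OnLine (F : ℂ → ℂ) : Prop := ∀ s, F s = 0 → s.re = 1 / 2

lemma ZS.onLine {F : ℂ → ℂ} (h : ZS 0 F) (hne : ∃ z, F z ≠ 0) : OnLine F := by
  intro s hs
  obtain ⟨ε, hfe⟩ := h.fe
  have h1 := h.zer s hs
  have hε : ε ≠ 0 := by
    rintro rfl
    obtain ⟨z, hz⟩ := hne
    exact hz (by rw [hfe z, zero_mul])
  rw [hfe s] at hs
  have h2 : F (1 - conj s) = 0 := by
    rcases mul_eq_zero.mp hs with h | h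
    · exact absurd h hε
    · exact (map_eq_zero _).mp h
  have h3 := h.zer _ h2
  rw [sub_re, Complex.conj_re, one_re] at h3
  linarith

lemma zs_of (hf : Differentiable ℂ f) (hg : GrC f) {ε : ℂ} (hfe : ∀ s, f s = ε * conj (f (1 - conj s)))
    (h : OnLine f) : ZS 0 f :=
  ⟨hf, ⟨ε, hfe⟩, hg, fun s hs => by rw [h s hs]; linarith⟩

/-- the flow preserves the property -/
lemma onLine_heat (hf : Differentiable ℂ f) (hg : GrC f) {ε : ℂ}
    (hfe : ∀ s, f s = ε * conj (f (1 - conj s))) (h : OnLine f) (hne : ∃ z, f z ≠ 0) {τ : ℝ}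
    (hτ : 0 < τ) : OnLine (heat τ f) := by
  have h1 := heat_ne hf hg hne hτ
  exact ((zs_of hf hg hfe h).heat hτ h1).onLine h1

lemma onLine_mono (hf : Differentiable ℂ f) (hg : GrC f) {ε : ℂ}
    (hfe : ∀ s, f s = ε * conj (f (1 - conj s))) (hne : ∃ z, f z ≠ 0) {τ₁ τ₂ : ℝ} (hτ : 0 < τ₁)
    (h12 : τ₁ ≤ τ₂) (h : OnLine (heat τ₁ f)) : OnLine (heat τ₂ f) := by
  rcases h12.eq_or_lt with h1 | h1
  · rwa [← h1]
  · have h2 : heat τ₂ f = heat (τ₂ - τ₁) (heat τ₁ f) := by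
      funext s
      rw [heat_heat hf hg hτ (by linarith)]
      congr 1
      ring
    rw [h2]
    exact onLine_heat (heat_diff hf hg hτ) (heat_gr hf hg hτ) (heat_fe hfe) h
      (heat_ne hf hg hne hτ) (by linarith)

/-- the criterion -/
lemma onLine_iff (hf : Differentiable ℂ f) (hg : GrC f) {ε : ℂ}
    (hfe : ∀ s, f s = ε * conj (f (1 - conj s))) (hne : ∃ z, f z ≠ 0) :
    OnLine f ↔ ∀ τ : ℝ, 0 < τ → OnLine (heat τ f) := by
  refine ⟨fun h τ hτ => onLine_heat hf hg hfe h hne hτ, fun h s hs => ?_⟩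
  by_contra hcon
  refine hurw (F := f) (G := fun k => heat (1 / ((k : ℝ) + 1)) f) (U := {z | z.re ≠ 1 / 2})
    (isOpen_ne_fun continuous_re continuous_const) hf hne
    (fun k => heat_diff hf hg (by positivity)) ?_ (fun R => ?_) (s := s) hcon hs
  · refine Eventually.of_forall fun k z hz h0 => hz (h _ (by positivity) z h0)
  · obtain ⟨K, hK0, hK⟩ := heat_small hf hg R
    refine ⟨fun k => K * (1 / ((k : ℝ) + 1)), ?_, Eventually.of_forall fun k z hz => ?_⟩
    · have := tendsto_one_div_add_atTop_nhds_zero_nat (𝕜 := ℝ).const_mul K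
      rwa [mul_zero] at this
    · refine hK _ (by positivity) ?_ z hz
      rw [div_le_one (by positivity)]
      have : (0 : ℝ) ≤ k := Nat.cast_nonneg k
      linarith

section auto

variable {m : ℕ} {K N : ℝ} {μ : Fin m → ℂ} {α : Fin m → ℕ → ℂ} {ε : ℂ} {Λ : ℂ → ℂ}

lemma xi_zero_iff (hN : 0 < N) (s : ℂ) : Xi N Λ s = 0 ↔ Λ s = 0 := by
  unfold Xi
  have h1 : (N : ℂ) ^ (s / 2) ≠ 0 := by
    rw [cpow_def_of_ne_zero (by exact_mod_cast hN.ne')]
    exact Complex.exp_ne_zero _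
  simp [h1]

lemma xi_ne (hm : 1 ≤ m) (d : Datum N μ α ε Λ) : ∃ z, Xi N Λ z ≠ 0 := by
  obtain ⟨hXd, hfe, hbdd, hXe, hgr⟩ := basic hm d
  refine ⟨2, ?_⟩
  have h2 : (3 / 2 : ℝ) < (2 : ℂ).re := by norm_num
  rw [hXe 2 h2]
  exact mul_ne_zero ((gaf_GP hm d.one_le d.re_le).ne 2 (by norm_num)) (euler_ne d.norm_le h2)

theorem auto_iff (hm : 1 ≤ m) (d : Datum N μ α ε Λ) :
    OnLine Λ ↔ ∀ τ : ℝ, 0 < τ → OnLine (heat τ (Xi N Λ)) := by
  obtain ⟨hXd, hfe, hbdd, hXe, hgr⟩ := basic hm d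
  rw [← onLine_iff hXd hgr hfe (xi_ne hm d)]
  have hN0 : 0 < N := by linarith [d.one_le]
  exact ⟨fun h s hs => h s ((xi_zero_iff hN0 s).mp hs), fun h s hs => h s ((xi_zero_iff hN0 s).mpr hs)⟩

theorem auto_mono (hm : 1 ≤ m) (d : Datum N μ α ε Λ) {τ₁ τ₂ : ℝ} (hτ : 0 < τ₁)
    (h12 : τ₁ ≤ τ₂) (h : OnLine (heat τ₁ (Xi N Λ))) : OnLine (heat τ₂ (Xi N Λ)) := by
  obtain ⟨hXd, hfe, hbdd, hXe, hgr⟩ := basic hm d
  exact onLine_mono hXd hgr hfe (xi_ne hm d) hτ h12 h

/-- the flow has all zeros on the line from time `(1 + η) / (log N - C₀)` on -/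
theorem flow_global (m : ℕ) (hm : 1 ≤ m) {K : ℝ} (hK : 0 ≤ K) {η : ℝ} (hη : 0 < η) (hη1 : η ≤ 1) :
    ∃ C₀ : ℝ, 1 ≤ C₀ ∧ ∀ (N : ℝ) (μ : Fin m → ℂ) (α : Fin m → ℕ → ℂ) (ε : ℂ) (Λ : ℂ → ℂ),
    DR K N μ α ε Λ →
    (∀ (τ : ℝ) (s : ℂ), 0 < τ → τ ≤ 1 →
      1 + η + C₀ * τ ≤ τ * Real.log (cond N μ s.im) → heat τ (Xi N Λ) s = 0 →
      s.re = 1 / 2 ∧ deriv (heat τ (Xi N Λ)) s ≠ 0) ∧
    (C₀ < Real.log N → ∀ τ : ℝ, (1 + η) / (Real.log N - C₀) ≤ τ → OnLine (heat τ (Xi N Λ))) := by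
  obtain ⟨C₁, hC₁, H⟩ := flow_local m hm hK hη hη1
  refine ⟨C₁ + 2, by linarith, fun N μ α ε Λ d => ⟨fun τ s h0 h1 h2 h3 => ?_, fun hN τ hτ => ?_⟩⟩
  · refine H N μ α ε Λ d τ s h0 h1 ?_ h3
    nlinarith
  · have hN1 := d.dat.one_le
    have hpos : 0 < Real.log N - C₁ := by linarith
    set τ₁ : ℝ := (1 + η) / (Real.log N - C₁) with hτ₁
    have hτ₁0 : 0 < τ₁ := by positivity
    have hτ₁1 : τ₁ ≤ 1 := by
      rw [hτ₁, div_le_one hpos]
      linarith
    have hle : τ₁ ≤ τ := by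
      refine le_trans ?_ hτ
      rw [hτ₁]
      apply div_le_div_of_nonneg_left (by linarith) (by linarith)
      linarith
    refine auto_mono hm d.dat hτ₁0 hle fun s hs => ?_
    refine (H N μ α ε Λ d τ₁ s hτ₁0 hτ₁1 ?_ hs).1
    have h1 : τ₁ * (Real.log N - C₁) = 1 + η := by
      rw [hτ₁]
      field_simp
    have h2 : Real.log N ≤ Real.log (cond N μ s.im) := by
      apply Real.log_le_log (by linarith)
      unfold cond
      have h3 : 1 ≤ ∏ j, (1 + ‖(s.im : ℂ) * I - μ j‖) := by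
        refine Finset.prod_induction _ (fun x => (1 : ℝ) ≤ x) (fun a b ha hb => ?_) le_rfl fun j _ => ?_
        · nlinarith
        · linarith [norm_nonneg ((s.im : ℂ) * I - μ j)]
      nlinarith
    have h3 : τ₁ * Real.log N ≤ τ₁ * Real.log (cond N μ s.im) := by gcongr
    linarith

end auto

/-! ### Dirichlet characters -/

open ArithmeticFunction (vonMangoldt)

lemma half_rpow_le {δ : ℝ} (h0 : 0 ≤ δ) (h1 : δ ≤ 1) : (2 : ℝ) ^ (-δ) ≤ 1 - δ / 2 := by
  have h := rpow_one_add_le_one_add_mul_self (s := (-1 / 2 : ℝ)) (by norm_num) h0 h1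
  have e : (1 + -1 / 2 : ℝ) = 2⁻¹ := by norm_num
  rw [e, Real.inv_rpow (by norm_num), ← Real.rpow_neg (by norm_num)] at h
  linarith

lemma vm_nn (n : ℕ) : 0 ≤ vonMangoldt n := ArithmeticFunction.vonMangoldt_nonneg

/-- Chebyshev's bound for the Dirichlet series of `Λ` -/
lemma vm_sum {σ : ℝ} (h1 : 1 < σ) (h2 : σ ≤ 2) (N : ℕ) :
    ∑ n ∈ Finset.Icc 1 N, vonMangoldt n * (n : ℝ) ^ (-σ) ≤ 24 / (σ - 1) := by
  set J := Nat.log 2 N + 1 with hJ
  have hmap : ∀ n ∈ Finset.Icc 1 N, Nat.log 2 n ∈ Finset.range J := by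
    intro n hn
    rw [Finset.mem_Icc] at hn
    rw [Finset.mem_range, hJ]
    have := Nat.log_mono_right (b := 2) hn.2
    omega
  rw [← Finset.sum_fiberwise_of_maps_to hmap]
  set r : ℝ := (2 : ℝ) ^ (-(σ - 1)) with hr
  have hr0 : 0 ≤ r := by positivity
  have hr1 : r ≤ 1 - (σ - 1) / 2 := half_rpow_le (by linarith) (by linarith)
  have hblock : ∀ j ∈ Finset.range J, ∑ n ∈ (Finset.Icc 1 N).filter (fun n => Nat.log 2 n = j),
      vonMangoldt n * (n : ℝ) ^ (-σ) ≤ 12 * r ^ j := by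
    intro j _
    have hle : ∀ n ∈ (Finset.Icc 1 N).filter (fun n => Nat.log 2 n = j),
        vonMangoldt n * (n : ℝ) ^ (-σ) ≤ vonMangoldt n * ((2 : ℝ) ^ j) ^ (-σ) := by
      intro n hn
      rw [Finset.mem_filter, Finset.mem_Icc] at hn
      have h3 : 2 ^ j ≤ n := by
        rw [← hn.2]
        exact Nat.pow_log_le_self 2 (by omega)
      have h4 : ((2 : ℝ) ^ j) ≤ n := by exact_mod_cast h3
      exact mul_le_mul_of_nonneg_left
        (Real.rpow_le_rpow_of_nonpos (by positivity) h4 (by linarith)) (vm_nn n)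
    refine (Finset.sum_le_sum hle).trans ?_
    rw [← Finset.sum_mul]
    have h5 : ∑ n ∈ (Finset.Icc 1 N).filter (fun n => Nat.log 2 n = j), vonMangoldt n ≤
        Chebyshev.psi ((2 : ℝ) ^ (j + 1)) := by
      unfold Chebyshev.psi
      refine Finset.sum_le_sum_of_subset_of_nonneg ?_ fun n _ _ => vm_nn n
      intro n hn
      rw [Finset.mem_filter, Finset.mem_Icc] at hn
      rw [Finset.mem_Ioc]
      refine ⟨by omega, ?_⟩
      have h6 := Nat.lt_pow_succ_log_self (b := 2) (by norm_num) n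
      rw [hn.2] at h6
      refine Nat.le_floor ?_
      exact_mod_cast h6.le
    have h6 := Chebyshev.psi_le_const_mul_self (x := (2 : ℝ) ^ (j + 1)) (by positivity)
    have h7 : Real.log 4 ≤ 2 := by
      have : Real.log 4 = 2 * Real.log 2 := by
        rw [show (4 : ℝ) = 2 ^ 2 by norm_num, Real.log_pow]
        norm_num
      rw [this]
      have := Real.log_two_lt_d9
      linarith
    have h8 : Chebyshev.psi ((2 : ℝ) ^ (j + 1)) ≤ 12 * 2 ^ j := by
      refine h6.trans ?_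
      rw [pow_succ]
      have : (0 : ℝ) < 2 ^ j := by positivity
      nlinarith
    have h9 : (2 : ℝ) ^ j * ((2 : ℝ) ^ j) ^ (-σ) = r ^ j := by
      rw [hr, ← Real.rpow_natCast, ← Real.rpow_mul (by norm_num), ← Real.rpow_add (by norm_num),
        ← Real.rpow_natCast, ← Real.rpow_mul (by norm_num)]
      congr 1
      ring
    calc (∑ n ∈ (Finset.Icc 1 N).filter (fun n => Nat.log 2 n = j), vonMangoldt n) *
          ((2 : ℝ) ^ j) ^ (-σ)
        ≤ (12 * 2 ^ j) * ((2 : ℝ) ^ j) ^ (-σ) := by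
          gcongr
          exact h5.trans h8
      _ = 12 * r ^ j := by rw [← h9]; ring
  refine (Finset.sum_le_sum hblock).trans ?_
  rw [← Finset.mul_sum]
  have h10 : ∑ j ∈ Finset.range J, r ^ j ≤ (1 - r)⁻¹ :=
    sum_le_hasSum _ (fun j _ => by positivity) (hasSum_geometric_of_lt_one hr0 (by linarith))
  have h11 : (1 - r)⁻¹ ≤ 2 / (σ - 1) := by
    rw [← inv_div]
    exact inv_anti₀ (by linarith) (by linarith)
  calc 12 * ∑ j ∈ Finset.range J, r ^ j ≤ 12 * (2 / (σ - 1)) := by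
        gcongr
        exact h10.trans h11
    _ = _ := by ring

lemma vm_nnx (x : Nat.Primes × ℕ) : vonMangoldt (nn x) = Real.log (x.1 : ℕ) := by
  unfold nn
  rw [ArithmeticFunction.vonMangoldt_apply_pow (by omega), ArithmeticFunction.vonMangoldt_apply_prime x.1.2]

/-- the Rankin-Selberg bound for one-dimensional parameters of size at most 1 -/
lemma rsb_one {α : Fin 1 → ℕ → ℂ} (hα : ∀ j (p : ℕ), ‖α j p‖ ≤ 1) {σ : ℝ} (h1 : 1 < σ) (h2 : σ ≤ 2) :
    RSb α σ (24 / (σ - 1)) := by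
  have hle : ∀ x, rsT α σ x ≤ vonMangoldt (nn x) * (nn x : ℝ) ^ (-σ) := fun x => by
    unfold rsT
    rw [vm_nnx]
    have h3 : ‖pw α x‖ ≤ 1 := by
      unfold pw
      simp only [Finset.univ_unique, Finset.sum_singleton]
      rw [norm_pow]
      exact pow_le_one₀ (norm_nonneg _) (hα _ _)
    have h4 := log_p x
    have h5 : ‖pw α x‖ ^ 2 ≤ 1 := pow_le_one₀ (norm_nonneg _) h3
    have h6 : 0 ≤ (nn x : ℝ) ^ (-σ) := by positivity
    have h7 : Real.log (x.1 : ℕ) * ‖pw α x‖ ^ 2 ≤ Real.log (x.1 : ℕ) * 1 := by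
      gcongr
    rw [mul_one] at h7
    gcongr
  have h0 : ∀ x, 0 ≤ rsT α σ x := fun x => by
    unfold rsT
    have h4 := log_p x
    have h6 : 0 ≤ (nn x : ℝ) ^ (-σ) := by positivity
    have : 0 ≤ Real.log (x.1 : ℕ) := by linarith
    positivity
  have hfin : ∀ u : Finset (Nat.Primes × ℕ), ∑ x ∈ u, rsT α σ x ≤ 24 / (σ - 1) := fun u => by
    refine (Finset.sum_le_sum fun x _ => hle x).trans ?_
    have h3 : ∑ x ∈ u, vonMangoldt (nn x) * (nn x : ℝ) ^ (-σ) =
        ∑ n ∈ u.image nn, vonMangoldt n * (n : ℝ) ^ (-σ) := by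
      rw [Finset.sum_image fun a _ b _ h => nn_inj h]
    rw [h3]
    refine le_trans ?_ (vm_sum h1 h2 ((u.image nn).sup id))
    refine Finset.sum_le_sum_of_subset_of_nonneg (fun n hn => ?_) fun n _ _ => ?_
    · rw [Finset.mem_Icc]
      constructor
      · obtain ⟨x, _, rfl⟩ := Finset.mem_image.mp hn
        have := nn_two_le x
        omega
      · exact Finset.le_sup (f := id) hn
    · exact mul_nonneg (vm_nn n) (by positivity)
  exact ⟨summable_of_sum_le h0 hfin, Real.tsum_le_of_sum_le h0 hfin⟩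

theorem dr_dir {q : ℕ} [NeZero q] {χ : DirichletCharacter ℂ q} (hq : 1 < q) (hχ : χ.IsPrimitive) :
    DR 24 (q : ℝ) (fun _ : Fin 1 => -H370.DL.aa χ) (fun _ p => χ (p : ZMod q))
      (DirichletCharacter.rootNumber χ) (DirichletCharacter.completedLFunction χ) := by
  refine ⟨datum_dir hq hχ, fun σ h1 h2 t => ?_⟩
  have h3 := rsb_one (α := fun _ p => χ (p : ZMod q)) (fun j p => DirichletCharacter.norm_le_one χ _) h1 h2
  refine ⟨h3.1, h3.2.trans ?_⟩
  have h4 : 0 ≤ Real.log (cond (q : ℝ) (fun _ : Fin 1 => -H370.DL.aa χ) t) :=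
    Real.log_nonneg (cond_ge (by exact_mod_cast hq.le) t)
  have h5 : 24 / (σ - 1) = 24 * (1 / (σ - 1)) := by ring
  rw [h5]
  linarith

end Pool.Agent.J4H34.HF
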