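import Pool.Agent.J4H34.HF.H6
import Pool.Agent.H353R6.E14

/-!
The heat operator does not move zeros away from the critical line.
-/

set_option autoImplicit false

open Complex Set MeasureTheory Filter Topology
open scoped ComplexConjugate Nat

namespace Pool.Agent.J4H34.HF

/-- a form of the theorem of Hurwitz -/
lemma hurw {F : ℂ → ℂ} {G : ℕ → ℂ → ℂ} {U : Set ℂ} (hU : IsOpen U) (hF : Differentiable ℂ F)
    (hne : ∃ z, F z ≠ 0) (hG : ∀ k, Differentiable ℂ (G k))
    (hnz : ∀ᶠ k in atTop, ∀ z ∈ U, G k z ≠ 0)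
    (hconv : ∀ R : ℝ, ∃ δ : ℕ → ℝ, Tendsto δ atTop (𝓝 0) ∧
      ∀ᶠ k in atTop, ∀ z, ‖z‖ ≤ R → ‖G k z - F z‖ ≤ δ k) {s : ℂ} (hs : s ∈ U) : F s ≠ 0 := by
  intro h0
  have hA : AnalyticOnNhd ℂ F univ := fun x _ => hF.analyticAt x
  rcases (hF.analyticAt s).eventually_eq_zero_or_eventually_ne_zero with h1 | h1
  · obtain ⟨z0, hz0⟩ := hne
    apply hz0
    exact hA.eqOn_zero_of_preconnected_of_eventuallyEq_zero isPreconnected_univ (mem_univ s) h1
      (mem_univ z0)
  have h2 : ∀ᶠ z in 𝓝 s, z ∈ U ∧ (z ≠ s → F z ≠ 0) :=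
    (hU.eventually_mem hs).and (eventually_nhdsWithin_iff.mp h1)
  obtain ⟨r', hr', hball⟩ := Metric.eventually_nhds_iff_ball.mp h2
  set r := r' / 2 with hr
  have hr0 : 0 < r := by positivity
  have hcb : ∀ z ∈ Metric.closedBall s r, z ∈ U ∧ (z ≠ s → F z ≠ 0) := fun z hz =>
    hball z (Metric.closedBall_subset_ball (by linarith) hz)
  have hsph : (Metric.sphere s r).Nonempty := NormedSpace.sphere_nonempty.mpr hr0.le
  obtain ⟨z1, hz1, hmin⟩ := (isCompact_sphere s r).exists_isMinOn hsph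
    (f := fun z => ‖F z‖) (hF.continuous.norm.continuousOn)
  have hm : 0 < ‖F z1‖ := by
    refine norm_pos_iff.mpr ((hcb z1 (Metric.sphere_subset_closedBall hz1)).2 ?_)
    rintro rfl
    rw [Metric.mem_sphere, dist_self] at hz1
    linarith
  set m := ‖F z1‖ with hmdef
  obtain ⟨δ, hδ, hδ2⟩ := hconv (‖s‖ + r)
  have hδ3 := hδ.eventually (gt_mem_nhds (show (0 : ℝ) < m / 2 by positivity))
  obtain ⟨k, hk1, hk2, hk3⟩ := (hnz.and (hδ2.and hδ3)).exists
  have hnorm : ∀ z ∈ Metric.closedBall s r, ‖z‖ ≤ ‖s‖ + r := fun z hz => by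
    rw [Metric.mem_closedBall, dist_eq_norm] at hz
    have := norm_add_le (z - s) s
    rw [sub_add_cancel] at this
    linarith
  have hs1 : ‖(G k s)⁻¹‖ ≤ 2 / m := by
    refine Complex.norm_le_of_forall_mem_frontier_norm_le (f := fun z => (G k z)⁻¹)
      (U := Metric.ball s r) Metric.isBounded_ball ?_ ?_ (subset_closure (Metric.mem_ball_self hr0))
    · apply DifferentiableOn.diffContOnCl
      intro z hz
      have hz' := Metric.closure_ball_subset_closedBall hz
      exact ((hG k z).inv (hk1 z (hcb z hz').1)).differentiableWithinAt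
    · intro z hz
      rw [frontier_ball s hr0.ne'] at hz
      have h3 : m ≤ ‖F z‖ := hmin hz
      have h4 := hk2 z (hnorm z (Metric.sphere_subset_closedBall hz))
      have h5 : ‖F z‖ ≤ ‖G k z‖ + ‖G k z - F z‖ := by
        have := norm_sub_le (G k z) (G k z - F z)
        rwa [sub_sub_cancel] at this
      have h6 : m / 2 ≤ ‖G k z‖ := by linarith
      rw [norm_inv]
      calc ‖G k z‖⁻¹ ≤ (m / 2)⁻¹ := inv_anti₀ (by positivity) h6
        _ = 2 / m := by rw [inv_div]
  have h3 := hk2 s (hnorm s (Metric.mem_closedBall_self hr0.le))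
  rw [h0, sub_zero] at h3
  have h4 : 0 < ‖G k s‖ := norm_pos_iff.mpr (hk1 s hs)
  rw [norm_inv, inv_le_comm₀ h4 (by positivity), inv_div] at hs1
  linarith

/-! ### growth -/

lemma exists_E {F : ℂ → ℂ} (hg : GrC F) : ∃ E : ℝ → ℝ, Monotone E ∧
    Tendsto (fun ρ => E ρ / ρ ^ 2) atTop (𝓝 0) ∧ ∀ w, ‖F w‖ ≤ Real.exp (E ‖w‖) := by
  set S : ℝ → Set ℝ := fun ρ => (fun z => ‖F z‖) '' Metric.closedBall 0 (max ρ 0) with hS
  have hbound : ∀ e : ℝ, 0 < e → ∃ K : ℝ, 0 ≤ K ∧ ∀ ρ : ℝ, ∀ y ∈ S ρ,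
      y ≤ K * Real.exp (e * (max ρ 0) ^ 2) := fun e he => by
    obtain ⟨K, hK0, hK⟩ := hg e he
    refine ⟨K, hK0, fun ρ y hy => ?_⟩
    obtain ⟨z, hz, rfl⟩ := hy
    rw [Metric.mem_closedBall, dist_zero_right] at hz
    refine (hK z).trans ?_
    have : ‖z‖ ^ 2 ≤ (max ρ 0) ^ 2 := by gcongr
    gcongr
  have hbdd : ∀ ρ, BddAbove (S ρ) := fun ρ => by
    obtain ⟨K, _, hK⟩ := hbound 1 one_pos
    exact ⟨_, fun y hy => hK ρ y hy⟩
  have hnon : ∀ ρ, (S ρ).Nonempty := fun ρ =>
    ⟨‖F 0‖, 0, Metric.mem_closedBall_self (le_max_right _ _), rfl⟩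
  have hM0 : ∀ ρ, 0 ≤ sSup (S ρ) := fun ρ => Real.sSup_nonneg (fun y hy => by
    obtain ⟨z, _, rfl⟩ := hy
    exact norm_nonneg _)
  set E : ℝ → ℝ := fun ρ => Real.log (1 + sSup (S ρ)) with hE
  refine ⟨E, fun a b hab => ?_, ?_, fun w => ?_⟩
  · simp only [hE]
    apply Real.log_le_log (by linarith [hM0 a])
    have : sSup (S a) ≤ sSup (S b) := csSup_le_csSup (hbdd b) (hnon a)
      (image_mono (Metric.closedBall_subset_closedBall (max_le_max_right 0 hab)))
    linarith
  · rw [Metric.tendsto_atTop]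
    intro e he
    obtain ⟨K, hK0, hK⟩ := hbound (e / 4) (by positivity)
    refine ⟨max 1 (4 * Real.log (1 + K) / e), fun ρ hρ => ?_⟩
    have hρ1 : 1 ≤ ρ := (le_max_left _ _).trans hρ
    have hρ2 : 4 * Real.log (1 + K) / e ≤ ρ := (le_max_right _ _).trans hρ
    have hρ0 : 0 < ρ := by linarith
    have h1 : sSup (S ρ) ≤ K * Real.exp (e / 4 * ρ ^ 2) := by
      refine csSup_le (hnon ρ) fun y hy => ?_
      have := hK ρ y hy
      rwa [max_eq_left hρ0.le] at this
    have h2 : E ρ ≤ Real.log (1 + K) + e / 4 * ρ ^ 2 := by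
      simp only [hE]
      rw [← Real.log_exp (e / 4 * ρ ^ 2), ← Real.log_mul (by linarith) (Real.exp_pos _).ne']
      apply Real.log_le_log (by linarith [hM0 ρ])
      have h3 : 1 ≤ Real.exp (e / 4 * ρ ^ 2) := Real.one_le_exp (by positivity)
      linarith
    have h3 : 0 ≤ E ρ := Real.log_nonneg (by linarith [hM0 ρ])
    rw [Real.dist_eq, sub_zero, abs_of_nonneg (by positivity), div_lt_iff₀ (by positivity)]
    rw [div_le_iff₀ he] at hρ2
    have h4 : ρ * 1 ≤ ρ * ρ := by gcongr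
    nlinarith
  · have h1 : ‖F w‖ ≤ sSup (S ‖w‖) := by
      apply le_csSup (hbdd _)
      exact ⟨w, by
        rw [Metric.mem_closedBall, dist_zero_right]
        exact le_max_left _ _, rfl⟩
    simp only [hE]
    rw [Real.exp_log (by linarith [hM0 ‖w‖])]
    linarith

lemma grc_deriv {f : ℂ → ℂ} (hf : Differentiable ℂ f) (hg : GrC f) : GrC (deriv f) := by
  intro e he
  obtain ⟨K, hK0, hK⟩ := hg (e / 2) (by positivity)
  refine ⟨K * Real.exp e, by positivity, fun s => ?_⟩
  have h1 := Complex.norm_deriv_le_of_forall_mem_sphere_norm_le (c := s) (R := 1)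
    (C := K * Real.exp e * Real.exp (e * ‖s‖ ^ 2)) (f := f) one_pos hf.diffContOnCl (fun z hz => ?_)
  · simpa using h1
  · refine (hK z).trans ?_
    rw [mul_assoc, ← Real.exp_add]
    refine mul_le_mul_of_nonneg_left (Real.exp_le_exp.mpr ?_) hK0
    have h2 : ‖z‖ ≤ ‖s‖ + 1 := by
      rw [Metric.mem_sphere, dist_eq_norm] at hz
      have := norm_add_le (z - s) s
      rw [sub_add_cancel] at this
      linarith
    have h3 : ‖z‖ ^ 2 ≤ (‖s‖ + 1) ^ 2 := by gcongr
    nlinarith [sq_nonneg (‖s‖ - 1)]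

lemma grc_add {f g : ℂ → ℂ} (hf : GrC f) (hg : GrC g) (c : ℂ) : GrC (fun s => f s + c * g s) := by
  intro e he
  obtain ⟨K, hK0, hK⟩ := hf e he
  obtain ⟨L, hL0, hL⟩ := hg e he
  refine ⟨K + ‖c‖ * L, by positivity, fun s => ?_⟩
  refine (norm_add_le _ _).trans ?_
  rw [norm_mul]
  calc ‖f s‖ + ‖c‖ * ‖g s‖ ≤ K * Real.exp (e * ‖s‖ ^ 2) + ‖c‖ * (L * Real.exp (e * ‖s‖ ^ 2)) := by
        have h1 := hK s
        have h2 := hL s
        gcongr
    _ = _ := by ring

lemma grc_shift {f : ℂ → ℂ} (hf : GrC f) (c : ℂ) : GrC (fun s => f (c + s)) := by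
  intro e he
  obtain ⟨K, hK0, hK⟩ := hf (e / 2) (by positivity)
  refine ⟨K * Real.exp (e * ‖c‖ ^ 2), by positivity, fun s => (hK _).trans ?_⟩
  rw [mul_assoc, ← Real.exp_add]
  refine mul_le_mul_of_nonneg_left (Real.exp_le_exp.mpr ?_) hK0
  have h2 := norm_add_le c s
  have h3 : ‖c + s‖ ^ 2 ≤ (‖c‖ + ‖s‖) ^ 2 := by gcongr
  nlinarith [sq_nonneg (‖c‖ - ‖s‖)]

/-! ### the class -/

/-- entire functions of order less than 2 with functional equation and zeros in a strip -/
structure ZS (b : ℝ) (f : ℂ → ℂ) : Prop where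
  diff : Differentiable ℂ f
  fe : ∃ ε : ℂ, ∀ s, f s = ε * conj (f (1 - conj s))
  gr : GrC f
  zer : ∀ s, f s = 0 → s.re ≤ 1 / 2 + b

/-- `g + c g'` -/
noncomputable def op1 (c : ℂ) (g : ℂ → ℂ) : ℂ → ℂ := fun s => g s + c * deriv g s

/-- `g + β g''` -/
noncomputable def op (β : ℂ) (g : ℂ → ℂ) : ℂ → ℂ := fun s => g s + β * deriv (deriv g) s

lemma op1_diff {g : ℂ → ℂ} (hg : Differentiable ℂ g) (c : ℂ) : Differentiable ℂ (op1 c g) :=
  hg.add ((hg.deriv).const_mul c)

lemma op_diff {g : ℂ → ℂ} (hg : Differentiable ℂ g) (c : ℂ) : Differentiable ℂ (op c g) :=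
  hg.add ((hg.deriv.deriv).const_mul c)

lemma op_eq {g : ℂ → ℂ} (hg : Differentiable ℂ g) (γ : ℝ) :
    op ((γ ^ 2 : ℝ) : ℂ) g = op1 ((γ : ℂ) * I) (op1 (((-γ : ℝ) : ℂ) * I) g) := by
  funext s
  unfold op op1
  have h1 : deriv (fun s => g s + ((-γ : ℝ) : ℂ) * I * deriv g s) s =
      deriv g s + ((-γ : ℝ) : ℂ) * I * deriv (deriv g) s := by
    have h2 := (hg s).hasDerivAt.add ((hg.deriv s).hasDerivAt.const_mul (((-γ : ℝ) : ℂ) * I))
    exact h2.deriv
  rw [h1]
  have : (I : ℂ) ^ 2 = -1 := I_sq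
  push_cast
  linear_combination ((γ : ℂ) ^ 2 * deriv (deriv g) s) * this

lemma ZS.shift {b : ℝ} {g : ℂ → ℂ} (h : ZS b g) (γ : ℝ) (hne : ∃ z, op1 ((γ : ℂ) * I) g z ≠ 0) :
    ZS b (op1 ((γ : ℂ) * I) g) := by
  obtain ⟨ε, hfe⟩ := h.fe
  have hne0 : ∃ z, g z ≠ 0 := by
    by_contra hcon
    push Not at hcon
    obtain ⟨z, hz⟩ := hne
    apply hz
    have : g = fun _ => 0 := funext hcon
    rw [this]
    simp [op1]
  refine ⟨op1_diff h.diff _, ⟨ε, fun s => ?_⟩, grc_add h.gr (grc_deriv h.diff h.gr) _, fun s hs => ?_⟩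
  · unfold op1
    have h1 := H353.E.fe_deriv h.diff hfe s
    rw [h1]
    nth_rewrite 1 [hfe s]
    rw [map_add, map_mul, map_mul, Complex.conj_I, Complex.conj_ofReal]
    ring
  · by_contra hcon
    push Not at hcon
    obtain ⟨y, hy⟩ := H353.E.exists_ne_line h.diff hne0
    set c : ℂ := 1 / 2 + y * I with hc
    have hcc : c + conj c = 1 := by
      apply Complex.ext
      · simp [hc]
        norm_num
      · simp [hc]
    set F : ℂ → ℂ := fun w => g (c + w) with hF
    have hFd : Differentiable ℂ F := h.diff.comp (by fun_prop)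
    have hdF : ∀ w, deriv F w = deriv g (c + w) := fun w => by
      simp only [hF]
      exact deriv_comp_const_add g c w
    obtain ⟨E, hE, hEt, hEb⟩ := exists_E (grc_shift h.gr c)
    have hF0 : F 0 ≠ 0 := by simpa [hF] using hy
    have hFfe : ∀ w, F w = ε * conj (F (-conj w)) := fun w => by
      simp only [hF]
      rw [hfe (c + w)]
      congr 3
      rw [map_add]
      linear_combination -hcc
    have hFz : ∀ u, F u = 0 → u.re ≤ b := fun u hu => by
      have h1 := h.zer (c + u) hu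
      rw [add_re, hc] at h1
      simp at h1
      linarith
    set U : Set ℂ := {z | b < z.re} with hU
    have hUo : IsOpen U := isOpen_lt continuous_const continuous_re
    have hUc : IsPreconnected U := (convex_halfSpace_re_gt b).isPreconnected
    have hFU : ∀ z ∈ U, F z ≠ 0 := fun z hzU h => by
      have h1 := hFz z h
      have h2 : b < z.re := hzU
      linarith
    have hg' : AnalyticOnNhd ℂ (fun z => deriv F z / F z) U := by
      apply DifferentiableOn.analyticOnNhd _ hUo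
      exact hFd.deriv.differentiableOn.div hFd.differentiableOn hFU
    set w : ℂ := s - c with hw
    have hwU : w ∈ U := by
      show b < (s - c).re
      rw [sub_re, hc]
      simp
      linarith
    have hcw : c + w = s := by rw [hw]; ring
    -- the equation at the zero
    have hq : (γ : ℂ) * I * (deriv F w / F w) = -1 := by
      have h1 : F w + (γ : ℂ) * I * deriv F w = 0 := by
        rw [hdF, hcw]
        simp only [hF]
        rw [hcw]
        exact hs
      have h2 := hFU w hwU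
      field_simp
      linear_combination h1
    have hγ : γ ≠ 0 := by
      rintro rfl
      simp at hq
    have hq2 : deriv F w / F w = ((1 / γ : ℝ) : ℂ) * I := by
      have hγc : (γ : ℂ) ≠ 0 := by exact_mod_cast hγ
      have : (I : ℂ) ^ 2 = -1 := I_sq
      have h3 : (γ : ℂ) * I ≠ 0 := mul_ne_zero hγc I_ne_zero
      apply mul_left_cancel₀ h3
      rw [hq]
      push_cast
      field_simp
      rw [this]
    rcases hg'.is_constant_or_isOpen hUc with ⟨c', hc'⟩ | ho
    · have hc0 : c' = ((1 / γ : ℝ) : ℂ) * I := by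
        rw [← hc' w hwU, hq2]
      have h1 : ∀ z ∈ U, op1 ((γ : ℂ) * I) g (c + z) = 0 := fun z hzU => by
        have h2 := hc' z hzU
        rw [hc0] at h2
        have h3 := hFU z hzU
        rw [div_eq_iff h3] at h2
        unfold op1
        rw [← hdF z, h2]
        have hγc : (γ : ℂ) ≠ 0 := by exact_mod_cast hγ
        have : (I : ℂ) ^ 2 = -1 := I_sq
        simp only [hF]
        push_cast
        field_simp
        rw [this]
        ring
      obtain ⟨z0, hz0⟩ := hne
      apply hz0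
      have hdA : AnalyticOnNhd ℂ (fun z => op1 ((γ : ℂ) * I) g (c + z)) univ := fun x _ =>
        (((op1_diff h.diff _).comp (by fun_prop : Differentiable ℂ fun z => c + z))).analyticAt x
      have h2 : (fun z => op1 ((γ : ℂ) * I) g (c + z)) =ᶠ[𝓝 w] fun _ => 0 := by
        filter_upwards [hUo.mem_nhds hwU] with z hzU
        exact h1 z hzU
      have h3 := hdA.eqOn_zero_of_preconnected_of_eventuallyEq_zero isPreconnected_univ (mem_univ w) h2
        (mem_univ (z0 - c))
      simp only [add_sub_cancel, Pi.zero_apply] at h3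
      exact h3
    · have h1 := ho U subset_rfl hUo
      have h2 : ((1 / γ : ℝ) : ℂ) * I ∈ (fun z => deriv F z / F z) '' U := ⟨w, hwU, hq2⟩
      obtain ⟨δ, hδ, hball⟩ := Metric.isOpen_iff.mp h1 _ h2
      have h3 : ((1 / γ : ℝ) : ℂ) * I - ((δ / 2 : ℝ) : ℂ) ∈ Metric.ball (((1 / γ : ℝ) : ℂ) * I) δ := by
        rw [Metric.mem_ball, dist_eq_norm, sub_sub_cancel_left, norm_neg, Complex.norm_real,
          Real.norm_eq_abs, abs_of_pos (by positivity)]
        linarith
      obtain ⟨z, hzU, hz1⟩ := hball h3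
      have h4 := H353.E.re_logderiv_nonneg hFd hF0 hFfe hE hEt hEb hFz (w := z) hzU
      simp only at hz1
      rw [hz1, sub_re, Complex.re_ofReal_mul, I_re, ofReal_re] at h4
      linarith

lemma ZS.op {b : ℝ} {g : ℂ → ℂ} (h : ZS b g) {β : ℝ} (hβ : 0 ≤ β)
    (hne : ∃ z, op (β : ℂ) g z ≠ 0) : ZS b (op (β : ℂ) g) := by
  set γ := Real.sqrt β with hγ
  have hβγ : β = γ ^ 2 := (Real.sq_sqrt hβ).symm
  rw [hβγ, op_eq h.diff] at hne ⊢
  have hne1 : ∃ z, op1 (((-γ : ℝ) : ℂ) * I) g z ≠ 0 := by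
    by_contra hcon
    push Not at hcon
    obtain ⟨z, hz⟩ := hne
    apply hz
    have : op1 (((-γ : ℝ) : ℂ) * I) g = fun _ => 0 := funext hcon
    rw [this]
    simp [op1]
  exact (h.shift (-γ) hne1).shift γ hne

lemma ZS.iter {b : ℝ} {f : ℂ → ℂ} (h : ZS b f) {β : ℝ} (hβ : 0 ≤ β) (k : ℕ)
    (hne : ∃ z, ((HF.op (β : ℂ))^[k] f) z ≠ 0) : ZS b ((HF.op (β : ℂ))^[k] f) := by
  induction k with
  | zero => exact h
  | succ k ih =>
    rw [Function.iterate_succ_apply'] at hne ⊢
    refine (ih ?_).op hβ hne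
    by_contra hcon
    push Not at hcon
    obtain ⟨z, hz⟩ := hne
    apply hz
    have : ((HF.op (β : ℂ))^[k] f) = fun _ => 0 := funext hcon
    rw [this]
    simp [HF.op]

/-! ### expansion of the iterates -/

lemma ider_op {f : ℂ → ℂ} (hf : Differentiable ℂ f) (β : ℂ) (n : ℕ) (s : ℂ) :
    iteratedDeriv n (op β f) s = iteratedDeriv n f s + β * iteratedDeriv (n + 2) f s := by
  have h1 : op β f = f + fun s => β * iteratedDeriv 2 f s := by
    funext s
    simp [op, iteratedDeriv_succ, iteratedDeriv_zero]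
  have hc : ContDiff ℂ ⊤ f := hf.contDiff
  have hc2 : ContDiff ℂ ⊤ (iteratedDeriv 2 f) := (ider_diff hf 2).contDiff
  rw [h1, iteratedDeriv_add (hc.contDiffAt.of_le (by exact_mod_cast le_top))
    ((contDiff_const.mul hc2).contDiffAt.of_le (by exact_mod_cast le_top))]
  congr 1
  rw [iteratedDeriv_const_mul_field]
  congr 1
  rw [iteratedDeriv_eq_iterate, iteratedDeriv_eq_iterate, iteratedDeriv_eq_iterate,
    ← Function.iterate_add_apply]

lemma op_iter {β : ℂ} (k : ℕ) : ∀ {f : ℂ → ℂ}, Differentiable ℂ f → ∀ s : ℂ,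
    ((op β)^[k] f) s = ∑ j ∈ Finset.range (k + 1), (k.choose j : ℂ) *
      (β ^ j * iteratedDeriv (2 * j) f s) := by
  induction k with
  | zero => intro f hf s; simp
  | succ k ih =>
    intro f hf s
    rw [Function.iterate_succ_apply, ih (op_diff hf β) s]
    have h1 := Finset.sum_choose_succ_mul
      (fun i _ => β ^ i * iteratedDeriv (2 * i) f s) k
    rw [h1, ← Finset.sum_add_distrib]
    refine Finset.sum_congr rfl fun j _ => ?_
    rw [ider_op hf, show 2 * (j + 1) = 2 * j + 2 by ring]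
    ring

lemma op_iter_diff {β : ℂ} {f : ℂ → ℂ} (hf : Differentiable ℂ f) (k : ℕ) :
    Differentiable ℂ ((op β)^[k] f) := by
  induction k with
  | zero => exact hf
  | succ k ih =>
    rw [Function.iterate_succ_apply']
    exact op_diff ih β

/-- the coefficients -/
noncomputable def cf (k j : ℕ) : ℝ := (k.descFactorial j : ℝ) / (k : ℝ) ^ j

lemma cf_bd (k j : ℕ) : 0 ≤ cf k j ∧ cf k j ≤ 1 := by
  unfold cf
  refine ⟨by positivity, ?_⟩
  refine div_le_one_of_le₀ ?_ (by positivity)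
  exact_mod_cast Nat.descFactorial_le_pow k j

lemma cf_lim (j : ℕ) : Tendsto (fun k => cf k j) atTop (𝓝 1) := by
  induction j with
  | zero => simp [cf]
  | succ j ih =>
    have h1 : Tendsto (fun k : ℕ => (1 - (j : ℝ) / k) * cf k j) atTop (𝓝 ((1 - 0) * 1)) := by
      refine Tendsto.mul (tendsto_const_nhds.sub ?_) ih
      exact tendsto_const_div_atTop_nhds_zero_nat (j : ℝ)
    rw [sub_zero, mul_one] at h1
    refine h1.congr' ?_
    filter_upwards [eventually_ge_atTop (j + 1)] with k hk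
    unfold cf
    have hk0 : (k : ℝ) ≠ 0 := by
      have : 0 < k := by omega
      exact_mod_cast this.ne'
    rw [Nat.descFactorial_succ, Nat.cast_mul, Nat.cast_sub (by omega)]
    field_simp
    ring

/-- convergence of the iterates to the heat operator -/
lemma op_conv {f : ℂ → ℂ} (hf : Differentiable ℂ f) (hg : GrC f) {τ : ℝ} (hτ : 0 < τ) (R : ℝ) :
    ∃ δ : ℕ → ℝ, Tendsto δ atTop (𝓝 0) ∧ ∀ᶠ k : ℕ in atTop, ∀ z, ‖z‖ ≤ R →
      ‖((op ((τ / k : ℝ) : ℂ))^[k] f) z - heat τ f z‖ ≤ δ k := by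
  obtain ⟨K, hK0, hK⟩ := even_bd hf hg hτ (max R 0) (le_max_right _ _)
  have hgeo : Summable fun j : ℕ => (1 / 4 : ℝ) ^ j :=
    summable_geometric_of_lt_one (by norm_num) (by norm_num)
  refine ⟨fun k => ∑' j : ℕ, (1 - cf k j) * (K * (1 / 4) ^ j), ?_, ?_⟩
  · have h1 := tendsto_tsum_of_dominated_convergence (𝓕 := atTop)
      (f := fun (k j : ℕ) => (1 - cf k j) * (K * (1 / 4) ^ j)) (g := fun _ => (0 : ℝ))
      (bound := fun j => K * (1 / 4) ^ j) (hgeo.mul_left K) (fun j => ?_)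
      (Eventually.of_forall fun k j => ?_)
    · simpa using h1
    · have h2 := ((cf_lim j).const_sub 1).mul_const (K * (1 / 4) ^ j)
      rw [sub_self, zero_mul] at h2
      exact h2
    · have h3 := cf_bd k j
      rw [Real.norm_eq_abs, abs_of_nonneg (mul_nonneg (by linarith) (by positivity))]
      have : 0 ≤ K * (1 / 4) ^ j := by positivity
      nlinarith
  · filter_upwards [eventually_ge_atTop 1] with k hk z hz
    have hz' : ‖z‖ ≤ max R 0 := hz.trans (le_max_left _ _)
    have hk0 : (k : ℝ) ≠ 0 := by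
      have : 0 < k := by omega
      exact_mod_cast this.ne'
    set t : ℕ → ℂ := fun j => ((τ ^ j / j ! : ℝ) : ℂ) * iteratedDeriv (2 * j) f z with ht
    have h1 : HasSum (fun j => ((cf k j : ℝ) : ℂ) * t j) (((op ((τ / k : ℝ) : ℂ))^[k] f) z) := by
      rw [op_iter k hf z]
      have h2 : ∑ j ∈ Finset.range (k + 1), (k.choose j : ℂ) *
          ((((τ / k : ℝ) : ℂ)) ^ j * iteratedDeriv (2 * j) f z) =
          ∑ j ∈ Finset.range (k + 1), ((cf k j : ℝ) : ℂ) * t j := by
        refine Finset.sum_congr rfl fun j _ => ?_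
        simp only [ht]
        have hfac : (j ! : ℝ) ≠ 0 := by exact_mod_cast Nat.factorial_ne_zero _
        have h3 : (k.choose j : ℝ) * (τ / k) ^ j = cf k j * (τ ^ j / j !) := by
          unfold cf
          rw [Nat.descFactorial_eq_factorial_mul_choose, Nat.cast_mul, div_pow]
          field_simp
        have h4 : (k.choose j : ℂ) * (((τ / k : ℝ) : ℂ)) ^ j =
            ((cf k j : ℝ) : ℂ) * ((τ ^ j / j ! : ℝ) : ℂ) := by
          exact_mod_cast h3
        rw [← mul_assoc, h4, mul_assoc]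
      rw [h2]
      refine hasSum_sum_of_ne_finset_zero fun j hj => ?_
      have hj' : k < j := by
        rw [Finset.mem_range] at hj
        omega
      have h3 : cf k j = 0 := by
        unfold cf
        rw [Nat.descFactorial_of_lt hj']
        simp
      rw [h3]
      simp
    have h2 := h1.sub (heat_hasSum hf hg hτ z)
    have h3 : ∀ j, ‖((cf k j : ℝ) : ℂ) * t j - t j‖ ≤ (1 - cf k j) * (K * (1 / 4) ^ j) := fun j => by
      have h4 := cf_bd k j
      have e : ((cf k j : ℝ) : ℂ) * t j - t j = ((cf k j - 1 : ℝ) : ℂ) * t j := by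
        push_cast
        ring
      rw [e, norm_mul, Complex.norm_real, Real.norm_eq_abs, abs_of_nonpos (by linarith), neg_sub]
      have h5 : ‖t j‖ ≤ K * (1 / 4) ^ j := hK j z hz'
      have : 0 ≤ 1 - cf k j := by linarith
      gcongr
    have h4 : Summable fun j => (1 - cf k j) * (K * (1 / 4) ^ j) := by
      refine Summable.of_nonneg_of_le (fun j => ?_) (fun j => ?_) (hgeo.mul_left K)
      · have h4 := cf_bd k j
        have : 0 ≤ 1 - cf k j := by linarith
        positivity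
      · have h4 := cf_bd k j
        have : 0 ≤ K * (1 / 4) ^ j := by positivity
        nlinarith
    rw [← h2.tsum_eq]
    exact tsum_of_norm_bounded h4.hasSum h3

/-- zeros are not moved away from the line -/
theorem ZS.heat {b : ℝ} {f : ℂ → ℂ} (h : ZS b f) {τ : ℝ} (hτ : 0 < τ)
    (hne : ∃ z, heat τ f z ≠ 0) : ZS b (heat τ f) := by
  have hd := heat_diff h.diff h.gr hτ
  obtain ⟨ε, hfe⟩ := h.fe
  refine ⟨hd, ⟨ε, heat_fe hfe⟩, heat_gr h.diff h.gr hτ, fun s hs => ?_⟩
  by_contra hcon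
  push Not at hcon
  have hconv := fun R => op_conv h.diff h.gr hτ R
  refine hurw (F := HF.heat τ f) (G := fun k => (HF.op ((τ / k : ℝ) : ℂ))^[k] f)
    (U := {z | 1 / 2 + b < z.re}) (isOpen_lt continuous_const continuous_re) hd hne
    (fun k => op_iter_diff h.diff k) ?_ hconv (s := s) hcon hs
  -- the iterates are not identically zero
  obtain ⟨z0, hz0⟩ := hne
  obtain ⟨δ, hδ1, hδ2⟩ := hconv ‖z0‖
  have hpos : 0 < ‖HF.heat τ f z0‖ := norm_pos_iff.mpr hz0
  filter_upwards [hδ2, hδ1.eventually (gt_mem_nhds hpos), eventually_ge_atTop 1] with k h1 h2 h3 z hz h0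
  have h4 := h1 z0 le_rfl
  have hnek : ∃ z, ((HF.op ((τ / k : ℝ) : ℂ))^[k] f) z ≠ 0 := by
    refine ⟨z0, fun h5 => ?_⟩
    rw [h5, zero_sub, norm_neg] at h4
    linarith
  have h5 := (h.iter (β := τ / k) (by positivity) k hnek).zer z h0
  have h6 : 1 / 2 + b < z.re := hz
  linarith

end Pool.Agent.J4H34.HF
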