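import Mathlib
import Pool.Agent.H353R6.E12

/-!
The logarithm of an Euler product under a Rankin-Selberg bound.
-/

set_option autoImplicit false

open Complex Set MeasureTheory Filter Topology
open scoped ComplexConjugate Nat

namespace Pool.Agent.J4H34.HF

/-- the prime power `p^(k+1)` -/
def nn (x : Nat.Primes × ℕ) : ℕ := (x.1 : ℕ) ^ (x.2 + 1)

lemma nn_two_le (x : Nat.Primes × ℕ) : 2 ≤ nn x := by
  unfold nn
  calc 2 ≤ (x.1 : ℕ) := x.1.2.two_le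
    _ = (x.1 : ℕ) ^ 1 := (pow_one _).symm
    _ ≤ _ := Nat.pow_le_pow_right x.1.2.pos (by omega)

lemma nn_inj : Function.Injective nn := by
  have h1 : nn = Subtype.val ∘ Nat.Primes.prodNatEquiv := by
    funext x
    rfl
  rw [h1]
  exact Subtype.val_injective.comp Nat.Primes.prodNatEquiv.injective

/-- power sums of the Satake parameters -/
noncomputable def pw {m : ℕ} (α : Fin m → ℕ → ℂ) (x : Nat.Primes × ℕ) : ℂ := ∑ j, α j x.1 ^ (x.2 + 1)

/-- the terms of the Rankin-Selberg sum -/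
noncomputable def rsT {m : ℕ} (α : Fin m → ℕ → ℂ) (σ : ℝ) (x : Nat.Primes × ℕ) : ℝ :=
  Real.log (x.1 : ℕ) * ‖pw α x‖ ^ 2 * (nn x : ℝ) ^ (-σ)

/-- the terms of the logarithm -/
noncomputable def lt {m : ℕ} (α : Fin m → ℕ → ℂ) (s : ℂ) (x : Nat.Primes × ℕ) : ℂ :=
  pw α x / (x.2 + 1) * (nn x : ℂ) ^ (-s)

/-- the logarithm of the Euler product -/
noncomputable def LL {m : ℕ} (α : Fin m → ℕ → ℂ) (s : ℂ) : ℂ := ∑' x, lt α s x

lemma sumZ {σ : ℝ} (hσ : 1 < σ) : Summable fun x => (nn x : ℝ) ^ (-σ) := by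
  have h1 : Summable fun n : ℕ => (n : ℝ) ^ (-σ) := Real.summable_nat_rpow.mpr (by linarith)
  exact h1.comp_injective nn_inj

variable {m : ℕ} {α : Fin m → ℕ → ℂ}

lemma log_p (x : Nat.Primes × ℕ) : 1 / 2 ≤ Real.log (x.1 : ℕ) := by
  have h1 : Real.log 2 ≤ Real.log (x.1 : ℕ) := by
    apply Real.log_le_log (by norm_num)
    exact_mod_cast x.1.2.two_le
  have := Real.log_two_gt_d9
  linarith

lemma amgm {σ lam : ℝ} (hl : 0 < lam) (x : Nat.Primes × ℕ) :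
    ‖pw α x‖ * (nn x : ℝ) ^ (-σ) ≤ (lam * rsT α σ x + 2 / lam * (nn x : ℝ) ^ (-σ)) / 2 := by
  have hn : 0 < (nn x : ℝ) ^ (-σ) := by
    have : (0:ℝ) < nn x := by
      have := nn_two_le x
      exact_mod_cast (by omega : 0 < nn x)
    positivity
  have h1 := log_p x
  unfold rsT
  set y := ‖pw α x‖
  set z := (nn x : ℝ) ^ (-σ)
  set L := Real.log (x.1 : ℕ)
  have hy : 0 ≤ y := norm_nonneg _
  have h2 : 2 * y ≤ lam * (L * y ^ 2) + 2 / lam := by
    have h3 : lam * (1 / 2 * y ^ 2) ≤ lam * (L * y ^ 2) := by gcongr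
    have h4 : lam * (1 / 2 * y ^ 2) + 2 / lam - 2 * y = (lam * y - 2) ^ 2 / (2 * lam) := by
      field_simp
      ring
    have h5 : 0 ≤ (lam * y - 2) ^ 2 / (2 * lam) := by positivity
    linarith
  have h3 : (2 * y) * z ≤ (lam * (L * y ^ 2) + 2 / lam) * z := by gcongr
  nlinarith

lemma lt_norm {σ₀ : ℝ} {s : ℂ} (hs : σ₀ ≤ s.re) (x : Nat.Primes × ℕ) :
    ‖lt α s x‖ ≤ (‖pw α x‖ * (nn x : ℝ) ^ (-σ₀)) * (2 : ℝ) ^ (-(s.re - σ₀)) := by
  have hn2 : (2 : ℝ) ≤ nn x := by exact_mod_cast nn_two_le x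
  have hn0 : 0 < nn x := by have := nn_two_le x; omega
  unfold lt
  rw [norm_mul, norm_div, Complex.norm_natCast_cpow_of_pos hn0, neg_re]
  have h1 : ‖((x.2 : ℂ) + 1)‖ = (x.2 : ℝ) + 1 := by
    have : ((x.2 : ℂ) + 1) = ((x.2 + 1 : ℕ) : ℂ) := by push_cast; ring
    rw [this, Complex.norm_natCast]
    push_cast
    ring
  have h2 : ‖pw α x‖ / ‖((x.2 : ℂ) + 1)‖ ≤ ‖pw α x‖ := by
    rw [h1]
    apply div_le_self (norm_nonneg _)
    have : (0:ℝ) ≤ x.2 := Nat.cast_nonneg _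
    linarith
  have h3 : (nn x : ℝ) ^ (-s.re) = (nn x : ℝ) ^ (-σ₀) * (nn x : ℝ) ^ (-(s.re - σ₀)) := by
    rw [← Real.rpow_add (by linarith)]
    congr 1
    ring
  have h4 : (nn x : ℝ) ^ (-(s.re - σ₀)) ≤ (2 : ℝ) ^ (-(s.re - σ₀)) :=
    Real.rpow_le_rpow_of_nonpos (by norm_num) hn2 (by linarith)
  rw [h3]
  have h5 : 0 ≤ (nn x : ℝ) ^ (-σ₀) := by positivity
  calc ‖pw α x‖ / ‖((x.2 : ℂ) + 1)‖ * ((nn x : ℝ) ^ (-σ₀) * (nn x : ℝ) ^ (-(s.re - σ₀)))
      ≤ ‖pw α x‖ * ((nn x : ℝ) ^ (-σ₀) * (2 : ℝ) ^ (-(s.re - σ₀))) := by gcongr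
    _ = _ := by ring

/-- a Rankin-Selberg bound at `σ` -/
def RSb (α : Fin m → ℕ → ℂ) (σ B : ℝ) : Prop := Summable (rsT α σ) ∧ ∑' x, rsT α σ x ≤ B

lemma pw_summable {σ B : ℝ} (hσ : 1 < σ) (h : RSb α σ B) :
    Summable fun x => ‖pw α x‖ * (nn x : ℝ) ^ (-σ) := by
  refine Summable.of_nonneg_of_le (fun x => by positivity) (fun x => amgm (lam := 1) one_pos x) ?_
  exact ((h.1.mul_left 1).add ((sumZ hσ).mul_left _)).div_const 2

lemma pw_sum {σ B lam : ℝ} (hσ : 1 < σ) (h : RSb α σ B) (hl : 0 < lam) :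
    ∑' x, ‖pw α x‖ * (nn x : ℝ) ^ (-σ) ≤ (lam * B + 2 / lam * ∑' x, (nn x : ℝ) ^ (-σ)) / 2 := by
  have hs1 : Summable fun x => (lam * rsT α σ x + 2 / lam * (nn x : ℝ) ^ (-σ)) / 2 :=
    ((h.1.mul_left lam).add ((sumZ hσ).mul_left _)).div_const 2
  refine ((pw_summable hσ h).tsum_le_tsum (fun x => amgm hl x) hs1).trans ?_
  rw [tsum_div_const, (h.1.mul_left lam).tsum_add ((sumZ hσ).mul_left _), tsum_mul_left, tsum_mul_left]
  have := h.2
  gcongr

lemma lt_summable {σ B : ℝ} (hσ : 1 < σ) (h : RSb α σ B) {s : ℂ} (hs : σ ≤ s.re) :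
    Summable (lt α s) ∧ ‖LL α s‖ ≤ (∑' x, ‖pw α x‖ * (nn x : ℝ) ^ (-σ)) * (2 : ℝ) ^ (-(s.re - σ)) := by
  have h1 := (pw_summable hσ h).mul_right ((2 : ℝ) ^ (-(s.re - σ)))
  refine ⟨Summable.of_norm_bounded h1 (fun x => lt_norm hs x), ?_⟩
  rw [← tsum_mul_right]
  exact tsum_of_norm_bounded h1.hasSum fun x => lt_norm hs x

lemma LL_diff {σ B : ℝ} (hσ : 1 < σ) (h : RSb α σ B) :
    DifferentiableOn ℂ (LL α) {s : ℂ | σ < s.re} := by
  refine differentiableOn_tsum_of_summable_norm (u := fun x => ‖pw α x‖ * (nn x : ℝ) ^ (-σ))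
    (pw_summable hσ h) (fun x => ?_) (isOpen_lt continuous_const continuous_re) (fun x s hs => ?_)
  · have hn0 : (nn x : ℂ) ≠ 0 := by
      have := nn_two_le x
      exact_mod_cast (by omega : nn x ≠ 0)
    intro s _
    unfold lt
    refine DifferentiableAt.differentiableWithinAt ?_
    exact (((differentiable_neg s).const_cpow (Or.inl hn0)).const_mul _)
  · have hs' : σ < s.re := hs
    refine (lt_norm hs'.le x).trans ?_
    have h1 : (2 : ℝ) ^ (-(s.re - σ)) ≤ 1 :=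
      Real.rpow_le_one_of_one_le_of_nonpos (by norm_num) (by linarith)
    have h2 : 0 ≤ ‖pw α x‖ * (nn x : ℝ) ^ (-σ) := by positivity
    nlinarith

/-- the Euler product is the exponential -/
lemma exp_LL {σ B : ℝ} (hσ : 1 < σ) (h : RSb α σ B)
    (hα : ∀ j, ∀ p : ℕ, p.Prime → ‖α j p‖ ≤ Real.sqrt p) {s : ℂ} (hs : 3 / 2 < s.re)
    (hs2 : σ ≤ s.re) : H353.E.euler α s = cexp (LL α s) := by
  have hsum := (lt_summable hσ h hs2).1
  have hfib : ∀ p : Nat.Primes, HasSum (fun k => lt α s (p, k))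
      (∑ j, -log (1 - α j p * ((p : ℕ) : ℂ) ^ (-s))) := fun p => by
    have h1 : ∀ j, HasSum (fun k : ℕ => (α j p * ((p : ℕ) : ℂ) ^ (-s)) ^ (k + 1) / (k + 1))
        (-log (1 - α j p * ((p : ℕ) : ℂ) ^ (-s))) := fun j => by
      apply Complex.hasSum_taylorSeries_neg_log'
      have h2 := H353.E.term_le hα p j s
      have h3 := H353.E.x_le p hs
      linarith
    have h2 := hasSum_sum (s := Finset.univ) (fun j _ => h1 j)
    have e : (fun k : ℕ => ∑ j, (α j p * ((p : ℕ) : ℂ) ^ (-s)) ^ (k + 1) / (k + 1)) =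
        fun k => lt α s (p, k) := by
      funext k
      unfold lt pw nn
      simp only
      rw [← Finset.sum_div, Finset.sum_div, Finset.sum_div, Finset.sum_mul]
      refine Finset.sum_congr rfl fun j _ => ?_
      rw [mul_pow, Nat.cast_pow]
      have h3 : (((p : ℕ) : ℂ) ^ (k + 1)) ^ (-s) = (((p : ℕ) : ℂ) ^ (-s)) ^ (k + 1) := by
        rw [← Complex.natCast_cpow_natCast_mul, mul_comm, Complex.cpow_mul_nat]
      rw [h3]
      ring
    rw [e] at h2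
    exact h2
  have h1 := hsum.hasSum.prod_fiberwise hfib
  have h2 := h1.cexp
  have e : (cexp ∘ fun p : Nat.Primes => ∑ j, -log (1 - α j p * ((p : ℕ) : ℂ) ^ (-s))) =
      fun p : Nat.Primes => ∏ j, (1 - α j p * ((p : ℕ) : ℂ) ^ (-s))⁻¹ := by
    funext p
    simp only [Function.comp]
    rw [Complex.exp_sum]
    refine Finset.prod_congr rfl fun j _ => ?_
    have h3 : 1 - α j p * ((p : ℕ) : ℂ) ^ (-s) ≠ 0 :=
      (H353.E.fac_one (H353.E.term_le hα p j s) (H353.E.x_le p hs)).1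
    rw [Complex.exp_neg, Complex.exp_log h3]
  rw [e] at h2
  exact h2.tprod_eq

end Pool.Agent.J4H34.HF
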