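import Pool.Agent.J4H34.HF.H4
import Pool.Agent.J4H34.HF.H7
import Pool.Agent.J4H34.HF.H8
import Pool.Agent.H353R7.G5

/-!
The flow of an automorphic L-function: assembling the local theorem.
-/

set_option autoImplicit false

open Complex Set MeasureTheory Filter Topology
open scoped ComplexConjugate Nat

namespace Pool.Agent.J4H34.HF

open H353.E H353.F

/-- the analytic conductor at height `t` -/
noncomputable def cond {m : ℕ} (N : ℝ) (μ : Fin m → ℂ) (t : ℝ) : ℝ :=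
  N * ∏ j, (1 + ‖(t : ℂ) * I - μ j‖)

/-- analytic data of a cuspidal automorphic `L`-function with its Rankin-Selberg bound -/
structure DR {m : ℕ} (K N : ℝ) (μ : Fin m → ℂ) (α : Fin m → ℕ → ℂ) (ε : ℂ) (Λ : ℂ → ℂ) : Prop where
  dat : Datum N μ α ε Λ
  rs : ∀ σ : ℝ, 1 < σ → σ ≤ 2 → ∀ t : ℝ, RSb α σ (K * (1 / (σ - 1) + 1 + Real.log (cond N μ t)))

/-- `ξ(s) = N^(s/2) Λ(s)` -/
noncomputable def Xi (N : ℝ) (Λ : ℂ → ℂ) (s : ℂ) : ℂ := (N : ℂ) ^ (s / 2) * Λ s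

variable {m : ℕ} {K N : ℝ} {μ : Fin m → ℂ} {α : Fin m → ℕ → ℂ} {ε : ℂ} {Λ : ℂ → ℂ}

lemma cond_ge (hN : 1 ≤ N) (t : ℝ) : 1 ≤ cond N μ t := by
  unfold cond
  have h1 : 1 ≤ ∏ j, (1 + ‖(t : ℂ) * I - μ j‖) := by
    refine Finset.prod_induction _ (fun x => (1 : ℝ) ≤ x) (fun a b ha hb => ?_) le_rfl fun j _ => ?_
    · nlinarith
    · linarith [norm_nonneg ((t : ℂ) * I - μ j)]
  nlinarith

/-- lower bound for the real part of the logarithmic derivative of the gamma factor -/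
lemma gaD_re_ge (hN : 1 ≤ N) (hμ : ∀ j, (μ j).re ≤ 1 / 2) {s : ℂ} (hs : 1 ≤ s.re) :
    1 / 2 * Real.log (cond N μ s.im) - 5 * m ≤ (gaD N μ s).re := by
  have hN0 : 0 < N := by linarith
  have hp : ∀ j, 0 < 1 + ‖(s.im : ℂ) * I - μ j‖ := fun j => by positivity
  have hpp : 0 < ∏ j, (1 + ‖(s.im : ℂ) * I - μ j‖) := Finset.prod_pos fun j _ => hp j
  unfold cond
  rw [Real.log_mul hN0.ne' hpp.ne', Real.log_prod (fun j _ => (hp j).ne')]
  unfold gaD
  rw [add_re, ofReal_re, re_sum]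
  have h2 : ∀ j, 1 / 2 * Real.log (1 + ‖(s.im : ℂ) * I - μ j‖) - 5 ≤
      ((((-(Real.log Real.pi) / 2 : ℝ)) : ℂ) + logDeriv Gamma ((s - μ j) / 2) / 2).re := fun j => by
    obtain ⟨_, _, hz⟩ := zre (hμ j) hs
    set z : ℂ := (s - μ j) / 2 with hzdef
    have h3 := (Complex.abs_re_le_norm _).trans (dig_aux hz)
    rw [sub_re, Complex.log_re] at h3
    have h3' := (abs_le.mp h3).1
    have hlp := logpi
    have hzre : (z + 2).re = (s.re - (μ j).re + 4) / 2 := by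
      rw [hzdef, add_re, show (2 : ℂ) = ((2 : ℝ) : ℂ) by norm_num, Complex.div_ofReal_re, sub_re,
        ofReal_re]
      ring
    have hzim : (z + 2).im = (s.im - (μ j).im) / 2 := by
      rw [hzdef, add_im, show (2 : ℂ) = ((2 : ℝ) : ℂ) by norm_num, Complex.div_ofReal_im, sub_im,
        ofReal_im]
      ring
    have h4 : 1 + ‖(s.im : ℂ) * I - μ j‖ ≤ 4 * ‖z + 2‖ := by
      have h5 : ‖(s.im : ℂ) * I - μ j‖ ≤ |(μ j).re| + |s.im - (μ j).im| := by
        refine (Complex.norm_le_abs_re_add_abs_im _).trans (le_of_eq ?_)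
        simp
      have h6 : 1 + |(μ j).re| ≤ 2 * (z + 2).re := by
        rw [hzre]
        rcases le_total (μ j).re 0 with h | h
        · rw [abs_of_nonpos h]
          linarith
        · rw [abs_of_nonneg h]
          linarith [hμ j]
      have h7 : |s.im - (μ j).im| = 2 * |(z + 2).im| := by
        rw [hzim, abs_div, abs_two]
        ring
      have h8 := re_le_norm (z + 2)
      have h9 := Complex.abs_im_le_norm (z + 2)
      linarith
    have h5 : Real.log (1 + ‖(s.im : ℂ) * I - μ j‖) ≤ Real.log 4 + Real.log ‖z + 2‖ := by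
      have h6 : 0 < ‖z + 2‖ := by
        have := hp j
        linarith
      rw [← Real.log_mul (by norm_num) h6.ne']
      exact Real.log_le_log (hp j) h4
    have h6 : Real.log 4 ≤ 14 / 10 := by
      have : Real.log 4 = 2 * Real.log 2 := by
        rw [show (4 : ℝ) = 2 ^ 2 by norm_num, Real.log_pow]
        norm_num
      rw [this]
      linarith [Real.log_two_lt_d9]
    have e2 : ((((-(Real.log Real.pi) / 2 : ℝ)) : ℂ) + logDeriv Gamma z / 2).re =
        -(Real.log Real.pi) / 2 + (logDeriv Gamma z).re / 2 := by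
      rw [add_re, ofReal_re, show (2 : ℂ) = ((2 : ℝ) : ℂ) by norm_num, Complex.div_ofReal_re]
    rw [e2]
    linarith
  have h3 := Finset.sum_le_sum (s := (Finset.univ : Finset (Fin m))) fun j _ => h2 j
  rw [Finset.sum_sub_distrib, ← Finset.mul_sum, Finset.sum_const, Finset.card_univ, Fintype.card_fin,
    nsmul_eq_mul] at h3
  linarith

lemma grc_of_E {F : ℂ → ℂ} (h : ∃ E : ℝ → ℝ, Monotone E ∧
    Tendsto (fun ρ => E ρ / ρ ^ 2) atTop (𝓝 0) ∧ ∀ s, ‖F s‖ ≤ Real.exp (E ‖s‖)) : GrC F := by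
  obtain ⟨E, hE, hEt, hb⟩ := h
  intro e he
  have h1 := (hEt.eventually (eventually_le_nhds he)).and (eventually_gt_atTop 0)
  obtain ⟨ρ₀, hρ₀⟩ := eventually_atTop.mp h1
  refine ⟨Real.exp (max 0 (E ρ₀)), (Real.exp_pos _).le, fun s => (hb s).trans ?_⟩
  rw [← Real.exp_add]
  apply Real.exp_le_exp.mpr
  rcases le_total ρ₀ ‖s‖ with h2 | h2
  · obtain ⟨h3, h4⟩ := hρ₀ _ h2
    rw [div_le_iff₀ (by positivity)] at h3
    have := le_max_left 0 (E ρ₀)
    linarith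
  · have h3 := hE h2
    have h4 := le_max_right 0 (E ρ₀)
    have : 0 ≤ e * ‖s‖ ^ 2 := by positivity
    linarith

/-- the basic properties -/
lemma basic (hm : 1 ≤ m) (d : Datum N μ α ε Λ) : Differentiable ℂ (Xi N Λ) ∧
    (∀ s, Xi N Λ s = ε * conj (Xi N Λ (1 - conj s))) ∧
    (∃ M, ∀ z : ℂ, -3 ≤ z.re → z.re ≤ 4 → ‖Xi N Λ z‖ ≤ Real.exp (M * (1 + |z.im|))) ∧
    (∀ z : ℂ, 3 / 2 < z.re → Xi N Λ z = gaf N μ z * euler α z) ∧ GrC (Xi N Λ) := by
  have hm' : (1 : ℝ) ≤ m := by exact_mod_cast hm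
  obtain ⟨B1, hB1, hBc⟩ := euler_close m
  have hN := d.one_le
  have hN0 : 0 < N := by linarith
  have hNc : (N : ℂ) ≠ 0 := by exact_mod_cast hN0.ne'
  set X : ℂ → ℂ := Xi N Λ with hX
  have gp := gaf_GP hm hN d.re_le
  have hXd : Differentiable ℂ X := by
    refine Differentiable.mul (fun z => ?_) d.entire
    exact (((hasDerivAt_id z).div_const 2).const_cpow (c := (N : ℂ)) (Or.inl hNc)).differentiableAt
  have hXe : ∀ z : ℂ, 3 / 2 < z.re → X z = gaf N μ z * euler α z := fun z hz => by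
    simp only [hX, gaf, Xi]
    rw [d.euler z hz, mul_assoc]
    rfl
  have hclose : ∀ z : ℂ, 4 ≤ z.re → ‖X z - gaf N μ z‖ ≤ B1 * (1 / 2 : ℝ) ^ z.re * ‖gaf N μ z‖ :=
    fun z hz => by
      have e : X z - gaf N μ z = (euler α z - 1) * gaf N μ z := by
        rw [hXe z (by linarith)]
        ring
      rw [e, norm_mul]
      exact mul_le_mul_of_nonneg_right (hBc α d.norm_le z hz) (norm_nonneg _)
  have hfe : ∀ z : ℂ, X z = ε * conj (X (1 - conj z)) := fun z => by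
    simp only [hX, Xi]
    rw [map_mul, conj_cpow_real hN0]
    have e1 : conj ((1 - conj z) / 2) = (1 - z) / 2 := by
      rw [map_div₀, map_sub, Complex.conj_conj, map_one, map_ofNat]
    have e2 : (N : ℂ) ^ (z / 2) * (N : ℂ) ^ (1 / 2 - z) = (N : ℂ) ^ ((1 - z) / 2) := by
      rw [← cpow_add _ _ hNc]
      congr 1
      ring
    rw [e1, d.fe z, ← e2]
    ring
  have hbdd : ∃ M, ∀ z : ℂ, -3 ≤ z.re → z.re ≤ 4 → ‖X z‖ ≤ Real.exp (M * (1 + |z.im|)) := by
    obtain ⟨M, hM⟩ := d.bdd (-3) 4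
    refine ⟨Real.log (N ^ (2 : ℝ)) + M, fun z h1 h2 => ?_⟩
    simp only [hX, Xi]
    rw [norm_mul, Complex.norm_cpow_eq_rpow_re_of_pos hN0]
    have e : (z / 2).re = z.re / 2 := by
      rw [show (2 : ℂ) = ((2 : ℝ) : ℂ) by norm_num, Complex.div_ofReal_re]
    rw [e]
    have h3 : N ^ (z.re / 2) ≤ N ^ (2 : ℝ) := Real.rpow_le_rpow_of_exponent_le hN (by linarith)
    have h4 := hM z h1 h2
    have h5 : 0 < N ^ (2 : ℝ) := Real.rpow_pos_of_pos hN0 _
    have h6 : 1 ≤ N ^ (2 : ℝ) := Real.one_le_rpow hN (by norm_num)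
    refine (mul_le_mul h3 h4 (norm_nonneg _) h5.le).trans ?_
    rw [add_mul, Real.exp_add]
    refine mul_le_mul_of_nonneg_right ?_ (Real.exp_pos _).le
    have h7 := Real.log_nonneg h6
    have h8 := abs_nonneg z.im
    calc N ^ (2 : ℝ) = Real.exp (Real.log (N ^ (2 : ℝ))) := (Real.exp_log h5).symm
      _ ≤ Real.exp (Real.log (N ^ (2 : ℝ)) * (1 + |z.im|)) := by
        apply Real.exp_le_exp.mpr
        nlinarith
  have L : LD (6 * m) ((1 + B1) * Real.exp (6 * m * 7)) (fun K => 4 * Real.exp (2 * |K| + 10)) X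
      (gaf N μ) (gaD N μ) :=
    LD_of gp (by linarith) hB1 hXd hclose ⟨ε, d.norm_eq, hfe⟩ hbdd
  have hcond1 : 1 ≤ N * ∏ j, (1 + ‖μ j‖) := by
    have h1 : 1 ≤ ∏ j, (1 + ‖μ j‖) := by
      refine Finset.prod_induction _ (fun x => (1 : ℝ) ≤ x) (fun a b ha hb => ?_) le_rfl fun j _ => ?_
      · nlinarith
      · linarith [norm_nonneg (μ j)]
    nlinarith
  have hslow := slow_of L (a := Real.log (N * ∏ j, (1 + ‖μ j‖)) + 7 * m) (k := m) (by
      have := Real.log_nonneg hcond1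
      linarith) (by linarith) (fun z hz => by
      have := gaD_norm hN d.re_le hz
      linarith)
  exact ⟨hXd, hfe, hbdd, hXe, grc_of_E hslow⟩

/-- the logarithm on `Re s > 1` -/
lemma xi_eq (hm : 1 ≤ m) (d : DR K N μ α ε Λ) : DifferentiableOn ℂ (LL α) {s : ℂ | 1 < s.re} ∧
    ∀ z : ℂ, 1 < z.re → Xi N Λ z = gaf N μ z * cexp (LL α z) := by
  obtain ⟨hXd, hfe, hbdd, hXe, hgr⟩ := basic hm d.dat
  have hN := d.dat.one_le
  have hU : IsOpen {s : ℂ | 1 < s.re} := isOpen_lt continuous_const continuous_re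
  have hLd : DifferentiableOn ℂ (LL α) {s : ℂ | 1 < s.re} := by
    intro z hz
    have hz' : 1 < z.re := hz
    set σ : ℝ := (1 + min z.re 3) / 2 with hσ
    have h1 : 1 < min z.re 3 := lt_min hz' (by norm_num)
    have h2 : min z.re 3 ≤ z.re := min_le_left _ _
    have h3 : min z.re 3 ≤ 3 := min_le_right _ _
    have hσ1 : 1 < σ := by linarith
    have hd := LL_diff hσ1 (d.rs σ hσ1 (by linarith) 0)
    have hσz : σ < z.re := by linarith
    exact (hd.differentiableAt ((isOpen_lt continuous_const continuous_re).mem_nhds hσz)).differentiableWithinAt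
  refine ⟨hLd, fun z hz => ?_⟩
  have hgd : DifferentiableOn ℂ (fun z => gaf N μ z * cexp (LL α z)) {s : ℂ | 1 < s.re} := by
    intro w hw
    have hw' : 1 < w.re := hw
    have h1 : DifferentiableAt ℂ (gaf N μ) w := ((gaf_GP hm hN d.dat.re_le).der w hw'.le).differentiableAt
    have h2 := (hLd.differentiableAt (hU.mem_nhds hw)).cexp
    exact (h1.mul h2).differentiableWithinAt
  have hA1 : AnalyticOnNhd ℂ (Xi N Λ) {s : ℂ | 1 < s.re} := fun x _ => hXd.analyticAt x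
  have hA2 := hgd.analyticOnNhd hU
  have hev : Xi N Λ =ᶠ[𝓝 (2 : ℂ)] fun z => gaf N μ z * cexp (LL α z) := by
    have hmem : {z : ℂ | 3 / 2 < z.re} ∈ 𝓝 (2 : ℂ) :=
      (isOpen_lt continuous_const continuous_re).mem_nhds (by
        show (3 : ℝ) / 2 < (2 : ℂ).re
        norm_num)
    filter_upwards [hmem] with w hw
    have hw' : 3 / 2 < w.re := hw
    rw [hXe w hw', exp_LL (σ := 3 / 2) (by norm_num) (d.rs (3 / 2) (by norm_num) (by norm_num) 0)
      d.dat.norm_le hw' hw'.le]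
  exact hA1.eqOn_of_preconnected_of_eventuallyEq hA2 (convex_halfSpace_re_gt 1).isPreconnected
    (by show (1 : ℝ) < (2 : ℂ).re; norm_num) hev hz

/-- Cauchy's estimate for a function with exponential decay to the right -/
lemma cauchy_dec {f : ℂ → ℂ} {σ₁ σ₀ B ρ : ℝ} (hd : DifferentiableOn ℂ f {s | σ₁ < s.re})
    (hb : ∀ s : ℂ, σ₁ < s.re → ‖f s‖ ≤ B * (2 : ℝ) ^ (-(s.re - σ₀))) (hρ : 0 < ρ) (hρ1 : ρ ≤ 1)
    (hB : 0 ≤ B) {s : ℂ} (hs : σ₁ + ρ < s.re) : ‖deriv f s‖ ≤ (2 * B / ρ) * (2 : ℝ) ^ (-(s.re - σ₀)) := by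
  have hin : ∀ w ∈ Metric.closedBall s ρ, σ₁ < w.re ∧ s.re - ρ ≤ w.re := fun w hw => by
    rw [Metric.mem_closedBall, dist_eq_norm] at hw
    have := (abs_le.mp ((Complex.abs_re_le_norm _).trans hw)).1
    rw [sub_re] at this
    constructor <;> linarith
  have hopen : IsOpen {s : ℂ | σ₁ < s.re} := isOpen_lt continuous_const continuous_re
  have h1 := Complex.norm_deriv_le_of_forall_mem_sphere_norm_le (c := s) (R := ρ)
    (C := 2 * B * (2 : ℝ) ^ (-(s.re - σ₀))) (f := f) hρ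
    ⟨fun w hw => (hd.differentiableAt (hopen.mem_nhds (hin w (Metric.ball_subset_closedBall hw)).1)).differentiableWithinAt,
      fun w hw => (hd.differentiableAt (hopen.mem_nhds (hin w (Metric.closure_ball_subset_closedBall hw)).1)).continuousAt.continuousWithinAt⟩
    (fun w hw => ?_)
  · refine h1.trans (le_of_eq ?_)
    ring
  · have h2 := hin w (Metric.sphere_subset_closedBall hw)
    refine (hb w h2.1).trans ?_
    have h3 : (2 : ℝ) ^ (-(w.re - σ₀)) ≤ 2 * (2 : ℝ) ^ (-(s.re - σ₀)) := by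
      calc (2 : ℝ) ^ (-(w.re - σ₀)) ≤ (2 : ℝ) ^ (1 + -(s.re - σ₀)) := by
            apply Real.rpow_le_rpow_of_exponent_le (by norm_num)
            linarith
        _ = _ := by rw [Real.rpow_add (by norm_num), Real.rpow_one]
    calc B * (2 : ℝ) ^ (-(w.re - σ₀)) ≤ B * (2 * (2 : ℝ) ^ (-(s.re - σ₀))) := by gcongr
      _ = _ := by ring

lemma two_pow_le {v η₂ : ℝ} (hv : 0 ≤ v) (hη : η₂ ≤ 1 / 2) :
    (2 : ℝ) ^ (-(1 / 2 + v - (1 + η₂))) ≤ 2 * Real.exp (-(v / 2)) := by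
  have e : (-(1 / 2 + v - (1 + η₂)) : ℝ) = (1 / 2 + η₂) + -v := by ring
  rw [e, Real.rpow_add (by norm_num)]
  have h1 : (2 : ℝ) ^ (1 / 2 + η₂) ≤ 2 := by
    calc (2 : ℝ) ^ (1 / 2 + η₂) ≤ (2 : ℝ) ^ (1 : ℝ) :=
          Real.rpow_le_rpow_of_exponent_le (by norm_num) (by linarith)
      _ = 2 := Real.rpow_one 2
  have h2 : (2 : ℝ) ^ (-v) ≤ Real.exp (-(v / 2)) := by
    rw [Real.rpow_def_of_pos (by norm_num)]
    apply Real.exp_le_exp.mpr
    have := Real.log_two_gt_d9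
    nlinarith
  have h3 : 0 ≤ (2 : ℝ) ^ (-v) := by positivity
  gcongr

/-- the constant in the bound for the logarithm -/
lemma LL_bound (hK : 0 ≤ K) {η₂ : ℝ} (hη : 0 < η₂) (hη1 : η₂ ≤ 1) : ∃ A₀ : ℝ, 0 ≤ A₀ ∧
    ∀ (m : ℕ) (N : ℝ) (μ : Fin m → ℂ) (α : Fin m → ℕ → ℂ) (ε : ℂ) (Λ : ℂ → ℂ), DR K N μ α ε Λ →
    ∀ (t : ℝ) (s : ℂ), 1 + η₂ ≤ s.re → ‖LL α s‖ ≤
      A₀ * Real.sqrt (1 + Real.log (cond N μ t)) * (2 : ℝ) ^ (-(s.re - (1 + η₂))) := by
  set Z : ℝ := ∑' x, (nn x : ℝ) ^ (-(1 + η₂)) with hZ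
  have hZ0 : 0 ≤ Z := tsum_nonneg fun x => by positivity
  refine ⟨(K * (1 / η₂ + 1) + 2 * Z) / 2, by positivity, fun m N μ α ε Λ d t s hs => ?_⟩
  have hσ : 1 < 1 + η₂ := by linarith
  set ℓ := Real.log (cond N μ t) with hℓ
  have hℓ0 : 0 ≤ ℓ := Real.log_nonneg (cond_ge d.dat.one_le t)
  have hrs := d.rs (1 + η₂) hσ (by linarith) t
  rw [← hℓ, add_sub_cancel_left] at hrs
  set q := Real.sqrt (1 + ℓ) with hq
  have hq0 : 0 < q := Real.sqrt_pos.mpr (by linarith)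
  have hq2 : q * q = 1 + ℓ := Real.mul_self_sqrt (by linarith)
  have h1 := pw_sum hσ hrs (lam := 1 / q) (by positivity)
  have h2 := (lt_summable hσ hrs hs).2
  refine h2.trans ?_
  refine mul_le_mul_of_nonneg_right ?_ (by positivity)
  refine h1.trans ?_
  rw [← hZ]
  have h3 : 1 / η₂ + 1 + ℓ ≤ (1 / η₂ + 1) * (1 + ℓ) := by
    have : 0 ≤ 1 / η₂ * ℓ := by positivity
    nlinarith
  have h4 : 1 / q * (K * (1 / η₂ + 1 + ℓ)) ≤ K * (1 / η₂ + 1) * q := by
    calc 1 / q * (K * (1 / η₂ + 1 + ℓ)) ≤ 1 / q * (K * ((1 / η₂ + 1) * (1 + ℓ))) := by gcongr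
      _ = 1 / q * (K * ((1 / η₂ + 1) * (q * q))) := by rw [hq2]
      _ = _ := by field_simp
  have h5 : 2 / (1 / q) * Z = 2 * Z * q := by
    field_simp
  rw [h5]
  linarith

end Pool.Agent.J4H34.HF
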