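import Pool.Agent.J4H34.HF.H9

/-!
The flow of an automorphic L-function: zeros at height `t` when `τ log C(π, t)` exceeds 1.
-/

set_option autoImplicit false

open Complex Set MeasureTheory Filter Topology
open scoped ComplexConjugate Nat

namespace Pool.Agent.J4H34.HF

open H353.E H353.F

/-- the local data -/
lemma exists_HL (m : ℕ) (hm : 1 ≤ m) {K : ℝ} (hK : 0 ≤ K) {η : ℝ} (hη : 0 < η) (hη1 : η ≤ 1) :
    ∃ A : ℝ, 0 ≤ A ∧ ∀ (N : ℝ) (μ : Fin m → ℂ) (α : Fin m → ℕ → ℂ) (ε : ℂ) (Λ : ℂ → ℂ),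
    DR K N μ α ε Λ → ∀ t ℓ : ℝ, ℓ = Real.log (cond N μ t) → 1 ≤ ℓ →
      6 * m + A * Real.sqrt ℓ ≤ ℓ / 2 →
      ∃ p : ℝ → ℂ, HL (fun v : ℝ => Xi N Λ (1 / 2 + t * I + v)) p (1 / 2 + η / 100) (6 * m)
        (A * Real.sqrt ℓ) (ℓ / 2 - 6 * m - A * Real.sqrt ℓ) := by
  set η₂ : ℝ := η / 400 with hη₂
  have hη₂0 : 0 < η₂ := by positivity
  have hη₂1 : η₂ ≤ 1 / 400 := by linarith
  obtain ⟨A₀, hA₀, hLL⟩ := LL_bound hK hη₂0 (by linarith)
  set A₁ : ℝ := 2 * A₀ with hA₁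
  set C : ℝ := 6 * m with hC
  have hm' : (1 : ℝ) ≤ m := by exact_mod_cast hm
  have hC1 : 1 ≤ C := by rw [hC]; linarith
  set A : ℝ := 2 * A₁ + 4 * A₁ / η₂ + 8 * A₁ / η₂ ^ 2 + (C ^ 2 / 4 + 64) with hA
  have hA₁0 : 0 ≤ A₁ := by positivity
  have hA0 : 0 ≤ A := by positivity
  refine ⟨A, hA0, fun N μ α ε Λ d t ℓ hℓ hℓ1 hbig => ?_⟩
  obtain ⟨hXd, hfe, hbdd, hXe, hgr⟩ := basic hm d.dat
  obtain ⟨hLd, hxi⟩ := xi_eq hm d
  have hN := d.dat.one_le
  have gp := gaf_GP hm hN d.dat.re_le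
  set X := Xi N Λ with hX
  set c : ℂ := 1 / 2 + t * I with hc
  have hcre : c.re = 1 / 2 := by simp [hc]
  have hcim : c.im = t := by simp [hc]
  have hcv : ∀ v : ℝ, (c + v).re = 1 / 2 + v := fun v => by rw [add_re, hcre, ofReal_re]
  have hcvi : ∀ v : ℝ, (c + v).im = t := fun v => by rw [add_im, hcim, ofReal_im, add_zero]
  have hsq : Real.sqrt (1 + ℓ) ≤ 2 * Real.sqrt ℓ := by
    apply Real.sqrt_le_iff.mpr
    refine ⟨by positivity, ?_⟩
    rw [mul_pow, Real.sq_sqrt (by linarith)]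
    linarith
  have hsq1 : 1 ≤ Real.sqrt ℓ := Real.one_le_sqrt.mpr hℓ1
  set B₀ : ℝ := A₁ * Real.sqrt ℓ with hB₀
  have hB₀0 : 0 ≤ B₀ := by positivity
  set Q : ℝ := A * Real.sqrt ℓ with hQ
  have hU : IsOpen {s : ℂ | 1 < s.re} := isOpen_lt continuous_const continuous_re
  -- the logarithm and its derivatives
  have hL0 : ∀ s : ℂ, 1 + η₂ < s.re → ‖LL α s‖ ≤ B₀ * (2 : ℝ) ^ (-(s.re - (1 + η₂))) := fun s hs => by
    refine (hLL m N μ α ε Λ d t s hs.le).trans ?_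
    refine mul_le_mul_of_nonneg_right ?_ (by positivity)
    rw [← hℓ]
    calc A₀ * Real.sqrt (1 + ℓ) ≤ A₀ * (2 * Real.sqrt ℓ) := by gcongr
      _ = B₀ := by rw [hB₀, hA₁]; ring
  have hLd1 : DifferentiableOn ℂ (LL α) {s : ℂ | 1 + η₂ < s.re} := hLd.mono fun s hs => by
    have : 1 + η₂ < s.re := hs
    show 1 < s.re
    linarith
  have hL1 : ∀ s : ℂ, 1 + η₂ + η₂ < s.re →
      ‖deriv (LL α) s‖ ≤ (2 * B₀ / η₂) * (2 : ℝ) ^ (-(s.re - (1 + η₂))) := fun s hs =>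
    cauchy_dec hLd1 hL0 hη₂0 (by linarith) hB₀0 hs
  have hLd2 : DifferentiableOn ℂ (deriv (LL α)) {s : ℂ | 1 + η₂ + η₂ < s.re} := by
    refine (hLd1.deriv (isOpen_lt continuous_const continuous_re)).mono fun s hs => ?_
    have : 1 + η₂ + η₂ < s.re := hs
    show 1 + η₂ < s.re
    linarith
  have hL2 : ∀ s : ℂ, 1 + η₂ + η₂ + η₂ < s.re →
      ‖deriv (deriv (LL α)) s‖ ≤ (2 * (2 * B₀ / η₂) / η₂) * (2 : ℝ) ^ (-(s.re - (1 + η₂))) :=
    fun s hs => cauchy_dec hLd2 hL1 hη₂0 (by linarith) (by positivity) hs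
  -- on the line
  have ha : ∀ v : ℝ, 1 / 2 + η / 100 ≤ v → 1 + η₂ + η₂ + η₂ < (c + v).re := fun v hv => by
    rw [hcv, hη₂]
    linarith
  have hdec : ∀ v : ℝ, 1 / 2 + η / 100 ≤ v →
      (2 : ℝ) ^ (-((c + v).re - (1 + η₂))) ≤ 2 * Real.exp (-(v / 2)) := fun v hv => by
    rw [hcv]
    exact two_pow_le (by linarith) (by linarith)
  have hA1Q : 4 * B₀ / η₂ ≤ Q := by
    rw [hQ, hA, hB₀]
    have e : 4 * (A₁ * Real.sqrt ℓ) / η₂ = 4 * A₁ / η₂ * Real.sqrt ℓ := by ring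
    rw [e]
    refine mul_le_mul_of_nonneg_right ?_ (by positivity)
    have h1 : 0 ≤ 8 * A₁ / η₂ ^ 2 := by positivity
    have h2 : 0 ≤ C ^ 2 / 4 + 64 := by positivity
    linarith
  have hA2Q : 8 * B₀ / η₂ ^ 2 ≤ Q := by
    rw [hQ, hA, hB₀]
    have e : 8 * (A₁ * Real.sqrt ℓ) / η₂ ^ 2 = 8 * A₁ / η₂ ^ 2 * Real.sqrt ℓ := by ring
    rw [e]
    refine mul_le_mul_of_nonneg_right ?_ (by positivity)
    have h1 : 0 ≤ 4 * A₁ / η₂ := by positivity
    have h2 : 0 ≤ C ^ 2 / 4 + 64 := by positivity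
    linarith
  have hA3Q : 2 * B₀ + (C ^ 2 / 4 + 64) ≤ Q := by
    rw [hQ, hA, hB₀]
    have h1 : 0 ≤ 4 * A₁ / η₂ := by positivity
    have h3 : 0 ≤ 8 * A₁ / η₂ ^ 2 := by positivity
    have h2 : 0 ≤ C ^ 2 / 4 + 64 := by positivity
    have e : (2 * A₁ + 4 * A₁ / η₂ + 8 * A₁ / η₂ ^ 2 + (C ^ 2 / 4 + 64)) * Real.sqrt ℓ =
        2 * (A₁ * Real.sqrt ℓ) + (4 * A₁ / η₂) * Real.sqrt ℓ + (8 * A₁ / η₂ ^ 2) * Real.sqrt ℓ +
        (C ^ 2 / 4 + 64) * Real.sqrt ℓ := by ring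
    rw [e]
    have h4 : (C ^ 2 / 4 + 64) * 1 ≤ (C ^ 2 / 4 + 64) * Real.sqrt ℓ := by gcongr
    have h5 : 0 ≤ (4 * A₁ / η₂) * Real.sqrt ℓ := by positivity
    have h6 : 0 ≤ (8 * A₁ / η₂ ^ 2) * Real.sqrt ℓ := by positivity
    linarith
  have hd1 : ∀ v : ℝ, 1 / 2 + η / 100 ≤ v → ‖deriv (LL α) (c + v)‖ ≤ Q * Real.exp (-(v / 2)) :=
    fun v hv => by
      have h1 := hL1 (c + v) (by linarith [ha v hv])
      have h2 := hdec v hv
      calc ‖deriv (LL α) (c + v)‖ ≤ (2 * B₀ / η₂) * (2 * Real.exp (-(v / 2))) := by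
            refine h1.trans ?_
            gcongr
        _ = 4 * B₀ / η₂ * Real.exp (-(v / 2)) := by ring
        _ ≤ Q * Real.exp (-(v / 2)) := by gcongr
  have hd2 : ∀ v : ℝ, 1 / 2 + η / 100 ≤ v →
      ‖deriv (deriv (LL α)) (c + v)‖ ≤ Q * Real.exp (-(v / 2)) := fun v hv => by
    have h1 := hL2 (c + v) (ha v hv)
    have h2 := hdec v hv
    calc ‖deriv (deriv (LL α)) (c + v)‖ ≤ (2 * (2 * B₀ / η₂) / η₂) * (2 * Real.exp (-(v / 2))) := by
          refine h1.trans ?_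
          gcongr
      _ = 8 * B₀ / η₂ ^ 2 * Real.exp (-(v / 2)) := by
          field_simp
          ring
      _ ≤ Q * Real.exp (-(v / 2)) := by gcongr
  -- derivative along the line
  have hline : ∀ {F : ℂ → ℂ} {D : ℂ} {v : ℝ}, HasDerivAt F D (c + v) →
      HasDerivAt (fun v : ℝ => F (c + v)) D v := fun {F D v} h =>
    (HasDerivAt.comp_const_add c (v : ℂ) h).comp_ofReal
  have hXder : ∀ z : ℂ, 1 < z.re → HasDerivAt X (X z * (gaD N μ z + deriv (LL α) z)) z := fun z hz => by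
    have h1 := gp.der z hz.le
    have h2 := (hLd.differentiableAt (hU.mem_nhds hz)).hasDerivAt.cexp
    have h3 := h1.mul h2
    have hev : X =ᶠ[𝓝 z] fun z => gaf N μ z * cexp (LL α z) := by
      filter_upwards [hU.mem_nhds hz] with w hw
      exact hxi w hw
    refine (h3.congr_of_eventuallyEq hev).congr_deriv ?_
    rw [hxi z hz]
    ring
  have hnorm1 : ∀ z : ℂ, 1 + η₂ < z.re → ‖LL α z‖ ≤ B₀ := fun z hz => by
    refine (hL0 z hz).trans ?_
    have h1 : (2 : ℝ) ^ (-(z.re - (1 + η₂))) ≤ 1 :=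
      Real.rpow_le_one_of_one_le_of_nonpos (by norm_num) (by linarith)
    nlinarith
  refine ⟨fun v => gaD N μ (c + v) + deriv (LL α) (c + v), ?_⟩
  refine
    { cont := hXd.continuous.comp (by fun_prop)
      grow := fun e he => ?_
      der := fun v hv => ?_
      ne := fun v hv => ?_
      dp := fun v hv => ?_
      im := fun v hv => ?_
      re := fun v hv => ?_
      left := fun v hv0 hv => ?_
      ha := by linarith
      hC := by linarith
      hQ := by positivity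
      hq := by linarith }
  · obtain ⟨K', hK'0, hK'⟩ := grc_shift hgr c e he
    refine ⟨K', fun v => ?_⟩
    have h1 := hK' (v : ℂ)
    rwa [Complex.norm_real, Real.norm_eq_abs, sq_abs] at h1
  · exact hline (hXder (c + v) (by linarith [ha v hv]))
  · show X (c + v) ≠ 0
    rw [hxi (c + v) (by linarith [ha v hv])]
    exact mul_ne_zero (gp.ne _ (by linarith [ha v hv])) (Complex.exp_ne_zero _)
  · obtain ⟨dd, hdd1, hdd2⟩ := gp.dD (c + v) (by linarith [ha v hv])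
    have h2 : HasDerivAt (deriv (LL α)) (deriv (deriv (LL α)) (c + v)) (c + v) := by
      refine (hLd2.differentiableAt ?_).hasDerivAt
      refine (isOpen_lt continuous_const continuous_re).mem_nhds ?_
      show 1 + η₂ + η₂ < (c + v).re
      linarith [ha v hv]
    refine ⟨dd + deriv (deriv (LL α)) (c + v), hline (hdd1.add h2), ?_⟩
    refine (norm_add_le _ _).trans (add_le_add (hdd2.trans ?_) (hd2 v hv))
    rw [hcv]
    apply div_le_div_of_nonneg_left (by linarith) (by linarith)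
    linarith
  · rw [add_im]
    refine (abs_add_le _ _).trans (add_le_add (gp.im _ (by linarith [ha v hv])) ?_)
    exact (Complex.abs_im_le_norm _).trans (hd1 v hv)
  · rw [add_re]
    have h1 := gaD_re_ge hN d.dat.re_le (s := c + v) (by linarith [ha v hv])
    rw [hcvi, ← hℓ] at h1
    have h2 := (abs_le.mp ((Complex.abs_re_le_norm _).trans (hd1 v hv))).1
    have h3 : Q * Real.exp (-(v / 2)) ≤ Q * 1 := by
      have : Real.exp (-(v / 2)) ≤ 1 := by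
        rw [Real.exp_le_one_iff]
        linarith
      have : 0 ≤ Q := by positivity
      gcongr
    have h4 : 5 * (m : ℝ) ≤ C := by rw [hC]; linarith
    linarith
  · -- the convexity bound in the strip
    set σ : ℝ := 1 + η / 100 with hσ
    have hB : 1 ≤ Real.exp B₀ := Real.one_le_exp hB₀0
    have hclose : ∀ s : ℂ, σ ≤ s.re → ‖X s‖ ≤ Real.exp B₀ * ‖gaf N μ s‖ := fun s hs => by
      have hs1 : 1 + η₂ < s.re := by rw [hη₂]; linarith
      rw [hxi s (by linarith), norm_mul, mul_comm]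
      refine mul_le_mul_of_nonneg_right ?_ (norm_nonneg _)
      rw [Complex.norm_exp]
      apply Real.exp_le_exp.mpr
      exact (re_le_norm _).trans (hnorm1 s hs1)
    have h1 := strip_sharp gp hC1 hB (by linarith) (by linarith) hXd hclose ⟨ε, d.dat.norm_eq, hfe⟩
      hbdd (s := c + v) (by rw [hcv]; linarith) (by rw [hcv]; linarith)
    rw [hcvi] at h1
    have e1 : (σ : ℂ) + t * I = c + ((1 / 2 + η / 100 : ℝ) : ℂ) := by
      rw [hσ, hc]
      push_cast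
      ring
    rw [e1] at h1
    have hs1 : 1 + η₂ < (c + ((1 / 2 + η / 100 : ℝ) : ℂ)).re := by
      linarith [ha (1 / 2 + η / 100) le_rfl]
    have h2 : ‖gaf N μ (c + ((1 / 2 + η / 100 : ℝ) : ℂ))‖ ≤
        Real.exp B₀ * ‖X (c + ((1 / 2 + η / 100 : ℝ) : ℂ))‖ := by
      rw [hxi _ (by linarith), norm_mul, Complex.norm_exp]
      have h3 := (abs_le.mp ((Complex.abs_re_le_norm _).trans (hnorm1 _ hs1))).1
      have h4 : 1 ≤ Real.exp B₀ * Real.exp (LL α (c + ((1 / 2 + η / 100 : ℝ) : ℂ))).re := by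
        rw [← Real.exp_add]
        exact Real.one_le_exp (by linarith)
      have h5 := norm_nonneg (gaf N μ (c + ((1 / 2 + η / 100 : ℝ) : ℂ)))
      calc ‖gaf N μ (c + ((1 / 2 + η / 100 : ℝ) : ℂ))‖ = ‖gaf N μ (c + ((1 / 2 + η / 100 : ℝ) : ℂ))‖ * 1 :=
            (mul_one _).symm
        _ ≤ ‖gaf N μ (c + ((1 / 2 + η / 100 : ℝ) : ℂ))‖ *
            (Real.exp B₀ * Real.exp (LL α (c + ((1 / 2 + η / 100 : ℝ) : ℂ))).re) := by gcongr
        _ = _ := by ring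
    calc ‖X (c + v)‖ ≤ Real.exp B₀ * Real.exp (C ^ 2 / 4 + 64) *
          (Real.exp B₀ * ‖X (c + ((1 / 2 + η / 100 : ℝ) : ℂ))‖) := by
          refine h1.trans ?_
          gcongr
      _ = Real.exp (2 * B₀ + (C ^ 2 / 4 + 64)) * ‖X (c + ((1 / 2 + η / 100 : ℝ) : ℂ))‖ := by
          have e2 : Real.exp (2 * B₀ + (C ^ 2 / 4 + 64)) =
              Real.exp B₀ * Real.exp (C ^ 2 / 4 + 64) * Real.exp B₀ := by
            rw [← Real.exp_add, ← Real.exp_add]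
            congr 1
            ring
          rw [e2]
          ring
      _ ≤ Real.exp Q * ‖X (c + ((1 / 2 + η / 100 : ℝ) : ℂ))‖ := by gcongr

/-- the local theorem for the flow -/
theorem flow_local (m : ℕ) (hm : 1 ≤ m) {K : ℝ} (hK : 0 ≤ K) {η : ℝ} (hη : 0 < η) (hη1 : η ≤ 1) :
    ∃ C₀ : ℝ, 1 ≤ C₀ ∧ ∀ (N : ℝ) (μ : Fin m → ℂ) (α : Fin m → ℕ → ℂ) (ε : ℂ) (Λ : ℂ → ℂ),
    DR K N μ α ε Λ → ∀ (τ : ℝ) (s : ℂ), 0 < τ → τ ≤ 1 →
    1 + η + C₀ * τ ≤ τ * Real.log (cond N μ s.im) → heat τ (Xi N Λ) s = 0 →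
    s.re = 1 / 2 ∧ deriv (heat τ (Xi N Λ)) s ≠ 0 := by
  obtain ⟨A, hA0, hHL⟩ := exists_HL m hm hK hη hη1
  obtain ⟨ℓ₀, hloc⟩ := local_main (6 * m) A (by positivity) hA0 hη hη1
  obtain ⟨κ, c₁, ℓ₁, hnum⟩ := exists_num (C := 6 * m) (A := A) (by positivity) hA0 hη hη1
  refine ⟨max 1 (max ℓ₀ ℓ₁), le_max_left _ _, fun N μ α ε Λ d τ => ?_⟩
  obtain ⟨hXd, hfe, hbdd, hXe, hgr⟩ := basic hm d.dat
  -- nonvanishing data on each vertical level
  have key : ∀ t : ℝ, 0 < τ → τ ≤ 1 → 1 + η + max 1 (max ℓ₀ ℓ₁) * τ ≤ τ * Real.log (cond N μ t) →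
      (∀ x : ℝ, 0 < x → Hf (fun v : ℝ => Xi N Λ (1 / 2 + t * I + v)) τ x ≠ 0) ∧
      (Hf (fun v : ℝ => Xi N Λ (1 / 2 + t * I + v)) τ 0 = 0 →
        Hf1 (fun v : ℝ => Xi N Λ (1 / 2 + t * I + v)) τ 0 ≠ 0) := by
    intro t hτ hτ1 hℓ
    set ℓ := Real.log (cond N μ t) with hℓdef
    have h1 : max 1 (max ℓ₀ ℓ₁) ≤ ℓ := by
      have h2 : τ * max 1 (max ℓ₀ ℓ₁) ≤ τ * ℓ := by linarith
      exact le_of_mul_le_mul_left h2 hτ
    have hℓ1 : 1 ≤ ℓ := (le_max_left _ _).trans h1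
    have hℓ2 : ℓ₀ ≤ ℓ := (le_max_left _ _).trans ((le_max_right _ _).trans h1)
    have hℓ3 : ℓ₁ ≤ ℓ := (le_max_right _ _).trans ((le_max_right _ _).trans h1)
    have N' := hnum ℓ hℓ3
    have hbig : 6 * m + A * Real.sqrt ℓ ≤ ℓ / 2 := by
      have h4 := N'.e1
      have h5 := N'.hκ1
      have h6 : κ * ℓ ≤ 1 / 2 * ℓ := by
        have : κ ≤ 1 / 2 := by linarith
        gcongr
      linarith
    obtain ⟨p, hp⟩ := hHL N μ α ε Λ d t ℓ hℓdef hℓ1 hbig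
    refine hloc _ p _ _ _ ℓ τ ε hp d.dat.norm_eq (fun v => ?_) hℓ2 hτ hτ1 ?_ le_rfl le_rfl le_rfl
    · rw [hfe]
      congr 3
      push_cast
      rw [map_add, map_add, map_mul, Complex.conj_I, Complex.conj_ofReal, map_neg, Complex.conj_ofReal,
        map_div₀, map_one, map_ofNat]
      ring
    · have : 0 ≤ max 1 (max ℓ₀ ℓ₁) * τ := by
        have : 0 ≤ max 1 (max ℓ₀ ℓ₁) := le_trans zero_le_one (le_max_left _ _)
        positivity
      linarith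
  have hright : ∀ s : ℂ, 0 < τ → τ ≤ 1 → 1 + η + max 1 (max ℓ₀ ℓ₁) * τ ≤ τ * Real.log (cond N μ s.im) →
      heat τ (Xi N Λ) s = 0 → s.re ≤ 1 / 2 := fun s hτ hτ1 hℓ hz => by
    by_contra hcon
    push Not at hcon
    have h1 := (key s.im hτ hτ1 hℓ).1 (s.re - 1 / 2) (by linarith)
    have e : s = (1 / 2 + s.im * I) + ((s.re - 1 / 2 : ℝ) : ℂ) := by
      apply Complex.ext <;> simp
    rw [e, heat_local hτ] at hz
    have hq : 0 < Real.sqrt (4 * Real.pi * τ) := Real.sqrt_pos.mpr (by positivity)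
    rcases mul_eq_zero.mp hz with h2 | h2
    · have h3 : (Real.sqrt (4 * Real.pi * τ))⁻¹ * Real.exp (-((s.re - 1 / 2) ^ 2 / (4 * τ))) = 0 := by
        exact_mod_cast h2
      have h4 : 0 < (Real.sqrt (4 * Real.pi * τ))⁻¹ * Real.exp (-((s.re - 1 / 2) ^ 2 / (4 * τ))) := by
        positivity
      linarith
    · exact h1 h2
  intro s hτ hτ1 hℓ hz
  have hre : s.re = 1 / 2 := by
    apply le_antisymm (hright s hτ hτ1 hℓ hz)
    have hz' : heat τ (Xi N Λ) (1 - conj s) = 0 := by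
      have h1 := heat_fe (f := Xi N Λ) hfe (τ := τ) (1 - conj s)
      have e : (1 : ℂ) - conj (1 - conj s) = s := by simp
      rw [e, hz, map_zero, mul_zero] at h1
      exact h1
    have him : (1 - conj s).im = s.im := by simp
    have h2 := hright (1 - conj s) hτ hτ1 (by rw [him]; exact hℓ) hz'
    rw [sub_re, one_re, Complex.conj_re] at h2
    linarith
  refine ⟨hre, ?_⟩
  set c : ℂ := 1 / 2 + s.im * I with hc
  have hcs : s = c := by
    apply Complex.ext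
    · rw [hre, hc]; simp
    · rw [hc]; simp
  have hlocal := fun x : ℝ => heat_local (f := Xi N Λ) hτ c x
  obtain ⟨_, hsimple⟩ := key s.im hτ hτ1 hℓ
  rw [← hc] at hsimple
  set g : ℝ → ℂ := fun v => Xi N Λ (c + v) with hg
  have hgc : Continuous g := hXd.continuous.comp (by fun_prop)
  have hgg : Gr g := by
    intro e he
    obtain ⟨K', hK'0, hK'⟩ := grc_shift hgr c e he
    refine ⟨K', fun v => ?_⟩
    have h1 := hK' (v : ℂ)
    rwa [Complex.norm_real, Real.norm_eq_abs, sq_abs] at h1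
  have hq : 0 < Real.sqrt (4 * Real.pi * τ) := Real.sqrt_pos.mpr (by positivity)
  have hH0 : Hf g τ 0 = 0 := by
    have h1 := hlocal 0
    rw [Complex.ofReal_zero, add_zero, ← hcs, hz] at h1
    rcases mul_eq_zero.mp h1.symm with h2 | h2
    · exfalso
      have h3 : (Real.sqrt (4 * Real.pi * τ))⁻¹ * Real.exp (-((0:ℝ) ^ 2 / (4 * τ))) = 0 := by
        exact_mod_cast h2
      have h4 : 0 < (Real.sqrt (4 * Real.pi * τ))⁻¹ * Real.exp (-((0:ℝ) ^ 2 / (4 * τ))) := by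
        positivity
      linarith
    · exact h2
  have hH1 := hsimple hH0
  -- derivative along the real direction
  have hder1 : HasDerivAt (fun x : ℝ => heat τ (Xi N Λ) (c + x)) (deriv (heat τ (Xi N Λ)) c) 0 := by
    have h1 : HasDerivAt (heat τ (Xi N Λ)) (deriv (heat τ (Xi N Λ)) c) (c + ((0 : ℝ) : ℂ)) := by
      rw [Complex.ofReal_zero, add_zero]
      exact ((heat_diff hXd hgr hτ) c).hasDerivAt
    exact (HasDerivAt.comp_const_add c ((0 : ℝ) : ℂ) h1).comp_ofReal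
  have hder2 : HasDerivAt (fun x : ℝ => heat τ (Xi N Λ) (c + x))
      ((((Real.sqrt (4 * Real.pi * τ))⁻¹ : ℝ) : ℂ) * (Hf1 g τ 0 / (2 * τ))) 0 := by
    have h1 : HasDerivAt (fun x : ℝ => (((Real.sqrt (4 * Real.pi * τ))⁻¹ *
        Real.exp (-(x ^ 2 / (4 * τ))) : ℝ) : ℂ)) ((((Real.sqrt (4 * Real.pi * τ))⁻¹ *
        (Real.exp (-((0:ℝ) ^ 2 / (4 * τ))) * (-((0:ℝ) / (2 * τ)))) : ℝ) : ℂ)) 0 :=
      ((gder (τ := τ) 0).const_mul _).ofReal_comp
    have h2 := h1.fun_mul (Hf_der hgc hgg hτ 0)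
    have e : (fun x : ℝ => heat τ (Xi N Λ) (c + x)) = fun x : ℝ => (((Real.sqrt (4 * Real.pi * τ))⁻¹ *
        Real.exp (-(x ^ 2 / (4 * τ))) : ℝ) : ℂ) * Hf g τ x := funext hlocal
    rw [e]
    refine h2.congr_deriv ?_
    rw [hH0]
    norm_num
  rw [hcs]
  intro h0
  have h1 := hder1.unique hder2
  rw [h0] at h1
  have h2 : (((Real.sqrt (4 * Real.pi * τ))⁻¹ : ℝ) : ℂ) ≠ 0 := by
    exact_mod_cast (inv_pos.mpr hq).ne'
  have h3 : (2 * (τ : ℂ)) ≠ 0 := by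
    have : (τ : ℂ) ≠ 0 := by exact_mod_cast hτ.ne'
    simpa using this
  rcases mul_eq_zero.mp h1.symm with h | h
  · exact h2 h
  · rcases div_eq_zero_iff.mp h with h | h
    · exact hH1 h
    · exact h3 h

end Pool.Agent.J4H34.HF
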