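import Mathlib

/-!
Local theory of the heat flow, part 1: a function `g` on the real line with a controlled logarithmic
derivative `p` to the right of `a`.
-/

set_option autoImplicit false

open Complex Set MeasureTheory Filter Topology
open scoped ComplexConjugate

namespace Pool.Agent.J4H34.HF

/-- local data on a horizontal line -/
structure HL (g p : ℝ → ℂ) (a C Q q₀ : ℝ) : Prop where
  cont : Continuous g
  grow : ∀ e : ℝ, 0 < e → ∃ K : ℝ, ∀ v, ‖g v‖ ≤ K * Real.exp (e * v ^ 2)
  der : ∀ v, a ≤ v → HasDerivAt g (g v * p v) v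
  ne : ∀ v, a ≤ v → g v ≠ 0
  dp : ∀ v, a ≤ v → ∃ d : ℂ, HasDerivAt p d v ∧ ‖d‖ ≤ C / v + Q * Real.exp (-(v / 2))
  im : ∀ v, a ≤ v → |(p v).im| ≤ C + Q * Real.exp (-(v / 2))
  re : ∀ v, a ≤ v → q₀ ≤ (p v).re
  left : ∀ v, 0 ≤ v → v ≤ a → ‖g v‖ ≤ Real.exp Q * ‖g a‖
  ha : 1 / 2 ≤ a
  hC : 0 ≤ C
  hQ : 0 ≤ Q
  hq : 0 ≤ q₀

/-- the bound for the derivative of `p` to the right of `s` -/
noncomputable def Mb (C Q s : ℝ) : ℝ := C / s + Q * Real.exp (-(s / 2))

variable {g p : ℝ → ℂ} {a C Q q₀ : ℝ}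

namespace HL

lemma mb_nonneg (h : HL g p a C Q q₀) {s : ℝ} (hs : a ≤ s) : 0 ≤ Mb C Q s := by
  have := h.ha
  have := h.hC
  have := h.hQ
  unfold Mb
  have : 0 ≤ C / s := div_nonneg h.hC (by linarith)
  positivity

lemma mb_anti (h : HL g p a C Q q₀) {s v : ℝ} (hs : a ≤ s) (hv : s ≤ v) : Mb C Q v ≤ Mb C Q s := by
  have h1 := h.ha
  have h2 := h.hC
  have h3 := h.hQ
  unfold Mb
  have h4 : C / v ≤ C / s := div_le_div_of_nonneg_left h2 (by linarith) hv
  have h5 : Real.exp (-(v / 2)) ≤ Real.exp (-(s / 2)) := Real.exp_le_exp.mpr (by linarith)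
  have h6 := mul_le_mul_of_nonneg_left h5 h3
  linarith

lemma lip (h : HL g p a C Q q₀) {s u v : ℝ} (hs : a ≤ s) (hu : s ≤ u) (hv : s ≤ v) :
    ‖p u - p v‖ ≤ Mb C Q s * |u - v| := by
  choose! d hd1 hd2 using h.dp
  have := (convex_Ici s).norm_image_sub_le_of_norm_hasDerivWithin_le (f := p) (f' := d)
    (C := Mb C Q s) (fun z hz => (hd1 z (hs.trans hz)).hasDerivWithinAt)
    (fun z hz => (hd2 z (hs.trans hz)).trans (h.mb_anti hs hz)) (x := v) (y := u) hv hu
  rwa [Real.norm_eq_abs] at this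

lemma contp (h : HL g p a C Q q₀) : Continuous fun v => p (max v a) := by
  rw [continuous_iff_continuousAt]
  intro v
  have h1 : ContinuousAt p (max v a) := by
    obtain ⟨d, hd, _⟩ := h.dp (max v a) (le_max_right _ _)
    exact hd.continuousAt
  exact ContinuousAt.comp (f := fun v => max v a) h1 (by fun_prop)

lemma path (h : HL g p a C Q q₀) {u v : ℝ} (hu : a ≤ u) (hv : a ≤ v) :
    g v = g u * cexp (∫ t in u..v, p (max t a)) := by
  have hc := h.contp
  set P : ℝ → ℂ := fun v => ∫ t in u..v, p (max t a) with hP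
  have hPd : ∀ t, HasDerivAt P (p (max t a)) t := fun t =>
    intervalIntegral.integral_hasDerivAt_right (hc.intervalIntegrable _ _)
      (hc.stronglyMeasurableAtFilter _ _) hc.continuousAt
  set F : ℝ → ℂ := fun t => g t * cexp (-P t) with hF
  have hFd : ∀ t ∈ Ici a, HasDerivAt F 0 t := fun t ht => by
    have h1 := (h.der t ht).mul ((hPd t).neg.cexp)
    have e : g t * p t * cexp (-P t) + g t * (cexp (-P t) * -p (max t a)) = 0 := by
      rw [max_eq_left ht]
      ring
    rw [← e]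
    exact h1
  have h2 := (convex_Ici a).norm_image_sub_le_of_norm_hasDerivWithin_le (f := F) (f' := fun _ => 0)
    (C := 0) (fun z hz => (hFd z hz).hasDerivWithinAt) (fun z _ => by simp) (x := u) (y := v) hu hv
  rw [zero_mul, norm_le_zero_iff, sub_eq_zero] at h2
  simp only [hF] at h2
  have e0 : P u = 0 := by simp [hP]
  rw [e0, neg_zero, Complex.exp_zero, mul_one] at h2
  rw [← h2, mul_assoc, ← Complex.exp_add]
  simp [hP]

lemma mono (h : HL g p a C Q q₀) {u v : ℝ} (hu : a ≤ u) (hv : u ≤ v) : ‖g u‖ ≤ ‖g v‖ := by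
  rw [h.path hu (hu.trans hv), norm_mul, Complex.norm_exp]
  have hc := h.contp
  have h1 : (∫ t in u..v, p (max t a)).re = ∫ t in u..v, (p (max t a)).re := by
    have := (Complex.reCLM.intervalIntegral_comp_comm (hc.intervalIntegrable (μ := volume) u v))
    simpa using this.symm
  have h2 : 0 ≤ ∫ t in u..v, (p (max t a)).re :=
    intervalIntegral.integral_nonneg hv fun t _ => h.hq.trans (h.re _ (le_max_right _ _))
  have h3 : 1 ≤ Real.exp (∫ t in u..v, p (max t a)).re := by
    rw [h1]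
    exact Real.one_le_exp h2
  have := norm_nonneg (g u)
  nlinarith

lemma left' (h : HL g p a C Q q₀) {s v : ℝ} (hs : a ≤ s) (hv0 : 0 ≤ v) (hv : v ≤ s) :
    ‖g v‖ ≤ Real.exp Q * ‖g s‖ := by
  have h1 : 1 ≤ Real.exp Q := Real.one_le_exp h.hQ
  rcases le_total v a with h2 | h2
  · refine (h.left v hv0 h2).trans ?_
    have := h.mono le_rfl hs
    gcongr
  · have := h.mono h2 hv
    have := norm_nonneg (g s)
    nlinarith

/-- the representation near the saddle point -/
lemma rep (h : HL g p a C Q q₀) {s u v : ℝ} (hs : a ≤ s) (hu : s ≤ u) (hv : s ≤ v) :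
    ∃ r : ℂ, g v = g u * cexp (p u * (v - u) + r) ∧ ‖r‖ ≤ Mb C Q s * (v - u) ^ 2 := by
  have hc := h.contp
  refine ⟨∫ t in u..v, (p (max t a) - p u), ?_, ?_⟩
  · rw [h.path (hs.trans hu) (hs.trans hv)]
    congr 2
    rw [intervalIntegral.integral_sub (hc.intervalIntegrable _ _) (by simp)]
    simp
    ring
  · have h1 : ∀ t ∈ uIoc u v, ‖p (max t a) - p u‖ ≤ Mb C Q s * |v - u| := fun t ht => by
      have h2 : s ≤ t := by
        rcases le_total u v with h3 | h3
        · rw [uIoc_of_le h3] at ht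
          linarith [ht.1]
        · rw [uIoc_of_ge h3] at ht
          linarith [ht.1]
      rw [max_eq_left (hs.trans h2)]
      refine (h.lip hs h2 hu).trans ?_
      refine mul_le_mul_of_nonneg_left ?_ (h.mb_nonneg hs)
      rcases le_total u v with h3 | h3
      · rw [uIoc_of_le h3] at ht
        rw [abs_of_nonneg (by linarith [ht.1]), abs_of_nonneg (by linarith)]
        linarith [ht.2]
      · rw [uIoc_of_ge h3] at ht
        rw [abs_of_nonpos (by linarith [ht.2]), abs_of_nonpos (by linarith)]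
        linarith [ht.1]
    have h2 := intervalIntegral.norm_integral_le_of_norm_le_const h1
    refine h2.trans (le_of_eq ?_)
    rw [mul_assoc, abs_mul_abs_self]
    ring

/-- existence of the saddle point -/
lemma saddle (h : HL g p a C Q q₀) {τ x : ℝ} (hτ : 0 < τ) (hτ1 : τ ≤ 1)
    (hx : a - x < 2 * τ * q₀) : ∃ v₀ : ℝ, a ≤ v₀ ∧ v₀ - x = 2 * τ * (p v₀).re := by
  have ha := h.ha
  -- a point beyond which the derivative is at most 1/4
  obtain ⟨V, hV1, hV2⟩ : ∃ V, a ≤ V ∧ Mb C Q V ≤ 1 / 4 := by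
    have h1 : Tendsto (fun V : ℝ => C / V + Q * Real.exp (-(V / 2))) atTop (𝓝 (0 + Q * 0)) := by
      refine Tendsto.add (tendsto_const_nhds.div_atTop tendsto_id) (Tendsto.const_mul _ ?_)
      refine Real.tendsto_exp_neg_atTop_nhds_zero.comp ?_
      exact tendsto_id.atTop_div_const two_pos
    rw [mul_zero, add_zero] at h1
    have h2 := (h1.eventually (eventually_le_nhds (show (0:ℝ) < 1 / 4 by norm_num))).and
      (eventually_ge_atTop a)
    obtain ⟨V, hV⟩ := h2.exists
    exact ⟨V, hV.2, hV.1⟩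
  set φ : ℝ → ℝ := fun v => 2 * τ * (p v).re - (v - x) with hφ
  set B : ℝ := V + 2 * (2 * τ * |(p V).re| + |x| + |V| + 1) with hB
  have hBV : V ≤ B := by
    rw [hB]
    have := abs_nonneg (p V).re
    have := abs_nonneg x
    have := abs_nonneg V
    have : 0 ≤ 2 * τ * |(p V).re| := by positivity
    linarith
  have h1 : 0 ≤ φ a := by
    simp only [hφ]
    have := h.re a le_rfl
    nlinarith
  have h2 : φ B ≤ 0 := by
    simp only [hφ]
    have h3 := h.lip hV1 hBV le_rfl
    have h4 := (Complex.abs_re_le_norm (p B - p V)).trans h3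
    rw [sub_re, abs_of_nonneg (by linarith : 0 ≤ B - V)] at h4
    have h5 := (abs_le.mp h4).2
    have h6 : Mb C Q V * (B - V) ≤ 1 / 4 * (B - V) :=
      mul_le_mul_of_nonneg_right hV2 (by linarith)
    have h7 : 2 * τ * (p B).re ≤ 2 * τ * |(p V).re| + 1 / 2 * (B - V) := by
      have h8 := le_abs_self (p V).re
      have h9 : (p B).re ≤ |(p V).re| + 1 / 4 * (B - V) := by linarith
      have h10 : 2 * τ * (p B).re ≤ 2 * τ * (|(p V).re| + 1 / 4 * (B - V)) := by gcongr
      have h11 : 2 * τ * (1 / 4 * (B - V)) ≤ 2 * 1 * (1 / 4 * (B - V)) := by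
        have : 0 ≤ 1 / 4 * (B - V) := by linarith
        gcongr
      linarith
    have h8 := le_abs_self x
    have h9 := neg_abs_le V
    have h10 : B - V = 2 * (2 * τ * |(p V).re| + |x| + |V| + 1) := by rw [hB]; ring
    linarith
  have hc : ContinuousOn φ (Icc a B) := by
    have h3 : Continuous fun v => 2 * τ * (p (max v a)).re - (v - x) := by
      have h4 := Complex.continuous_re.comp h.contp
      exact (continuous_const.mul h4).sub (by fun_prop)
    refine (h3.continuousOn (s := Icc a B)).congr fun v hv => ?_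
    simp only [hφ]
    rw [max_eq_left hv.1]
  obtain ⟨v₀, hv, hv0⟩ := intermediate_value_Icc' (hV1.trans hBV) hc ⟨h2, h1⟩
  refine ⟨v₀, hv.1, ?_⟩
  simp only [hφ] at hv0
  linarith

end HL

end Pool.Agent.J4H34.HF
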