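import Pool.Agent.J4H34.HF.H1

/-!
Local theory of the heat flow, part 2: the integrals.
-/

set_option autoImplicit false

open Complex Set MeasureTheory Filter Topology
open scoped ComplexConjugate

namespace Pool.Agent.J4H34.HF

/-- the weight -/
noncomputable def Wt (τ x v : ℝ) : ℝ := Real.exp (-(v ^ 2 / (4 * τ)) + x * v / (2 * τ))

lemma Wt_pos (τ x v : ℝ) : 0 < Wt τ x v := Real.exp_pos _

/-- growth condition -/
def Gr (g : ℝ → ℂ) : Prop := ∀ e : ℝ, 0 < e → ∃ K : ℝ, ∀ v, ‖g v‖ ≤ K * Real.exp (e * v ^ 2)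

lemma dom {g : ℝ → ℂ} (h : Gr g) {τ : ℝ} (hτ : 0 < τ) {X : ℝ} (hX : 0 ≤ X) : ∃ K : ℝ, 0 ≤ K ∧
    ∀ x v : ℝ, |x| ≤ X → (1 + |v|) * (‖g v‖ * Wt τ x v) ≤ K * Real.exp (-(1 / (16 * τ)) * v ^ 2) := by
  obtain ⟨K, hK⟩ := h (1 / (8 * τ)) (by positivity)
  have hK0 : 0 ≤ K := by
    have h1 := (norm_nonneg _).trans (hK 0)
    simpa using h1
  set c : ℝ := 1 + X / (2 * τ) with hc
  have hc0 : 0 ≤ c := by positivity
  refine ⟨K * Real.exp (4 * τ * c ^ 2), by positivity, fun x v hx => ?_⟩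
  have h1 : 1 + |v| ≤ Real.exp |v| := by linarith [Real.add_one_le_exp |v|]
  have h2 : x * v / (2 * τ) ≤ X / (2 * τ) * |v| := by
    have : x * v ≤ X * |v| := by
      calc x * v ≤ |x * v| := le_abs_self _
        _ = |x| * |v| := abs_mul _ _
        _ ≤ X * |v| := by gcongr
    calc x * v / (2 * τ) ≤ X * |v| / (2 * τ) := by gcongr
      _ = _ := by ring
  have h3 : c * |v| ≤ 1 / (16 * τ) * v ^ 2 + 4 * τ * c ^ 2 := by
    have e : 1 / (16 * τ) * v ^ 2 + 4 * τ * c ^ 2 - c * |v| = 1 / (16 * τ) * (|v| - 8 * τ * c) ^ 2 := by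
      rw [← sq_abs v]
      field_simp
      ring
    have : 0 ≤ 1 / (16 * τ) * (|v| - 8 * τ * c) ^ 2 := by positivity
    linarith
  unfold Wt
  calc (1 + |v|) * (‖g v‖ * Real.exp (-(v ^ 2 / (4 * τ)) + x * v / (2 * τ)))
      ≤ Real.exp |v| * ((K * Real.exp (1 / (8 * τ) * v ^ 2)) *
        Real.exp (-(v ^ 2 / (4 * τ)) + X / (2 * τ) * |v|)) := by
        have := hK v
        gcongr
    _ = K * Real.exp (|v| + 1 / (8 * τ) * v ^ 2 + (-(v ^ 2 / (4 * τ)) + X / (2 * τ) * |v|)) := by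
        simp only [Real.exp_add]
        ring
    _ ≤ K * Real.exp (4 * τ * c ^ 2 + -(1 / (16 * τ)) * v ^ 2) := by
        refine mul_le_mul_of_nonneg_left (Real.exp_le_exp.mpr ?_) hK0
        have e1 : |v| + X / (2 * τ) * |v| = c * |v| := by rw [hc]; ring
        have e2 : 1 / (8 * τ) * v ^ 2 - v ^ 2 / (4 * τ) = -(1 / (8 * τ) * v ^ 2) := by
          field_simp
          ring
        have e3 : 1 / (8 * τ) * v ^ 2 = 2 * (1 / (16 * τ) * v ^ 2) := by
          field_simp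
          ring
        linarith
    _ = K * Real.exp (4 * τ * c ^ 2) * Real.exp (-(1 / (16 * τ)) * v ^ 2) := by
        rw [Real.exp_add]
        ring

lemma int_gauss {b : ℝ} (hb : 0 < b) (K : ℝ) : Integrable fun v : ℝ => K * Real.exp (-b * v ^ 2) :=
  (integrable_exp_neg_mul_sq hb).const_mul K

lemma Wt_cont (τ x : ℝ) : Continuous fun v => Wt τ x v := by
  unfold Wt
  fun_prop

lemma integ {g : ℝ → ℂ} (hc : Continuous g) (h : Gr g) {τ : ℝ} (hτ : 0 < τ) (x : ℝ) :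
    Integrable fun v : ℝ => g v * (Wt τ x v : ℂ) := by
  obtain ⟨K, hK0, hK⟩ := dom h hτ (abs_nonneg x)
  have hW := Wt_cont τ x
  refine (int_gauss (b := 1 / (16 * τ)) (by positivity) K).mono'
    (Continuous.aestronglyMeasurable (by fun_prop)) (Eventually.of_forall fun v => ?_)
  refine le_trans ?_ (hK x v le_rfl)
  rw [norm_mul, Complex.norm_real, Real.norm_eq_abs, abs_of_pos (Wt_pos _ _ _)]
  have : 0 ≤ ‖g v‖ * Wt τ x v := mul_nonneg (norm_nonneg _) (Wt_pos _ _ _).le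
  have := abs_nonneg v
  nlinarith

lemma integ1 {g : ℝ → ℂ} (hc : Continuous g) (h : Gr g) {τ : ℝ} (hτ : 0 < τ) (x : ℝ) :
    Integrable fun v : ℝ => g v * (v : ℂ) * (Wt τ x v : ℂ) := by
  obtain ⟨K, hK0, hK⟩ := dom h hτ (abs_nonneg x)
  have hW := Wt_cont τ x
  refine (int_gauss (b := 1 / (16 * τ)) (by positivity) K).mono'
    (Continuous.aestronglyMeasurable (by fun_prop)) (Eventually.of_forall fun v => ?_)
  refine le_trans ?_ (hK x v le_rfl)
  rw [norm_mul, norm_mul, Complex.norm_real, Complex.norm_real, Real.norm_eq_abs, Real.norm_eq_abs,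
    abs_of_pos (Wt_pos _ _ _)]
  have : 0 ≤ ‖g v‖ * Wt τ x v := mul_nonneg (norm_nonneg _) (Wt_pos _ _ _).le
  have := abs_nonneg v
  nlinarith

/-- the half line integral -/
noncomputable def Gf (g : ℝ → ℂ) (τ x : ℝ) : ℂ := ∫ v in Ioi (0 : ℝ), g v * (Wt τ x v : ℂ)

/-- its first moment -/
noncomputable def Gf1 (g : ℝ → ℂ) (τ x : ℝ) : ℂ := ∫ v in Ioi (0 : ℝ), g v * (v : ℂ) * (Wt τ x v : ℂ)

/-- the full integral -/
noncomputable def Hf (g : ℝ → ℂ) (τ x : ℝ) : ℂ := ∫ v, g v * (Wt τ x v : ℂ)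

/-- its first moment -/
noncomputable def Hf1 (g : ℝ → ℂ) (τ x : ℝ) : ℂ := ∫ v, g v * (v : ℂ) * (Wt τ x v : ℂ)

lemma Wt_der {τ : ℝ} (x v : ℝ) :
    HasDerivAt (fun x => (Wt τ x v : ℂ)) ((Wt τ x v : ℂ) * ((v / (2 * τ) : ℝ) : ℂ)) x := by
  unfold Wt
  have h1 : HasDerivAt (fun x : ℝ => -(v ^ 2 / (4 * τ)) + x * v / (2 * τ)) (v / (2 * τ)) x := by
    have := (((hasDerivAt_id x).mul_const v).div_const (2 * τ)).const_add (-(v ^ 2 / (4 * τ)))
    simpa using this
  have h2 := h1.exp.ofReal_comp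
  refine h2.congr_deriv ?_
  push_cast
  ring

lemma der_int {g : ℝ → ℂ} (hc : Continuous g) (h : Gr g) {τ : ℝ} (hτ : 0 < τ) (x : ℝ) (S : Set ℝ) :
    HasDerivAt (fun x => ∫ v in S, g v * (Wt τ x v : ℂ))
      ((∫ v in S, g v * (v : ℂ) * (Wt τ x v : ℂ)) / (2 * τ)) x := by
  obtain ⟨K, hK0, hK⟩ := dom h hτ (X := |x| + 1) (by positivity)
  have key := hasDerivAt_integral_of_dominated_loc_of_deriv_le (μ := volume.restrict S)
    (F := fun x v => g v * (Wt τ x v : ℂ)) (F' := fun x v => g v * (v : ℂ) * (Wt τ x v : ℂ) / (2 * τ))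
    (x₀ := x) (s := Metric.ball x 1)
    (bound := fun v => K / (2 * τ) * Real.exp (-(1 / (16 * τ)) * v ^ 2))
    (Metric.ball_mem_nhds x one_pos) ?_ ?_ ?_ ?_ ?_ ?_
  · refine key.2.congr_deriv ?_
    rw [integral_div]
  · refine Eventually.of_forall fun y => ?_
    have hW := Wt_cont τ y
    exact (Continuous.aestronglyMeasurable (by fun_prop))
  · exact (integ hc h hτ x).restrict
  · have hW := Wt_cont τ x
    exact (Continuous.aestronglyMeasurable (by fun_prop))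
  · refine Eventually.of_forall fun v y hy => ?_
    have hy' : |y| ≤ |x| + 1 := by
      rw [Metric.mem_ball, Real.dist_eq] at hy
      have := abs_add_le (y - x) x
      rw [sub_add_cancel] at this
      linarith
    have h1 := hK y v hy'
    have e : ‖g v * (v : ℂ) * (Wt τ y v : ℂ) / (2 * τ)‖ = |v| * (‖g v‖ * Wt τ y v) / (2 * τ) := by
      rw [norm_div, norm_mul, norm_mul, Complex.norm_real, Complex.norm_real, Real.norm_eq_abs,
        Real.norm_eq_abs, abs_of_pos (Wt_pos _ _ _), norm_mul, Complex.norm_ofNat,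
        Complex.norm_real, Real.norm_eq_abs, abs_of_pos hτ]
      ring
    rw [e]
    have h2 : 0 ≤ ‖g v‖ * Wt τ y v := mul_nonneg (norm_nonneg _) (Wt_pos _ _ _).le
    have h3 : |v| * (‖g v‖ * Wt τ y v) ≤ K * Real.exp (-(1 / (16 * τ)) * v ^ 2) := by nlinarith
    calc |v| * (‖g v‖ * Wt τ y v) / (2 * τ) ≤ K * Real.exp (-(1 / (16 * τ)) * v ^ 2) / (2 * τ) := by
          gcongr
      _ = _ := by ring
  · exact (int_gauss (b := 1 / (16 * τ)) (by positivity) _).restrict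
  · refine Eventually.of_forall fun v y _ => ?_
    have h1 := (Wt_der (τ := τ) y v).const_mul (g v)
    refine h1.congr_deriv ?_
    push_cast
    ring

lemma Gf_der {g : ℝ → ℂ} (hc : Continuous g) (h : Gr g) {τ : ℝ} (hτ : 0 < τ) (x : ℝ) :
    HasDerivAt (fun x => Gf g τ x) (Gf1 g τ x / (2 * τ)) x := der_int hc h hτ x _

lemma Hf_der {g : ℝ → ℂ} (hc : Continuous g) (h : Gr g) {τ : ℝ} (hτ : 0 < τ) (x : ℝ) :
    HasDerivAt (fun x => Hf g τ x) (Hf1 g τ x / (2 * τ)) x := by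
  have := der_int hc h hτ x univ
  simpa [Hf, Hf1, Measure.restrict_univ] using this

lemma Wt_neg (τ x v : ℝ) : Wt τ x (-v) = Wt τ (-x) v := by
  unfold Wt
  congr 1
  ring

/-- the functional equation splits the integral -/
lemma Hf_split {g : ℝ → ℂ} (hc : Continuous g) (h : Gr g) {τ : ℝ} (hτ : 0 < τ) {ε : ℂ}
    (hs : ∀ v, g (-v) = ε * conj (g v)) (x : ℝ) :
    Hf g τ x = Gf g τ x + ε * conj (Gf g τ (-x)) ∧
    Hf1 g τ x = Gf1 g τ x - ε * conj (Gf1 g τ (-x)) := by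
  have hconj : ∀ (f : ℝ → ℂ), ∫ v in Ioi (0 : ℝ), conj (f v) = conj (∫ v in Ioi (0 : ℝ), f v) :=
    fun f => integral_conj
  constructor
  · unfold Hf Gf
    have h1 := integral_add_compl (s := Ioi (0 : ℝ)) measurableSet_Ioi (integ hc h hτ x)
    rw [← h1, compl_Ioi]
    congr 1
    rw [← hconj, ← integral_const_mul, ← neg_zero, ← integral_comp_neg_Ioi]
    rw [neg_zero]
    refine setIntegral_congr_fun measurableSet_Ioi fun v _ => ?_
    rw [hs v, Wt_neg, map_mul, Complex.conj_ofReal]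
    ring
  · unfold Hf1 Gf1
    have h1 := integral_add_compl (s := Ioi (0 : ℝ)) measurableSet_Ioi (integ1 hc h hτ x)
    rw [← h1, compl_Ioi, sub_eq_add_neg]
    congr 1
    rw [← hconj, ← integral_const_mul, ← neg_zero, ← integral_comp_neg_Ioi, neg_zero, ← integral_neg]
    refine setIntegral_congr_fun measurableSet_Ioi fun v _ => ?_
    rw [hs v, Wt_neg, map_mul, map_mul, Complex.conj_ofReal, Complex.conj_ofReal]
    push_cast
    ring

lemma sqrt_bounds {τ : ℝ} (hτ : 0 < τ) : 3 * Real.sqrt τ ≤ Real.sqrt (4 * Real.pi * τ) ∧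
    Real.sqrt (Real.pi / (1 / (8 * τ))) ≤ 6 * Real.sqrt τ ∧
    Real.sqrt (Real.pi / (1 / (16 * τ))) ≤ 8 * Real.sqrt τ := by
  have h1 := Real.pi_gt_three
  have h2 := Real.pi_lt_d2
  have h3 := Real.sq_sqrt hτ.le
  have h4 := Real.sqrt_nonneg τ
  refine ⟨?_, ?_, ?_⟩
  · apply Real.le_sqrt_of_sq_le
    rw [mul_pow, h3]
    nlinarith
  · apply Real.sqrt_le_iff.mpr
    refine ⟨by positivity, ?_⟩
    rw [mul_pow, h3]
    have : Real.pi / (1 / (8 * τ)) = 8 * Real.pi * τ := by field_simp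
    rw [this]
    nlinarith
  · apply Real.sqrt_le_iff.mpr
    refine ⟨by positivity, ?_⟩
    rw [mul_pow, h3]
    have : Real.pi / (1 / (16 * τ)) = 16 * Real.pi * τ := by field_simp
    rw [this]
    nlinarith

lemma gauss_shift {b : ℝ} (hb : 0 < b) (v₀ : ℝ) :
    Integrable (fun v : ℝ => Real.exp (-b * (v - v₀) ^ 2)) ∧
    ∫ v : ℝ, Real.exp (-b * (v - v₀) ^ 2) = Real.sqrt (Real.pi / b) := by
  constructor
  · exact (integrable_exp_neg_mul_sq hb).comp_sub_right v₀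
  · rw [← integral_gaussian b]
    exact integral_sub_right_eq_self (fun v : ℝ => Real.exp (-b * v ^ 2)) v₀

/-- the complex Gaussian -/
lemma gauss_complex {τ : ℝ} (hτ : 0 < τ) (β v₀ : ℝ) :
    Integrable (fun v : ℝ => cexp (β * (v - v₀) * I - (v - v₀) ^ 2 / (4 * τ))) ∧
    ‖∫ v : ℝ, cexp (β * (v - v₀) * I - (v - v₀) ^ 2 / (4 * τ))‖ =
      Real.sqrt (4 * Real.pi * τ) * Real.exp (-(τ * β ^ 2)) := by
  set b : ℂ := -((1 / (4 * τ) : ℝ) : ℂ) with hb
  have hbre : b.re < 0 := by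
    rw [hb, neg_re, ofReal_re]
    have : 0 < 1 / (4 * τ) := by positivity
    linarith
  have hτc : (τ : ℂ) ≠ 0 := by exact_mod_cast hτ.ne'
  have e : (fun v : ℝ => cexp (β * (v - v₀) * I - (v - v₀) ^ 2 / (4 * τ))) =
      fun v : ℝ => (fun u : ℝ => cexp (b * (u : ℂ) ^ 2 + (β * I) * u + 0)) (v - v₀) := by
    funext v
    simp only [hb]
    congr 1
    push_cast
    field_simp
    ring
  constructor
  · rw [e]
    have h1 : Integrable (fun u : ℝ => cexp (b * (u : ℂ) ^ 2 + (β * I) * u + 0)) :=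
      integrable_cexp_quadratic' hbre (β * I) 0
    exact h1.comp_sub_right v₀
  · rw [e, integral_sub_right_eq_self (fun u : ℝ => cexp (b * (u : ℂ) ^ 2 + (β * I) * u + 0)) v₀]
    rw [integral_cexp_quadratic hbre, norm_mul, Complex.norm_exp]
    have h1 : (Real.pi : ℂ) / -b = ((4 * Real.pi * τ : ℝ) : ℂ) := by
      rw [hb, neg_neg]
      push_cast
      field_simp
    have h2 : (0 - ((β : ℂ) * I) ^ 2 / (4 * b)) = ((-(τ * β ^ 2) : ℝ) : ℂ) := by
      rw [hb, mul_pow, I_sq]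
      push_cast
      field_simp
      ring
    rw [h1, h2, ofReal_re, Complex.norm_cpow_eq_rpow_re_of_pos (by positivity), Real.sqrt_eq_rpow]
    norm_num

end Pool.Agent.J4H34.HF
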