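import Pool.Agent.J4H34.HF.H2

/-!
Local theory of the heat flow, part 3: the saddle point estimates.
-/

set_option autoImplicit false

open Complex Set MeasureTheory Filter Topology
open scoped ComplexConjugate

namespace Pool.Agent.J4H34.HF

/-- the situation at a saddle point -/
structure SP (g p : ℝ → ℂ) (a C Q q₀ τ x v₀ s : ℝ) : Prop where
  hl : HL g p a C Q q₀
  hτ : 0 < τ
  has : a ≤ s
  hsv : s ≤ v₀
  sad : v₀ - x = 2 * τ * (p v₀).re
  hM : 16 * τ * Mb C Q s ≤ 1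

variable {g p : ℝ → ℂ} {a C Q q₀ τ x v₀ s : ℝ}

/-- the size at the saddle point -/
noncomputable def Az (g : ℝ → ℂ) (τ x v₀ : ℝ) : ℝ := ‖g v₀‖ * Wt τ x v₀

/-- the size to the left -/
noncomputable def Ez (p : ℝ → ℂ) (C Q τ x v₀ s : ℝ) : ℝ :=
  Real.exp (Q + (v₀ - x) ^ 2 / (4 * τ) - (p v₀).re * (v₀ - s) + Mb C Q s * (v₀ - s) ^ 2)

namespace SP

lemma s_pos (h : SP g p a C Q q₀ τ x v₀ s) : 0 < s := by
  have := h.hl.ha
  have := h.has
  linarith

lemma Apos (h : SP g p a C Q q₀ τ x v₀ s) : 0 < Az g τ x v₀ :=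
  mul_pos (norm_pos_iff.mpr (h.hl.ne _ (h.has.trans h.hsv))) (Wt_pos _ _ _)

lemma W_split (h : SP g p a C Q q₀ τ x v₀ s) (v : ℝ) :
    Wt τ x v = Wt τ x v₀ * Real.exp (-((v - v₀) ^ 2 / (4 * τ)) - (p v₀).re * (v - v₀)) := by
  unfold Wt
  rw [← Real.exp_add]
  congr 1
  have hτ := h.hτ
  have e : (p v₀).re = (v₀ - x) / (2 * τ) := by
    rw [h.sad]
    field_simp
  rw [e]
  field_simp
  ring

lemma pt (h : SP g p a C Q q₀ τ x v₀ s) {v : ℝ} (hv : s ≤ v) :
    ∃ r : ℂ, g v * (Wt τ x v : ℂ) = g v₀ * (Wt τ x v₀ : ℂ) *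
      cexp ((p v₀).im * (v - v₀) * I - (v - v₀) ^ 2 / (4 * τ)) * cexp r ∧
      ‖r‖ ≤ Mb C Q s * (v - v₀) ^ 2 := by
  obtain ⟨r, hr, hr2⟩ := h.hl.rep h.has h.hsv hv
  refine ⟨r, ?_, hr2⟩
  rw [hr, h.W_split v]
  push_cast
  have e : cexp (p v₀ * (v - v₀) + r) * cexp (-((v - v₀) ^ 2 / (4 * τ)) - (p v₀).re * (v - v₀)) =
      cexp ((p v₀).im * (v - v₀) * I - (v - v₀) ^ 2 / (4 * τ)) * cexp r := by
    rw [← Complex.exp_add, ← Complex.exp_add]
    congr 1
    have := Complex.re_add_im (p v₀)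
    linear_combination -(((v : ℂ) - v₀)) * this
  linear_combination (g v₀ * (Wt τ x v₀ : ℂ)) * e

lemma norm_gx (τ β v₀ v : ℝ) : ‖cexp (β * (v - v₀) * I - (v - v₀) ^ 2 / (4 * τ))‖ =
    Real.exp (-((v - v₀) ^ 2 / (4 * τ))) := by
  rw [Complex.norm_exp]
  congr 1
  have e : (β * (v - v₀) * I - (v - v₀) ^ 2 / (4 * τ) : ℂ) =
      ((-((v - v₀) ^ 2 / (4 * τ)) : ℝ) : ℂ) + ((β * (v - v₀) : ℝ) : ℂ) * I := by
    push_cast
    ring
  rw [e, add_re, ofReal_re, Complex.re_ofReal_mul, I_re, mul_zero, add_zero]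

lemma ptB (h : SP g p a C Q q₀ τ x v₀ s) {v : ℝ} (hv : s ≤ v) :
    ‖g v * (Wt τ x v : ℂ)‖ ≤ Az g τ x v₀ * Real.exp (-(1 / (8 * τ)) * (v - v₀) ^ 2) ∧
    ‖g v * (Wt τ x v : ℂ) - g v₀ * (Wt τ x v₀ : ℂ) *
      cexp ((p v₀).im * (v - v₀) * I - (v - v₀) ^ 2 / (4 * τ))‖ ≤
      Az g τ x v₀ * (16 * τ * Mb C Q s) * Real.exp (-(1 / (8 * τ)) * (v - v₀) ^ 2) := by
  obtain ⟨r, hr, hr2⟩ := h.pt hv
  have hτ := h.hτ
  have hM0 := h.hl.mb_nonneg h.has
  have hM1 := h.hM
  set M := Mb C Q s with hMdef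
  set y : ℝ := (v - v₀) ^ 2 with hy
  have hy0 : 0 ≤ y := sq_nonneg _
  have hA : ‖g v₀ * (Wt τ x v₀ : ℂ)‖ = Az g τ x v₀ := by
    rw [norm_mul, Complex.norm_real, Real.norm_eq_abs, abs_of_pos (Wt_pos _ _ _)]
    rfl
  have hA0 := h.Apos
  have hMy : M * y ≤ 1 / (16 * τ) * y := by
    refine mul_le_mul_of_nonneg_right ?_ hy0
    rw [le_div_iff₀ (by positivity)]
    linarith
  constructor
  · rw [hr, norm_mul, norm_mul, hA, norm_gx, Complex.norm_exp, mul_assoc, ← Real.exp_add]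
    refine mul_le_mul_of_nonneg_left (Real.exp_le_exp.mpr ?_) hA0.le
    have h1 := (re_le_norm r).trans hr2
    have e1 : (v - v₀) ^ 2 / (4 * τ) = 4 * (1 / (16 * τ) * y) := by rw [hy]; field_simp; ring
    have e2 : 1 / (8 * τ) * y = 2 * (1 / (16 * τ) * y) := by field_simp; ring
    have h2 : 0 ≤ 1 / (16 * τ) * y := by positivity
    rw [e1, neg_mul, e2]
    linarith
  · have e : g v * (Wt τ x v : ℂ) - g v₀ * (Wt τ x v₀ : ℂ) *
        cexp ((p v₀).im * (v - v₀) * I - (v - v₀) ^ 2 / (4 * τ)) =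
        g v₀ * (Wt τ x v₀ : ℂ) * (cexp ((p v₀).im * (v - v₀) * I - (v - v₀) ^ 2 / (4 * τ)) *
          (cexp r - 1)) := by
      rw [hr]
      ring
    rw [e, norm_mul _ (_ * _), hA, norm_mul, norm_gx, mul_assoc]
    refine mul_le_mul_of_nonneg_left ?_ hA0.le
    have h1 : ‖cexp r - 1‖ ≤ ‖r‖ * Real.exp ‖r‖ := by
      have := Complex.norm_exp_sub_sum_le_norm_mul_exp r 1
      simpa using this
    have h2 : y ≤ 16 * τ * Real.exp (1 / (16 * τ) * y) := by
      have h3 := Real.add_one_le_exp (1 / (16 * τ) * y)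
      have h4 : 16 * τ * (1 / (16 * τ) * y) = y := by field_simp
      have h5 : 16 * τ * (1 / (16 * τ) * y) ≤ 16 * τ * Real.exp (1 / (16 * τ) * y) := by
        refine mul_le_mul_of_nonneg_left (by linarith) (by positivity)
      linarith
    have h3 : ‖r‖ * Real.exp ‖r‖ ≤ (M * (16 * τ * Real.exp (1 / (16 * τ) * y))) *
        Real.exp (1 / (16 * τ) * y) := by
      have h4 : ‖r‖ ≤ M * (16 * τ * Real.exp (1 / (16 * τ) * y)) :=
        hr2.trans (mul_le_mul_of_nonneg_left h2 hM0)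
      have h5 : Real.exp ‖r‖ ≤ Real.exp (1 / (16 * τ) * y) := Real.exp_le_exp.mpr (hr2.trans hMy)
      gcongr
    calc Real.exp (-((v - v₀) ^ 2 / (4 * τ))) * ‖cexp r - 1‖
        ≤ Real.exp (-((v - v₀) ^ 2 / (4 * τ))) * ((M * (16 * τ * Real.exp (1 / (16 * τ) * y))) *
        Real.exp (1 / (16 * τ) * y)) := by
          refine mul_le_mul_of_nonneg_left (h1.trans h3) (Real.exp_pos _).le
      _ = 16 * τ * M * Real.exp (-((v - v₀) ^ 2 / (4 * τ)) + 1 / (16 * τ) * y + 1 / (16 * τ) * y) := by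
          rw [Real.exp_add, Real.exp_add]
          ring
      _ = 16 * τ * M * Real.exp (-(1 / (8 * τ)) * y) := by
          congr 2
          rw [hy]
          field_simp
          ring

/-- the left part -/
lemma ptL (h : SP g p a C Q q₀ τ x v₀ s) {v : ℝ} (hv0 : 0 ≤ v) (hv : v ≤ s) :
    ‖g v * (Wt τ x v : ℂ)‖ ≤ Az g τ x v₀ * Ez p C Q τ x v₀ s := by
  have hτ := h.hτ
  rw [norm_mul, Complex.norm_real, Real.norm_eq_abs, abs_of_pos (Wt_pos _ _ _)]
  have h1 := h.hl.left' h.has hv0 hv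
  have h2 : Wt τ x v ≤ Real.exp (x ^ 2 / (4 * τ)) := by
    unfold Wt
    apply Real.exp_le_exp.mpr
    have e : x ^ 2 / (4 * τ) - (-(v ^ 2 / (4 * τ)) + x * v / (2 * τ)) = (x - v) ^ 2 / (4 * τ) := by
      field_simp
      ring
    have : 0 ≤ (x - v) ^ 2 / (4 * τ) := by positivity
    linarith
  obtain ⟨r, hr, hr2⟩ := h.hl.rep h.has h.hsv (v := s) le_rfl
  have h3 : ‖g s‖ ≤ ‖g v₀‖ * Real.exp (-((p v₀).re * (v₀ - s)) + Mb C Q s * (v₀ - s) ^ 2) := by
    rw [hr, norm_mul, Complex.norm_exp]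
    refine mul_le_mul_of_nonneg_left (Real.exp_le_exp.mpr ?_) (norm_nonneg _)
    have h4 := (re_le_norm r).trans hr2
    have e : (p v₀ * ((s : ℂ) - v₀)).re = -((p v₀).re * (v₀ - s)) := by
      have : ((s : ℂ) - v₀) = ((s - v₀ : ℝ) : ℂ) := by push_cast; ring
      rw [this, Complex.re_mul_ofReal]
      ring
    rw [add_re, e]
    have e2 : (s - v₀) ^ 2 = (v₀ - s) ^ 2 := by ring
    rw [e2] at h4
    linarith
  have h4 : Real.exp (x ^ 2 / (4 * τ)) = Wt τ x v₀ * Real.exp ((v₀ - x) ^ 2 / (4 * τ)) := by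
    unfold Wt
    rw [← Real.exp_add]
    congr 1
    field_simp
    ring
  unfold Az Ez
  calc ‖g v‖ * Wt τ x v ≤ (Real.exp Q * (‖g v₀‖ * Real.exp (-((p v₀).re * (v₀ - s)) +
        Mb C Q s * (v₀ - s) ^ 2))) * (Wt τ x v₀ * Real.exp ((v₀ - x) ^ 2 / (4 * τ))) := by
        rw [← h4]
        have h5 := h1.trans (mul_le_mul_of_nonneg_left h3 (Real.exp_pos Q).le)
        have h6 := (Wt_pos τ x v).le
        gcongr
    _ = _ := by
        have e : Real.exp (Q + (v₀ - x) ^ 2 / (4 * τ) - (p v₀).re * (v₀ - s) +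
            Mb C Q s * (v₀ - s) ^ 2) = Real.exp Q * Real.exp ((v₀ - x) ^ 2 / (4 * τ)) *
            Real.exp (-((p v₀).re * (v₀ - s)) + Mb C Q s * (v₀ - s) ^ 2) := by
          rw [← Real.exp_add, ← Real.exp_add]
          congr 1
          ring
        rw [e]
        ring

lemma Epos : 0 < Ez p C Q τ x v₀ s := Real.exp_pos _

/-- lower bound for the half line integral -/
lemma main_low (h : SP g p a C Q q₀ τ x v₀ s) :
    Az g τ x v₀ * (Real.sqrt τ * (3 * Real.exp (-(τ * (p v₀).im ^ 2)) - 96 * τ * Mb C Q s -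
      6 * Real.exp (-((v₀ - s) ^ 2 / (8 * τ)))) - s * Ez p C Q τ x v₀ s) ≤ ‖Gf g τ x‖ := by
  have hτ := h.hτ
  have hs := h.s_pos
  have hA0 := h.Apos
  have hM0 := h.hl.mb_nonneg h.has
  set M := Mb C Q s with hMdef
  set A := Az g τ x v₀ with hA
  obtain ⟨hb1, hb2, hb3⟩ := sqrt_bounds hτ
  have hint := integ h.hl.cont h.hl.grow hτ x
  set G₀ : ℂ := g v₀ * (Wt τ x v₀ : ℂ) with hG₀
  have hG₀n : ‖G₀‖ = A := by
    rw [hG₀, norm_mul, Complex.norm_real, Real.norm_eq_abs, abs_of_pos (Wt_pos _ _ _)]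
    rfl
  set k : ℝ → ℂ := fun v => cexp ((p v₀).im * (v - v₀) * I - (v - v₀) ^ 2 / (4 * τ)) with hk
  obtain ⟨hk1, hk2⟩ := gauss_complex hτ (p v₀).im v₀
  obtain ⟨hg1, hg2⟩ := gauss_shift (b := 1 / (8 * τ)) (by positivity) v₀
  -- splitting
  have e1 : Gf g τ x = (∫ v in Ioc 0 s, g v * (Wt τ x v : ℂ)) + ∫ v in Ioi s, g v * (Wt τ x v : ℂ) := by
    unfold Gf
    rw [← Ioc_union_Ioi_eq_Ioi hs.le]
    exact setIntegral_union (Ioc_disjoint_Ioi le_rfl) measurableSet_Ioi hint.integrableOn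
      hint.integrableOn
  have e2 : ∫ v in Ioi s, g v * (Wt τ x v : ℂ) = (∫ v, G₀ * k v) - (∫ v in Iic s, G₀ * k v) +
      ∫ v in Ioi s, (g v * (Wt τ x v : ℂ) - G₀ * k v) := by
    have hk' : Integrable fun v => G₀ * k v := hk1.const_mul G₀
    have h1 := integral_add_compl (s := Iic s) measurableSet_Iic hk'
    rw [compl_Iic] at h1
    rw [integral_sub hint.integrableOn hk'.integrableOn, ← h1]
    ring
  have h1 : ‖∫ v in Ioc 0 s, g v * (Wt τ x v : ℂ)‖ ≤ A * Ez p C Q τ x v₀ s * s := by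
    have := norm_setIntegral_le_of_norm_le_const (μ := volume) (s := Ioc 0 s)
      (f := fun v => g v * (Wt τ x v : ℂ)) (C := A * Ez p C Q τ x v₀ s) (by simp)
      (fun v hv => h.ptL hv.1.le hv.2)
    refine this.trans (le_of_eq ?_)
    simp [hs.le]
  have h2 : ‖∫ v, G₀ * k v‖ = A * (Real.sqrt (4 * Real.pi * τ) * Real.exp (-(τ * (p v₀).im ^ 2))) := by
    rw [integral_const_mul, norm_mul, hG₀n, hk2]
  have h3 : ‖∫ v in Iic s, G₀ * k v‖ ≤ A * Real.exp (-((v₀ - s) ^ 2 / (8 * τ))) *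
      Real.sqrt (Real.pi / (1 / (8 * τ))) := by
    have h4 : ∀ v ∈ Iic s, ‖G₀ * k v‖ ≤ A * Real.exp (-((v₀ - s) ^ 2 / (8 * τ))) *
        Real.exp (-(1 / (8 * τ)) * (v - v₀) ^ 2) := fun v hv => by
      have hv' : v ≤ s := hv
      rw [norm_mul, hG₀n, norm_gx, mul_assoc, ← Real.exp_add]
      refine mul_le_mul_of_nonneg_left (Real.exp_le_exp.mpr ?_) hA0.le
      have h5 : (v₀ - s) ^ 2 ≤ (v - v₀) ^ 2 := by
        have := h.hsv
        nlinarith
      have h6 : (v₀ - s) ^ 2 / (8 * τ) ≤ (v - v₀) ^ 2 / (8 * τ) := by gcongr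
      have e3 : (v - v₀) ^ 2 / (4 * τ) = 2 * ((v - v₀) ^ 2 / (8 * τ)) := by field_simp; ring
      have e4 : -(1 / (8 * τ)) * (v - v₀) ^ 2 = -((v - v₀) ^ 2 / (8 * τ)) := by ring
      rw [e3, e4]
      linarith
    have h5 := norm_integral_le_of_norm_le (μ := volume.restrict (Iic s)) (f := fun v => G₀ * k v)
      (g := fun v => A * Real.exp (-((v₀ - s) ^ 2 / (8 * τ))) *
        Real.exp (-(1 / (8 * τ)) * (v - v₀) ^ 2)) (hg1.const_mul _).restrict
      ((ae_restrict_iff' measurableSet_Iic).mpr (Eventually.of_forall h4))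
    refine h5.trans ?_
    rw [integral_const_mul]
    refine mul_le_mul_of_nonneg_left ?_ (by positivity)
    rw [← hg2]
    exact setIntegral_le_integral hg1 (Eventually.of_forall fun v => (Real.exp_pos _).le)
  have h4 : ‖∫ v in Ioi s, (g v * (Wt τ x v : ℂ) - G₀ * k v)‖ ≤ A * (16 * τ * M) *
      Real.sqrt (Real.pi / (1 / (8 * τ))) := by
    have h5 := norm_integral_le_of_norm_le (μ := volume.restrict (Ioi s))
      (f := fun v => g v * (Wt τ x v : ℂ) - G₀ * k v)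
      (g := fun v => A * (16 * τ * M) * Real.exp (-(1 / (8 * τ)) * (v - v₀) ^ 2))
      (hg1.const_mul _).restrict
      ((ae_restrict_iff' measurableSet_Ioi).mpr (Eventually.of_forall fun v hv =>
        (h.ptB (le_of_lt hv)).2))
    refine h5.trans ?_
    rw [integral_const_mul]
    refine mul_le_mul_of_nonneg_left ?_ (by positivity)
    rw [← hg2]
    exact setIntegral_le_integral hg1 (Eventually.of_forall fun v => (Real.exp_pos _).le)
  have h5 : ‖∫ v, G₀ * k v‖ ≤ ‖Gf g τ x‖ + ‖∫ v in Ioc 0 s, g v * (Wt τ x v : ℂ)‖ +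
      ‖∫ v in Iic s, G₀ * k v‖ + ‖∫ v in Ioi s, (g v * (Wt τ x v : ℂ) - G₀ * k v)‖ := by
    have e3 : ∫ v, G₀ * k v = Gf g τ x - (∫ v in Ioc 0 s, g v * (Wt τ x v : ℂ)) +
        (∫ v in Iic s, G₀ * k v) - ∫ v in Ioi s, (g v * (Wt τ x v : ℂ) - G₀ * k v) := by
      rw [e1, e2]
      ring
    rw [e3]
    refine (norm_sub_le _ _).trans (add_le_add ((norm_add_le _ _).trans
      (add_le_add (norm_sub_le _ _) le_rfl)) le_rfl)
  rw [h2] at h5
  have hst : 0 < Real.sqrt τ := Real.sqrt_pos.mpr hτ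
  have h6 : A * (3 * Real.sqrt τ * Real.exp (-(τ * (p v₀).im ^ 2))) ≤
      A * (Real.sqrt (4 * Real.pi * τ) * Real.exp (-(τ * (p v₀).im ^ 2))) := by
    gcongr
  have h7 : A * Real.exp (-((v₀ - s) ^ 2 / (8 * τ))) * Real.sqrt (Real.pi / (1 / (8 * τ))) ≤
      A * Real.exp (-((v₀ - s) ^ 2 / (8 * τ))) * (6 * Real.sqrt τ) := by gcongr
  have h8 : A * (16 * τ * M) * Real.sqrt (Real.pi / (1 / (8 * τ))) ≤
      A * (16 * τ * M) * (6 * Real.sqrt τ) := by gcongr
  nlinarith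

/-- the first moment around the saddle point -/
lemma dev (h : SP g p a C Q q₀ τ x v₀ s) :
    ‖Gf1 g τ x - v₀ * Gf g τ x‖ ≤ Az g τ x v₀ * (s * v₀ * Ez p C Q τ x v₀ s + 32 * τ) := by
  have hτ := h.hτ
  have hs := h.s_pos
  have hsv := h.hsv
  have hA0 := h.Apos
  set A := Az g τ x v₀ with hA
  obtain ⟨hb1, hb2, hb3⟩ := sqrt_bounds hτ
  have hint := integ h.hl.cont h.hl.grow hτ x
  have hint1 := integ1 h.hl.cont h.hl.grow hτ x
  obtain ⟨hg1, hg2⟩ := gauss_shift (b := 1 / (16 * τ)) (by positivity) v₀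
  set f : ℝ → ℂ := fun v => g v * (v : ℂ) * (Wt τ x v : ℂ) - v₀ * (g v * (Wt τ x v : ℂ)) with hf
  have hfi : Integrable f := hint1.sub (hint.const_mul _)
  have hfn : ∀ v, ‖f v‖ = |v - v₀| * ‖g v * (Wt τ x v : ℂ)‖ := fun v => by
    have e : f v = ((v - v₀ : ℝ) : ℂ) * (g v * (Wt τ x v : ℂ)) := by
      simp only [hf]
      push_cast
      ring
    rw [e, norm_mul, Complex.norm_real, Real.norm_eq_abs]
  have e1 : Gf1 g τ x - v₀ * Gf g τ x = (∫ v in Ioc 0 s, f v) + ∫ v in Ioi s, f v := by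
    unfold Gf Gf1
    rw [← integral_const_mul, ← integral_sub hint1.integrableOn (hint.const_mul _).integrableOn,
      ← Ioc_union_Ioi_eq_Ioi hs.le]
    exact setIntegral_union (Ioc_disjoint_Ioi le_rfl) measurableSet_Ioi hfi.integrableOn
      hfi.integrableOn
  have h1 : ‖∫ v in Ioc 0 s, f v‖ ≤ A * (v₀ * Ez p C Q τ x v₀ s) * s := by
    have := norm_setIntegral_le_of_norm_le_const (μ := volume) (s := Ioc 0 s)
      (f := f) (C := A * (v₀ * Ez p C Q τ x v₀ s)) (by simp)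
      (fun v hv => by
        rw [hfn]
        have h2 := h.ptL hv.1.le hv.2
        have h3 : |v - v₀| ≤ v₀ := by
          rw [abs_le]
          constructor <;> linarith [hv.1, hv.2]
        calc |v - v₀| * ‖g v * (Wt τ x v : ℂ)‖ ≤ v₀ * (A * Ez p C Q τ x v₀ s) := by
              gcongr
              linarith
          _ = _ := by ring)
    refine this.trans (le_of_eq ?_)
    simp [hs.le]
  have h2 : ‖∫ v in Ioi s, f v‖ ≤ A * (4 * Real.sqrt τ) * Real.sqrt (Real.pi / (1 / (16 * τ))) := by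
    have h3 : ∀ v ∈ Ioi s, ‖f v‖ ≤ A * (4 * Real.sqrt τ) *
        Real.exp (-(1 / (16 * τ)) * (v - v₀) ^ 2) := fun v hv => by
      have hv' : s < v := hv
      have h4 := (h.ptB hv'.le).1
      have h5 : |v - v₀| ≤ 4 * Real.sqrt τ * Real.exp (1 / (16 * τ) * (v - v₀) ^ 2) := by
        have h6 := Real.add_one_le_exp (1 / (16 * τ) * (v - v₀) ^ 2)
        have hst : 0 < Real.sqrt τ := Real.sqrt_pos.mpr hτ
        set z : ℝ := |v - v₀| / (4 * Real.sqrt τ) with hz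
        have hz2 : 1 / (16 * τ) * (v - v₀) ^ 2 = z ^ 2 := by
          rw [hz, div_pow, mul_pow, Real.sq_sqrt hτ.le, sq_abs]
          ring
        have hz3 : |v - v₀| = 4 * Real.sqrt τ * z := by
          rw [hz]
          field_simp
        rw [hz2] at h6 ⊢
        rw [hz3]
        refine mul_le_mul_of_nonneg_left ?_ (by positivity)
        nlinarith [sq_nonneg (z - 1 / 2)]
      rw [hfn]
      calc |v - v₀| * ‖g v * (Wt τ x v : ℂ)‖ ≤
          (4 * Real.sqrt τ * Real.exp (1 / (16 * τ) * (v - v₀) ^ 2)) *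
            (A * Real.exp (-(1 / (8 * τ)) * (v - v₀) ^ 2)) := by gcongr
        _ = A * (4 * Real.sqrt τ) * Real.exp (1 / (16 * τ) * (v - v₀) ^ 2 +
            -(1 / (8 * τ)) * (v - v₀) ^ 2) := by
            rw [Real.exp_add]
            ring
        _ = _ := by
            congr 2
            field_simp
            ring
    have h5 := norm_integral_le_of_norm_le (μ := volume.restrict (Ioi s)) (f := f)
      (g := fun v => A * (4 * Real.sqrt τ) * Real.exp (-(1 / (16 * τ)) * (v - v₀) ^ 2))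
      (hg1.const_mul _).restrict
      ((ae_restrict_iff' measurableSet_Ioi).mpr (Eventually.of_forall h3))
    refine h5.trans ?_
    rw [integral_const_mul]
    refine mul_le_mul_of_nonneg_left ?_ (by positivity)
    rw [← hg2]
    exact setIntegral_le_integral hg1 (Eventually.of_forall fun v => (Real.exp_pos _).le)
  have h3 : A * (4 * Real.sqrt τ) * Real.sqrt (Real.pi / (1 / (16 * τ))) ≤
      A * (4 * Real.sqrt τ) * (8 * Real.sqrt τ) := by gcongr
  have h4 : A * (4 * Real.sqrt τ) * (8 * Real.sqrt τ) = A * (32 * τ) := by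
    have := Real.mul_self_sqrt hτ.le
    linear_combination (32 * A) * this
  rw [e1]
  refine (norm_add_le _ _).trans ?_
  rw [mul_add]
  refine add_le_add ?_ ?_
  · refine h1.trans (le_of_eq ?_)
    ring
  · linarith

/-- the integral at the reflected point -/
lemma minus (h : SP g p a C Q q₀ τ x v₀ s) (hx : 0 ≤ x) :
    ‖Gf g τ (-x)‖ ≤ Az g τ x v₀ * (s * Ez p C Q τ x v₀ s +
      6 * Real.sqrt τ * Real.exp (-(x * s / τ))) := by
  have hτ := h.hτ
  have hs := h.s_pos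
  have hA0 := h.Apos
  set A := Az g τ x v₀ with hA
  obtain ⟨hb1, hb2, hb3⟩ := sqrt_bounds hτ
  have hint := integ h.hl.cont h.hl.grow hτ (-x)
  obtain ⟨hg1, hg2⟩ := gauss_shift (b := 1 / (8 * τ)) (by positivity) v₀
  have hW : ∀ v, Wt τ (-x) v = Wt τ x v * Real.exp (-(x * v / τ)) := fun v => by
    unfold Wt
    rw [← Real.exp_add]
    congr 1
    field_simp
    ring
  have hn : ∀ v, ‖g v * (Wt τ (-x) v : ℂ)‖ = ‖g v * (Wt τ x v : ℂ)‖ * Real.exp (-(x * v / τ)) :=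
    fun v => by
      rw [norm_mul, norm_mul, Complex.norm_real, Complex.norm_real, Real.norm_eq_abs,
        Real.norm_eq_abs, abs_of_pos (Wt_pos _ _ _), abs_of_pos (Wt_pos _ _ _), hW]
      ring
  have e1 : Gf g τ (-x) = (∫ v in Ioc 0 s, g v * (Wt τ (-x) v : ℂ)) +
      ∫ v in Ioi s, g v * (Wt τ (-x) v : ℂ) := by
    unfold Gf
    rw [← Ioc_union_Ioi_eq_Ioi hs.le]
    exact setIntegral_union (Ioc_disjoint_Ioi le_rfl) measurableSet_Ioi hint.integrableOn
      hint.integrableOn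
  have h1 : ‖∫ v in Ioc 0 s, g v * (Wt τ (-x) v : ℂ)‖ ≤ A * Ez p C Q τ x v₀ s * s := by
    have := norm_setIntegral_le_of_norm_le_const (μ := volume) (s := Ioc 0 s)
      (f := fun v => g v * (Wt τ (-x) v : ℂ)) (C := A * Ez p C Q τ x v₀ s) (by simp)
      (fun v hv => by
        rw [hn]
        have h2 : Real.exp (-(x * v / τ)) ≤ 1 := by
          rw [Real.exp_le_one_iff]
          have : 0 ≤ x * v / τ := div_nonneg (mul_nonneg hx hv.1.le) hτ.le
          linarith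
        have h3 := h.ptL hv.1.le hv.2
        have h4 := norm_nonneg (g v * (Wt τ x v : ℂ))
        nlinarith)
    refine this.trans (le_of_eq ?_)
    simp [hs.le]
  have h2 : ‖∫ v in Ioi s, g v * (Wt τ (-x) v : ℂ)‖ ≤ A * Real.exp (-(x * s / τ)) *
      Real.sqrt (Real.pi / (1 / (8 * τ))) := by
    have h5 := norm_integral_le_of_norm_le (μ := volume.restrict (Ioi s))
      (f := fun v => g v * (Wt τ (-x) v : ℂ))
      (g := fun v => A * Real.exp (-(x * s / τ)) * Real.exp (-(1 / (8 * τ)) * (v - v₀) ^ 2))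
      (hg1.const_mul _).restrict
      ((ae_restrict_iff' measurableSet_Ioi).mpr (Eventually.of_forall fun v hv => by
        have hv' : s < v := hv
        rw [hn]
        have h6 := (h.ptB hv'.le).1
        have h7 : Real.exp (-(x * v / τ)) ≤ Real.exp (-(x * s / τ)) := by
          apply Real.exp_le_exp.mpr
          have : x * s / τ ≤ x * v / τ := by gcongr
          linarith
        calc ‖g v * (Wt τ x v : ℂ)‖ * Real.exp (-(x * v / τ)) ≤
            (A * Real.exp (-(1 / (8 * τ)) * (v - v₀) ^ 2)) * Real.exp (-(x * s / τ)) := by gcongr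
          _ = _ := by ring))
    refine h5.trans ?_
    rw [integral_const_mul]
    refine mul_le_mul_of_nonneg_left ?_ (by positivity)
    rw [← hg2]
    exact setIntegral_le_integral hg1 (Eventually.of_forall fun v => (Real.exp_pos _).le)
  have h3 : A * Real.exp (-(x * s / τ)) * Real.sqrt (Real.pi / (1 / (8 * τ))) ≤
      A * Real.exp (-(x * s / τ)) * (6 * Real.sqrt τ) := by gcongr
  rw [e1]
  refine (norm_add_le _ _).trans ?_
  rw [mul_add]
  refine add_le_add ?_ ?_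
  · refine h1.trans (le_of_eq ?_)
    ring
  · refine (h2.trans h3).trans (le_of_eq ?_)
    ring

end SP

end Pool.Agent.J4H34.HF
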