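import Pool.Agent.J4H34.HF.H3

/-!
Local theory of the heat flow, part 4: the local theorem.
-/

set_option autoImplicit false

open Complex Set MeasureTheory Filter Topology
open scoped ComplexConjugate

namespace Pool.Agent.J4H34.HF

/-- numerical conditions on a large parameter -/
structure Num (C A η κ c₁ ℓ : ℝ) : Prop where
  hC : 0 ≤ C
  hA : 0 ≤ A
  hη : 0 < η
  hη1 : η ≤ 1
  hc : c₁ = Real.exp (-(2 * C ^ 2 + 4 * A ^ 2))
  hκ : 0 < κ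
  hκ1 : κ ≤ η / 6400
  hκ2 : κ ≤ c₁ / 4096
  hℓ : 1 ≤ ℓ
  e1 : C + A * Real.sqrt ℓ ≤ κ * ℓ
  e2 : 6 * Real.exp (-(ℓ / 64)) ≤ c₁ / 2
  e3 : ℓ * Real.exp (-(η / 1024 * ℓ)) ≤ c₁ / 2
  e4 : 2 ≤ η / 1024 * ℓ
  e5 : 8192 < c₁ ^ 2 * ℓ
  e6 : 6 * Real.exp (-(η / 512 * ℓ)) ≤ c₁ / 4

lemma exists_num {C A η : ℝ} (hC : 0 ≤ C) (hA : 0 ≤ A) (hη : 0 < η) (hη1 : η ≤ 1) :
    ∃ κ c₁ ℓ₀ : ℝ, ∀ ℓ, ℓ₀ ≤ ℓ → Num C A η κ c₁ ℓ := by
  set c₁ : ℝ := Real.exp (-(2 * C ^ 2 + 4 * A ^ 2)) with hc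
  have hc0 : 0 < c₁ := Real.exp_pos _
  set κ : ℝ := min (η / 6400) (c₁ / 4096) with hκ
  have hκ0 : 0 < κ := lt_min (by positivity) (by positivity)
  have hexp : ∀ c : ℝ, 0 < c → Tendsto (fun ℓ : ℝ => Real.exp (-(c * ℓ))) atTop (𝓝 0) := fun c hc =>
    Real.tendsto_exp_neg_atTop_nhds_zero.comp (tendsto_id.const_mul_atTop hc)
  have h1 : ∀ᶠ ℓ : ℝ in atTop, C + A * Real.sqrt ℓ ≤ κ * ℓ := by
    filter_upwards [eventually_ge_atTop (2 * C / κ), eventually_ge_atTop ((2 * A / κ) ^ 2),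
      eventually_ge_atTop 0] with ℓ h1 h2 h3
    have h4 : 2 * A / κ ≤ Real.sqrt ℓ := Real.le_sqrt_of_sq_le h2
    rw [div_le_iff₀ hκ0] at h1 h4
    have h5 := Real.mul_self_sqrt h3
    have h6 := Real.sqrt_nonneg ℓ
    nlinarith
  have h2 : ∀ᶠ ℓ : ℝ in atTop, 6 * Real.exp (-(1 / 64 * ℓ)) ≤ c₁ / 2 := by
    have := (hexp (1 / 64) (by norm_num)).const_mul 6
    rw [mul_zero] at this
    exact this.eventually (eventually_le_nhds (by positivity))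
  have h3 : ∀ᶠ ℓ : ℝ in atTop, ℓ * Real.exp (-(η / 1024 * ℓ)) ≤ c₁ / 2 := by
    have h4 := tendsto_rpow_mul_exp_neg_mul_atTop_nhds_zero 1 (η / 1024) (by positivity)
    simp only [Real.rpow_one] at h4
    have h5 := h4.eventually (eventually_le_nhds (show (0 : ℝ) < c₁ / 2 by positivity))
    filter_upwards [h5] with ℓ h6
    rwa [neg_mul] at h6
  have h6 : ∀ᶠ ℓ : ℝ in atTop, 6 * Real.exp (-(η / 512 * ℓ)) ≤ c₁ / 4 := by
    have := (hexp (η / 512) (by positivity)).const_mul 6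
    rw [mul_zero] at this
    exact this.eventually (eventually_le_nhds (by positivity))
  have h7 := (((h1.and h2).and (h3.and h6)).and ((eventually_ge_atTop (1 : ℝ)).and
    ((eventually_ge_atTop (2048 / η)).and (eventually_gt_atTop (8192 / c₁ ^ 2)))))
  obtain ⟨ℓ₀, hℓ₀⟩ := eventually_atTop.mp h7
  refine ⟨κ, c₁, ℓ₀, fun ℓ hℓ => ?_⟩
  obtain ⟨⟨⟨g1, g2⟩, ⟨g3, g6⟩⟩, ⟨g7, g8, g9⟩⟩ := hℓ₀ ℓ hℓ
  refine ⟨hC, hA, hη, hη1, hc, hκ0, min_le_left _ _, min_le_right _ _, g7, g1, ?_, g3, ?_, ?_, g6⟩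
  · have e : 1 / 64 * ℓ = ℓ / 64 := by ring
    rwa [e] at g2
  · rw [div_le_iff₀ hη] at g8
    linarith
  · rw [div_lt_iff₀ (by positivity)] at g9
    linarith

lemma mul_exp_le (y : ℝ) : y ≤ Real.exp y := by linarith [Real.add_one_le_exp y]

lemma sm1 {η κ : ℝ} (hη : 0 < η) (hη1 : η ≤ 1) (hκ : 0 < κ) (hκ1 : κ ≤ η / 6400) :
    1 + η / 2 ≤ (1 + η) * (1 - 2 * κ) := by nlinarith

lemma sm2 {y κ : ℝ} (hy : 0 < y) (hκ : κ ≤ 1 / 6400) : 3 / 4 * y ≤ y * (1 - 2 * κ) := by nlinarith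

lemma sm3 {δ v : ℝ} (hδ0 : 0 < δ) (hδ1 : δ ≤ 1 / 32) (hv : 1 ≤ v) :
    v / 4 ≤ (1 / 2 - δ) * v ∧ (1 / 2 - δ) * v ≤ v / 2 := by
  constructor <;> nlinarith

lemma sm4 {x w v δ η : ℝ} (hv : v = x + w) (hδ : δ = η / 32) (hη : 0 < η) (hη1 : η ≤ 1)
    (hw : 1 + η / 2 ≤ w) (hx : -(η / 64) ≤ x) : w / 2 - (1 / 2 + δ) * v ≤ -(δ / 2 * v) := by
  have hδ0 : 0 < δ := by rw [hδ]; positivity
  have h5 : δ * (1 + η / 2) ≤ δ * w := by gcongr
  have h6 : (1 / 2 + δ / 2) * (-(η / 64)) ≤ (1 / 2 + δ / 2) * x := by gcongr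
  subst hv
  subst hδ
  nlinarith

lemma sm5 {q ℓ y z : ℝ} (hq : ℓ / 4 ≤ q) (hℓ : 0 < ℓ) (hz : 0 ≤ z) (hy : y ≤ -z) :
    q * y ≤ ℓ / 4 * (-z) := by
  have h6 : q * y ≤ q * (-z) := by
    have : 0 ≤ q := by linarith
    gcongr
  nlinarith

lemma sm6 {τ C Q e A y : ℝ} (h2 : y ≤ 2 * C ^ 2 + 2 * (Q * e) ^ 2)
    (h3 : τ * (Q * e) ^ 2 ≤ 2 * A ^ 2) (hτ : 0 < τ) (hτ1 : τ ≤ 1) :
    -(2 * C ^ 2 + 4 * A ^ 2) ≤ -(τ * y) := by
  have h5 : τ * y ≤ τ * (2 * C ^ 2 + 2 * (Q * e) ^ 2) := by gcongr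
  have h4 : τ * C ^ 2 ≤ 1 * C ^ 2 := by gcongr
  linarith

lemma sm7 {v d τ ℓ : ℝ} (hv1 : 1 ≤ v) (hd : v / 2 ≤ d) (hτ : 0 < τ) (hℓ : 0 < ℓ)
    (hv2 : τ * ℓ / 2 ≤ v) : ℓ / 64 * (8 * τ) ≤ d ^ 2 := by
  have h2 : (v / 2) ^ 2 ≤ d ^ 2 := by
    have : 0 ≤ v / 2 := by linarith
    gcongr
  have h3 : v * 1 ≤ v * v := by gcongr
  nlinarith

lemma sm8 {v c τ ℓ : ℝ} (hv1 : 1 ≤ v) (hv2 : τ * ℓ / 2 ≤ v) (hτ : 0 < τ) (hc : 0 < c)
    (e5 : 8192 < c ^ 2 * ℓ) : 64 * Real.sqrt τ < c * v := by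
  have h5 : (64 * Real.sqrt τ) ^ 2 < (c * v) ^ 2 := by
    rw [mul_pow, Real.sq_sqrt hτ.le, mul_pow]
    have h7 : c ^ 2 * (τ * ℓ / 2) ≤ c ^ 2 * v ^ 2 := by
      have : τ * ℓ / 2 ≤ v ^ 2 := by nlinarith
      gcongr
    have h8 : τ * 8192 < τ * (c ^ 2 * ℓ) := by gcongr
    linarith
  exact lt_of_pow_lt_pow_left₀ 2 (by positivity) h5

/-- the outcome of the saddle point analysis at the point `x` -/
lemma est {C A η κ c₁ ℓ : ℝ} (N : Num C A η κ c₁ ℓ) {g p : ℝ → ℂ} {a Q q₀ τ : ℝ}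
    (h : HL g p a C Q q₀) (hτ : 0 < τ) (hτ1 : τ ≤ 1) (hτℓ : 1 + η ≤ τ * ℓ) (ha : a ≤ 1 / 2 + η / 100)
    (hQ : Q ≤ A * Real.sqrt ℓ) (hq : ℓ / 2 - C - Q ≤ q₀) {x : ℝ} (hx : -(η / 64) ≤ x) :
    (∃ v₀ : ℝ, 0 < v₀ ∧ ‖Gf1 g τ x - v₀ * Gf g τ x‖ < v₀ * ‖Gf g τ x‖) ∧
    (η / 64 ≤ x → ‖Gf g τ (-x)‖ < ‖Gf g τ x‖) := by
  obtain ⟨hC, hA, hη, hη1, hc, hκ, hκ1, hκ2, hℓ, e1, e2, e3, e4, e5, e6⟩ := N
  have hc0 : 0 < c₁ := by rw [hc]; exact Real.exp_pos _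
  have hc1 : c₁ ≤ 1 := by
    rw [hc, Real.exp_le_one_iff]
    have : 0 ≤ 2 * C ^ 2 + 4 * A ^ 2 := by positivity
    linarith
  have hQ0 := h.hQ
  have hCQ : C + Q ≤ κ * ℓ := by linarith
  have hκs : κ ≤ 1 / 6400 := by linarith
  have hℓ0 : 0 < ℓ := by linarith
  have hq₀ : ℓ * (1 / 2 - κ) ≤ q₀ := by linarith
  have hκℓ : 0 < κ * ℓ := by positivity
  have h2q : 1 + η / 2 ≤ 2 * τ * q₀ := by
    have h1 : 2 * τ * (ℓ * (1 / 2 - κ)) ≤ 2 * τ * q₀ := by gcongr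
    have h2 : 2 * τ * (ℓ * (1 / 2 - κ)) = τ * ℓ * (1 - 2 * κ) := by ring
    have h3 : (1 + η) * (1 - 2 * κ) ≤ τ * ℓ * (1 - 2 * κ) := by
      have : 0 ≤ 1 - 2 * κ := by linarith
      gcongr
    linarith [sm1 hη hη1 hκ hκ1]
  obtain ⟨v₀, hv₀a, hsad⟩ := h.saddle (x := x) hτ hτ1 (by linarith)
  set q := (p v₀).re with hqdef
  have hqq : q₀ ≤ q := h.re v₀ hv₀a
  set w := v₀ - x with hw
  have hw1 : 1 + η / 2 ≤ w := by
    rw [hsad]
    have : 2 * τ * q₀ ≤ 2 * τ * q := by gcongr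
    linarith
  have hw2 : 3 / 4 * (τ * ℓ) ≤ w := by
    rw [hsad]
    have h1 : 2 * τ * (ℓ * (1 / 2 - κ)) ≤ 2 * τ * q := by
      have := hq₀.trans hqq
      gcongr
    have h2 : 2 * τ * (ℓ * (1 / 2 - κ)) = τ * ℓ * (1 - 2 * κ) := by ring
    have h3 := sm2 (mul_pos hτ hℓ0) hκs
    linarith
  have hv1 : 1 + 31 * η / 64 ≤ v₀ := by linarith
  have hv1' : 1 ≤ v₀ := by linarith
  have hv2 : τ * ℓ / 2 ≤ v₀ := by
    have : 1 ≤ τ * ℓ := by linarith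
    linarith
  set δ : ℝ := η / 32 with hδ
  have hδ0 : 0 < δ := by positivity
  have hδ1 : δ ≤ 1 / 32 := by linarith
  set s : ℝ := (1 / 2 - δ) * v₀ with hs
  have hs1 : v₀ / 4 ≤ s := (sm3 hδ0 hδ1 hv1').1
  have hs2 : s ≤ v₀ / 2 := (sm3 hδ0 hδ1 hv1').2
  have has : a ≤ s := by
    have h1 : (1 / 2 - δ) * (1 + 31 * η / 64) ≤ s := by
      rw [hs]
      have : 0 ≤ 1 / 2 - δ := by linarith
      gcongr
    have h2 : δ * (31 * η / 64) ≤ 1 / 32 * (31 * η / 64) := by gcongr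
    have h3 : (1 / 2 - δ) * (1 + 31 * η / 64) = 1 / 2 + 31 * η / 128 - δ - δ * (31 * η / 64) := by ring
    linarith
  have hs0 : 0 < s := by linarith
  have hs3 : τ * ℓ ≤ 8 * s := by linarith
  set M := Mb C Q s with hM
  have hM0 : 0 ≤ M := h.mb_nonneg has
  have hMe : M = C / s + Q * Real.exp (-(s / 2)) := rfl
  have hes : s / 2 * Real.exp (-(s / 2)) ≤ 1 := by
    rw [Real.exp_neg, ← div_eq_mul_inv, div_le_one (Real.exp_pos _)]
    exact mul_exp_le _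
  have hM1 : τ * M ≤ 16 * κ := by
    have h1 : τ * ℓ * M ≤ 16 * (κ * ℓ) := by
      have h2 : τ * ℓ * M ≤ 8 * s * M := by gcongr
      have h3 : 8 * s * M = 8 * C + 16 * Q * (s / 2 * Real.exp (-(s / 2))) := by
        rw [hMe]
        field_simp
        ring
      have h4 : 16 * Q * (s / 2 * Real.exp (-(s / 2))) ≤ 16 * Q * 1 := by gcongr
      linarith
    have h2 : (τ * M) * ℓ ≤ (16 * κ) * ℓ := by linarith
    exact le_of_mul_le_mul_right h2 hℓ0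
  have hM2 : M * (v₀ - s) ^ 2 ≤ 8 * κ * ℓ * v₀ := by
    have h1 : M * v₀ ≤ 8 * (κ * ℓ) := by
      have h2 : M * v₀ ≤ M * (4 * s) := by
        refine mul_le_mul_of_nonneg_left ?_ hM0
        linarith
      have h3 : M * (4 * s) = 4 * C + 8 * Q * (s / 2 * Real.exp (-(s / 2))) := by
        rw [hMe]
        field_simp
        ring
      have h4 : 8 * Q * (s / 2 * Real.exp (-(s / 2))) ≤ 8 * Q * 1 := by gcongr
      linarith
    have h2 : (v₀ - s) ^ 2 ≤ v₀ ^ 2 := pow_le_pow_left₀ (by linarith) (by linarith) 2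
    calc M * (v₀ - s) ^ 2 ≤ M * v₀ ^ 2 := by gcongr
      _ = M * v₀ * v₀ := by ring
      _ ≤ 8 * (κ * ℓ) * v₀ := by gcongr
      _ = _ := by ring
  have sp : SP g p a C Q q₀ τ x v₀ s := by
    refine ⟨h, hτ, has, by linarith, hsad, ?_⟩
    have : 16 * τ * M = 16 * (τ * M) := by ring
    rw [← hM, this]
    linarith
  have hApos := sp.Apos
  set Az' := Az g τ x v₀ with hAz
  -- the exponential factor
  have hE : Ez p C Q τ x v₀ s ≤ Real.exp (-(δ / 16 * ℓ * v₀)) := by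
    unfold Ez
    apply Real.exp_le_exp.mpr
    rw [← hM, ← hqdef, ← hw]
    have h1 : w ^ 2 / (4 * τ) = q * (w / 2) := by
      rw [hsad]
      field_simp
      ring
    have h2 : w / 2 - (v₀ - s) ≤ -(δ / 2 * v₀) := by
      have h3 : v₀ = x + w := by rw [hw]; ring
      have h4 : v₀ - s = (1 / 2 + δ) * v₀ := by rw [hs]; ring
      rw [h4]
      exact sm4 h3 hδ hη hη1 hw1 hx
    have h3 : q * (w / 2 - (v₀ - s)) ≤ ℓ / 4 * (-(δ / 2 * v₀)) := by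
      have h4 : ℓ / 4 ≤ q := by
        have h6 : ℓ * (1 / 4) ≤ ℓ * (1 / 2 - κ) := by
          have : 1 / 4 ≤ 1 / 2 - κ := by linarith
          gcongr
        linarith
      have h5 : 0 ≤ δ / 2 * v₀ := by positivity
      exact sm5 h4 hℓ0 h5 h2
    have h4 : Q ≤ κ * ℓ * v₀ := by
      have : κ * ℓ * 1 ≤ κ * ℓ * v₀ := by gcongr
      linarith
    have h5 : 9 * κ ≤ δ / 16 := by rw [hδ]; linarith
    have h6 : 9 * κ * (ℓ * v₀) ≤ δ / 16 * (ℓ * v₀) := by gcongr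
    rw [h1]
    have h7 : q * (w / 2) - q * (v₀ - s) = q * (w / 2 - (v₀ - s)) := by ring
    have h8 : ℓ / 4 * (-(δ / 2 * v₀)) = -(2 * (δ / 16 * (ℓ * v₀))) := by ring
    have h9 : δ / 16 * ℓ * v₀ = δ / 16 * (ℓ * v₀) := by ring
    rw [h9]
    linarith
  have hE0 : 0 < Ez p C Q τ x v₀ s := Real.exp_pos _
  have hsE : v₀ * v₀ * Ez p C Q τ x v₀ s ≤ Real.exp (-(η / 1024 * ℓ)) := by
    have h1 : v₀ ≤ Real.exp v₀ := mul_exp_le _
    calc v₀ * v₀ * Ez p C Q τ x v₀ s ≤ Real.exp v₀ * Real.exp v₀ * Real.exp (-(δ / 16 * ℓ * v₀)) := by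
          gcongr
      _ = Real.exp (v₀ + v₀ + -(δ / 16 * ℓ * v₀)) := by rw [Real.exp_add, Real.exp_add]
      _ ≤ Real.exp (-(η / 1024 * ℓ)) := by
          apply Real.exp_le_exp.mpr
          have h2 : 2 * v₀ ≤ η / 1024 * ℓ * v₀ := by gcongr
          have h3 : δ / 16 * ℓ * v₀ = η / 1024 * ℓ * v₀ + η / 1024 * ℓ * v₀ := by rw [hδ]; ring
          have h4 : η / 1024 * ℓ * 1 ≤ η / 1024 * ℓ * v₀ := by gcongr
          linarith
  have hst0 : 0 < Real.sqrt τ := Real.sqrt_pos.mpr hτ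
  have hst1 : 1 ≤ Real.sqrt τ * ℓ := by
    have h1 : 1 ≤ τ * ℓ := by linarith
    have h2 := Real.mul_self_sqrt hτ.le
    have h3 : Real.sqrt τ ≤ 1 := Real.sqrt_le_one.mpr hτ1
    calc (1 : ℝ) ≤ τ * ℓ := h1
      _ = Real.sqrt τ * (Real.sqrt τ * ℓ) := by rw [← mul_assoc, h2]
      _ ≤ 1 * (Real.sqrt τ * ℓ) := by gcongr
      _ = _ := one_mul _
  have hsE2 : Real.exp (-(η / 1024 * ℓ)) ≤ c₁ / 2 * Real.sqrt τ := by
    calc Real.exp (-(η / 1024 * ℓ)) ≤ Real.exp (-(η / 1024 * ℓ)) * (Real.sqrt τ * ℓ) :=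
          le_mul_of_one_le_right (Real.exp_pos _).le hst1
      _ = (ℓ * Real.exp (-(η / 1024 * ℓ))) * Real.sqrt τ := by ring
      _ ≤ c₁ / 2 * Real.sqrt τ := by gcongr
  have hsE3 : s * v₀ * Ez p C Q τ x v₀ s ≤ c₁ / 2 * Real.sqrt τ := by
    refine le_trans ?_ (hsE.trans hsE2)
    have : s ≤ v₀ := by linarith
    gcongr
  have hsE4 : s * Ez p C Q τ x v₀ s ≤ c₁ / 2 * Real.sqrt τ := by
    refine le_trans ?_ hsE3
    have : s * Ez p C Q τ x v₀ s * 1 ≤ s * Ez p C Q τ x v₀ s * v₀ := by gcongr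
    linarith
  -- the Gaussian factor
  have hG : c₁ ≤ Real.exp (-(τ * (p v₀).im ^ 2)) := by
    rw [hc]
    apply Real.exp_le_exp.mpr
    have h1 := h.im v₀ hv₀a
    have h2 : (p v₀).im ^ 2 ≤ 2 * C ^ 2 + 2 * (Q * Real.exp (-(v₀ / 2))) ^ 2 := by
      have h3 : (p v₀).im ^ 2 ≤ (C + Q * Real.exp (-(v₀ / 2))) ^ 2 := by
        rw [← sq_abs (p v₀).im]
        have := abs_nonneg (p v₀).im
        gcongr
      have h4 := add_sq_le (a := C) (b := Q * Real.exp (-(v₀ / 2)))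
      linarith
    have h3 : τ * (Q * Real.exp (-(v₀ / 2))) ^ 2 ≤ 2 * A ^ 2 := by
      have h4 : Q ^ 2 ≤ A ^ 2 * ℓ := by
        have h5 : Q ^ 2 ≤ (A * Real.sqrt ℓ) ^ 2 := by gcongr
        rw [mul_pow, Real.sq_sqrt hℓ0.le] at h5
        exact h5
      have h6 : Real.exp (-(v₀ / 2)) ^ 2 = Real.exp (-v₀) := by
        rw [← Real.exp_nat_mul]
        congr 1
        push_cast
        ring
      have h7 : v₀ * Real.exp (-v₀) ≤ 1 := by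
        rw [Real.exp_neg, ← div_eq_mul_inv, div_le_one (Real.exp_pos _)]
        exact mul_exp_le _
      calc τ * (Q * Real.exp (-(v₀ / 2))) ^ 2 = τ * Q ^ 2 * Real.exp (-v₀) := by
            rw [mul_pow, h6]; ring
        _ ≤ τ * (A ^ 2 * ℓ) * Real.exp (-v₀) := by gcongr
        _ = A ^ 2 * (τ * ℓ) * Real.exp (-v₀) := by ring
        _ ≤ A ^ 2 * (2 * v₀) * Real.exp (-v₀) := by
            have : τ * ℓ ≤ 2 * v₀ := by linarith
            gcongr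
        _ = 2 * A ^ 2 * (v₀ * Real.exp (-v₀)) := by ring
        _ ≤ 2 * A ^ 2 * 1 := by gcongr
        _ = _ := mul_one _
    exact sm6 h2 h3 hτ hτ1
  have hT : 6 * Real.exp (-((v₀ - s) ^ 2 / (8 * τ))) ≤ c₁ / 2 := by
    refine le_trans ?_ e2
    refine mul_le_mul_of_nonneg_left (Real.exp_le_exp.mpr ?_) (by norm_num)
    rw [neg_le_neg_iff, le_div_iff₀ (by positivity)]
    exact sm7 hv1' (by linarith) hτ hℓ0 hv2
  have hlow : Az' * (Real.sqrt τ * (3 / 2 * c₁)) ≤ ‖Gf g τ x‖ := by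
    refine le_trans ?_ sp.main_low
    rw [← hAz, ← hM]
    refine mul_le_mul_of_nonneg_left ?_ hApos.le
    have h1 : 96 * τ * M ≤ c₁ / 2 := by
      have : 96 * τ * M = 96 * (τ * M) := by ring
      rw [this]
      linarith
    have h2 : 2 * c₁ ≤ 3 * Real.exp (-(τ * (p v₀).im ^ 2)) - 96 * τ * M -
        6 * Real.exp (-((v₀ - s) ^ 2 / (8 * τ))) := by linarith
    have h3 : Real.sqrt τ * (2 * c₁) ≤ Real.sqrt τ * (3 * Real.exp (-(τ * (p v₀).im ^ 2)) -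
        96 * τ * M - 6 * Real.exp (-((v₀ - s) ^ 2 / (8 * τ)))) := by gcongr
    linarith
  refine ⟨⟨v₀, by linarith, ?_⟩, fun hx1 => ?_⟩
  · refine lt_of_le_of_lt sp.dev ?_
    rw [← hAz]
    have h1 : v₀ * (Az' * (Real.sqrt τ * (3 / 2 * c₁))) ≤ v₀ * ‖Gf g τ x‖ := by gcongr
    refine lt_of_lt_of_le ?_ h1
    have h2 : v₀ * (Az' * (Real.sqrt τ * (3 / 2 * c₁))) = Az' * (v₀ * Real.sqrt τ * (3 / 2 * c₁)) := by
      ring
    rw [h2]
    refine mul_lt_mul_of_pos_left ?_ hApos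
    have h3 : c₁ / 2 * Real.sqrt τ ≤ c₁ / 2 * (v₀ * Real.sqrt τ) := by
      have : 1 * Real.sqrt τ ≤ v₀ * Real.sqrt τ := by gcongr
      rw [one_mul] at this
      gcongr
    have h4 : 64 * Real.sqrt τ < c₁ * v₀ := sm8 hv1' hv2 hτ hc0 e5
    have h5 : 32 * τ < c₁ / 2 * (v₀ * Real.sqrt τ) := by
      have h6 := Real.mul_self_sqrt hτ.le
      have h7 : Real.sqrt τ * (64 * Real.sqrt τ) < Real.sqrt τ * (c₁ * v₀) := by gcongr
      have h8 : Real.sqrt τ * (64 * Real.sqrt τ) = 64 * τ := by linear_combination 64 * h6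
      have h9 : c₁ / 2 * (v₀ * Real.sqrt τ) = (Real.sqrt τ * (c₁ * v₀)) / 2 := by ring
      rw [h9]
      linarith
    have h6 : 0 < v₀ * Real.sqrt τ * c₁ := by positivity
    linarith
  · have hx0 : 0 ≤ x := by linarith
    refine lt_of_le_of_lt (sp.minus hx0) (lt_of_lt_of_le ?_ hlow)
    rw [← hAz]
    refine mul_lt_mul_of_pos_left ?_ hApos
    have h1 : Real.exp (-(x * s / τ)) ≤ Real.exp (-(η / 512 * ℓ)) := by
      apply Real.exp_le_exp.mpr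
      rw [neg_le_neg_iff, le_div_iff₀ hτ]
      have h2 : η / 64 * (τ * ℓ / 8) ≤ x * s := by
        have : τ * ℓ / 8 ≤ s := by linarith
        gcongr
      linarith
    have h2 : 6 * Real.sqrt τ * Real.exp (-(x * s / τ)) ≤ Real.sqrt τ * (c₁ / 4) := by
      calc 6 * Real.sqrt τ * Real.exp (-(x * s / τ)) ≤
          6 * Real.sqrt τ * Real.exp (-(η / 512 * ℓ)) := by gcongr
        _ = Real.sqrt τ * (6 * Real.exp (-(η / 512 * ℓ))) := by ring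
        _ ≤ Real.sqrt τ * (c₁ / 4) := by gcongr
    have h3 : 0 < Real.sqrt τ * c₁ := by positivity
    linarith

lemma re_pos_of_near {z w : ℂ} {v : ℝ} (h : ‖z - v * w‖ < v * ‖w‖) : 0 < (z * conj w).re := by
  have hw : 0 < ‖w‖ := by
    rcases (norm_nonneg w).eq_or_lt with h0 | h0
    · rw [← h0, mul_zero] at h
      exact absurd h (not_lt.mpr (norm_nonneg _))
    · exact h0
  have h1 : z * conj w = (z - v * w) * conj w + v * (w * conj w) := by ring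
  have h2 : ((z - v * w) * conj w).re ≥ -(‖z - v * w‖ * ‖w‖) := by
    have h3 := (abs_le.mp (Complex.abs_re_le_norm ((z - v * w) * conj w))).1
    rwa [norm_mul, Complex.norm_conj] at h3
  have h3 : ((v : ℂ) * (w * conj w)).re = v * ‖w‖ ^ 2 := by
    rw [Complex.mul_conj, Complex.re_ofReal_mul, ofReal_re, Complex.normSq_eq_norm_sq]
  rw [h1, add_re, h3]
  nlinarith

/-- the local theorem -/
theorem local_main (C A : ℝ) (hC : 0 ≤ C) (hA : 0 ≤ A) {η : ℝ} (hη : 0 < η) (hη1 : η ≤ 1) :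
    ∃ ℓ₀ : ℝ, ∀ (g p : ℝ → ℂ) (a Q q₀ ℓ τ : ℝ) (ε : ℂ), HL g p a C Q q₀ →
    ‖ε‖ = 1 → (∀ v, g (-v) = ε * conj (g v)) → ℓ₀ ≤ ℓ → 0 < τ → τ ≤ 1 → 1 + η ≤ τ * ℓ →
    a ≤ 1 / 2 + η / 100 → Q ≤ A * Real.sqrt ℓ → ℓ / 2 - C - Q ≤ q₀ →
    (∀ x : ℝ, 0 < x → Hf g τ x ≠ 0) ∧ (Hf g τ 0 = 0 → Hf1 g τ 0 ≠ 0) := by
  obtain ⟨κ, c₁, ℓ₀, hnum⟩ := exists_num hC hA hη hη1
  refine ⟨ℓ₀, fun g p a Q q₀ ℓ τ ε h hε hsym hℓ hτ hτ1 hτℓ ha hQ hq => ?_⟩
  have N := hnum ℓ hℓ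
  have hE := fun (x : ℝ) (hx : -(η / 64) ≤ x) => est N h hτ hτ1 hτℓ ha hQ hq hx
  have hpos : ∀ x : ℝ, -(η / 64) ≤ x → 0 < (Gf1 g τ x * conj (Gf g τ x)).re := fun x hx => by
    obtain ⟨⟨v₀, _, h1⟩, _⟩ := hE x hx
    exact re_pos_of_near h1
  have hlt : ∀ x : ℝ, 0 < x → ‖Gf g τ (-x)‖ < ‖Gf g τ x‖ := by
    intro x hx
    rcases le_total (η / 64) x with h1 | h1
    · exact (hE x (by linarith)).2 h1
    · have hd : ∀ y : ℝ, HasDerivAt (fun y => ‖Gf g τ y‖ ^ 2)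
          (2 * inner ℝ (Gf g τ y) (Gf1 g τ y / (2 * τ))) y := fun y =>
        (Gf_der h.cont h.grow hτ y).norm_sq
      have hmono : StrictMonoOn (fun y => ‖Gf g τ y‖ ^ 2) (Icc (-(η / 64)) (η / 64)) := by
        refine strictMonoOn_of_deriv_pos (convex_Icc _ _)
          (fun y _ => (hd y).continuousAt.continuousWithinAt) fun y hy => ?_
        rw [interior_Icc] at hy
        rw [(hd y).deriv]
        have h2 := hpos y hy.1.le
        have h3 : inner ℝ (Gf g τ y) (Gf1 g τ y / (2 * τ)) =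
            (Gf1 g τ y * conj (Gf g τ y)).re / (2 * τ) := by
          rw [Complex.inner]
          have e : Gf1 g τ y / (2 * τ) * conj (Gf g τ y) =
              (Gf1 g τ y * conj (Gf g τ y)) / ((2 * τ : ℝ) : ℂ) := by
            push_cast
            ring
          rw [e, Complex.div_ofReal_re]
        rw [h3]
        positivity
      have h2 := hmono (a := -x) (b := x) ⟨by linarith, by linarith⟩ ⟨by linarith, h1⟩ (by linarith)
      exact lt_of_pow_lt_pow_left₀ 2 (norm_nonneg _) h2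
  have hε0 : ε ≠ 0 := by
    rintro rfl
    simp at hε
  constructor
  · intro x hx h0
    rw [(Hf_split h.cont h.grow hτ hsym x).1] at h0
    have h1 := hlt x hx
    have h2 : Gf g τ x = -(ε * conj (Gf g τ (-x))) := eq_neg_of_add_eq_zero_left h0
    rw [h2, norm_neg, norm_mul, hε, one_mul, Complex.norm_conj] at h1
    exact lt_irrefl _ h1
  · intro h0 h1
    obtain ⟨e0, e1⟩ := Hf_split h.cont h.grow hτ hsym 0
    rw [neg_zero] at e0 e1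
    rw [e0] at h0
    rw [e1] at h1
    have h2 := hpos 0 (by linarith)
    set G := Gf g τ 0
    set G1 := Gf1 g τ 0
    have h3 : G = -(ε * conj G) := eq_neg_of_add_eq_zero_left h0
    have h4 : G1 = ε * conj G1 := sub_eq_zero.mp h1
    have h5 : conj (G1 * conj G) = -(G1 * conj G) := by
      rw [map_mul, Complex.conj_conj]
      calc conj G1 * G = conj G1 * -(ε * conj G) := by rw [← h3]
        _ = -((ε * conj G1) * conj G) := by ring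
        _ = _ := by rw [← h4]
    have h6 := congrArg re h5
    rw [Complex.conj_re, neg_re] at h6
    linarith

end Pool.Agent.J4H34.HF
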