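import Mathlib

/-!
The heat operator `exp(τ D²)` on entire functions of order less than 2 (or order 2 and type 0):
Gaussian average, Taylor expansion in `τ`.
-/

set_option autoImplicit false

open Complex Set MeasureTheory Filter Topology
open scoped ComplexConjugate Nat

namespace Pool.Agent.J4H34.HF

/-- order 2, type 0 -/
def GrC (f : ℂ → ℂ) : Prop :=
  ∀ e : ℝ, 0 < e → ∃ K : ℝ, 0 ≤ K ∧ ∀ s, ‖f s‖ ≤ K * Real.exp (e * ‖s‖ ^ 2)

/-- `exp(τ D²) f` as a Gaussian average -/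
noncomputable def heat (τ : ℝ) (f : ℂ → ℂ) (s : ℂ) : ℂ :=
  ((Real.sqrt (4 * Real.pi * τ))⁻¹ : ℝ) *
    ∫ v : ℝ, f (s + v) * (Real.exp (-(v ^ 2 / (4 * τ))) : ℝ)

lemma exp_half_le (n : ℕ) : Real.exp (n / 2) ≤ 2 ^ n := by
  have h1 : Real.exp (1 / 2) ≤ 2 := by
    have h2 := Real.exp_one_lt_d9
    have h3 : Real.exp (1 / 2) ^ 2 = Real.exp 1 := by
      rw [← Real.exp_nat_mul]
      norm_num
    nlinarith [Real.exp_pos (1 / 2)]
  calc Real.exp (n / 2) = Real.exp (1 / 2) ^ n := by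
        rw [← Real.exp_nat_mul]
        congr 1
        ring
    _ ≤ 2 ^ n := by gcongr

lemma pow_le_exp {τ v : ℝ} (hτ : 0 < τ) (n : ℕ) :
    (|v| / Real.sqrt (64 * τ * (n + 1))) ^ n ≤ (1 / 4) ^ n * Real.exp (v ^ 2 / (8 * τ)) := by
  set r := Real.sqrt (64 * τ * (n + 1)) with hr
  have hn : (0 : ℝ) ≤ n := Nat.cast_nonneg n
  have hr0 : 0 < r := Real.sqrt_pos.mpr (by positivity)
  have hr2 : r ^ 2 = 64 * τ * (n + 1) := Real.sq_sqrt (by positivity)
  set x : ℝ := 4 * |v| / r with hx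
  have h1 : x ≤ Real.exp (x ^ 2 / 2) := by
    have := Real.add_one_le_exp (x ^ 2 / 2)
    nlinarith [sq_nonneg (x - 1)]
  have hx0 : 0 ≤ x := by positivity
  have h2 : x ^ n ≤ Real.exp (v ^ 2 / (8 * τ)) := by
    calc x ^ n ≤ Real.exp (x ^ 2 / 2) ^ n := by gcongr
      _ = Real.exp (n * (x ^ 2 / 2)) := by rw [← Real.exp_nat_mul]
      _ ≤ Real.exp (v ^ 2 / (8 * τ)) := by
        apply Real.exp_le_exp.mpr
        have e : x ^ 2 = 16 * v ^ 2 / (64 * τ * (n + 1)) := by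
          rw [hx, div_pow, mul_pow, sq_abs, hr2]
          norm_num
        rw [e]
        have e2 : (n : ℝ) * (16 * v ^ 2 / (64 * τ * (n + 1)) / 2) = v ^ 2 / (8 * τ) * (n / (n + 1)) := by
          field_simp
          ring
        rw [e2]
        have h3 : (n : ℝ) / (n + 1) ≤ 1 := by
          rw [div_le_one (by positivity)]
          linarith
        have h4 : 0 ≤ v ^ 2 / (8 * τ) := by positivity
        nlinarith
  calc (|v| / r) ^ n = (1 / 4 * x) ^ n := by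
        congr 1
        rw [hx]
        ring
    _ = (1 / 4) ^ n * x ^ n := mul_pow _ _ _
    _ ≤ _ := by gcongr

variable {f : ℂ → ℂ}

/-- the bound for the terms of the Taylor series -/
lemma term_bd (hf : Differentiable ℂ f) (hg : GrC f) {τ : ℝ} (hτ : 0 < τ) (R : ℝ) (hR : 0 ≤ R) :
    ∃ K : ℝ, 0 ≤ K ∧ ∀ (n : ℕ) (s : ℂ) (v : ℝ), ‖s‖ ≤ R →
      ‖iteratedDeriv n f s‖ / n ! * |v| ^ n ≤ K * (1 / 2) ^ n * Real.exp (v ^ 2 / (8 * τ)) := by
  obtain ⟨K, hK0, hK⟩ := hg (1 / (256 * τ)) (by positivity)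
  refine ⟨K * Real.exp (2 * (1 / (256 * τ)) * R ^ 2) * Real.exp (1 / 2), by positivity,
    fun n s v hs => ?_⟩
  set e : ℝ := 1 / (256 * τ) with he
  have he0 : 0 < e := by positivity
  set r := Real.sqrt (64 * τ * (n + 1)) with hr
  have hn : (0 : ℝ) ≤ n := Nat.cast_nonneg n
  have hr0 : 0 < r := Real.sqrt_pos.mpr (by positivity)
  have hr2 : r ^ 2 = 64 * τ * (n + 1) := Real.sq_sqrt (by positivity)
  have h1 := Complex.norm_iteratedDeriv_le_of_forall_mem_sphere_norm_le (c := s) (R := r)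
    (C := K * Real.exp (2 * e * R ^ 2 + 2 * e * r ^ 2)) (f := f) n hr0 hf.diffContOnCl
    (fun z hz => by
      refine (hK z).trans ?_
      refine mul_le_mul_of_nonneg_left (Real.exp_le_exp.mpr ?_) hK0
      have h2 : ‖z‖ ≤ R + r := by
        rw [Metric.mem_sphere, dist_eq_norm] at hz
        have := norm_add_le (z - s) s
        rw [sub_add_cancel] at this
        linarith
      have h3 : ‖z‖ ^ 2 ≤ 2 * R ^ 2 + 2 * r ^ 2 := by
        have h4 : ‖z‖ ^ 2 ≤ (R + r) ^ 2 := by gcongr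
        nlinarith [sq_nonneg (R - r)]
      calc e * ‖z‖ ^ 2 ≤ e * (2 * R ^ 2 + 2 * r ^ 2) := by gcongr
        _ = _ := by ring)
  have hfac : (0 : ℝ) < n ! := by exact_mod_cast Nat.factorial_pos n
  have h2 : ‖iteratedDeriv n f s‖ / n ! * |v| ^ n ≤
      K * Real.exp (2 * e * R ^ 2 + 2 * e * r ^ 2) * (|v| / r) ^ n := by
    rw [div_pow]
    calc ‖iteratedDeriv n f s‖ / n ! * |v| ^ n ≤
        (n ! * (K * Real.exp (2 * e * R ^ 2 + 2 * e * r ^ 2)) / r ^ n) / n ! * |v| ^ n := by gcongr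
      _ = _ := by
        field_simp
  refine h2.trans ?_
  have h3 := pow_le_exp (v := v) hτ n
  rw [← hr] at h3
  have h4 : Real.exp (2 * e * r ^ 2) ≤ Real.exp (1 / 2) * 2 ^ n := by
    have e1 : 2 * e * r ^ 2 = 1 / 2 + n / 2 := by
      rw [he, hr2]
      field_simp
      ring
    rw [e1, Real.exp_add]
    have := exp_half_le n
    gcongr
  calc K * Real.exp (2 * e * R ^ 2 + 2 * e * r ^ 2) * (|v| / r) ^ n
      = K * Real.exp (2 * e * R ^ 2) * Real.exp (2 * e * r ^ 2) * (|v| / r) ^ n := by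
        rw [Real.exp_add]; ring
    _ ≤ K * Real.exp (2 * e * R ^ 2) * (Real.exp (1 / 2) * 2 ^ n) *
        ((1 / 4) ^ n * Real.exp (v ^ 2 / (8 * τ))) := by gcongr
    _ = K * Real.exp (2 * e * R ^ 2) * Real.exp (1 / 2) * (2 * (1 / 4)) ^ n *
        Real.exp (v ^ 2 / (8 * τ)) := by rw [mul_pow]; ring
    _ = _ := by norm_num

lemma gint {τ : ℝ} (hτ : 0 < τ) : Integrable fun v : ℝ => Real.exp (-(v ^ 2 / (8 * τ))) := by
  have := integrable_exp_neg_mul_sq (b := 1 / (8 * τ)) (by positivity)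
  refine this.congr (Eventually.of_forall fun v => ?_)
  simp only
  congr 1
  ring

lemma exp_comb {τ : ℝ} (hτ : 0 < τ) (v : ℝ) : Real.exp (v ^ 2 / (8 * τ)) *
    Real.exp (-(v ^ 2 / (4 * τ))) = Real.exp (-(v ^ 2 / (8 * τ))) := by
  rw [← Real.exp_add]
  congr 1
  field_simp
  ring

/-- moments of the Gaussian -/
noncomputable def mom (τ : ℝ) (n : ℕ) : ℝ := ∫ v : ℝ, v ^ n * Real.exp (-(v ^ 2 / (4 * τ)))

lemma mom_int {τ : ℝ} (hτ : 0 < τ) (n : ℕ) :
    Integrable fun v : ℝ => v ^ n * Real.exp (-(v ^ 2 / (4 * τ))) := by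
  set r := Real.sqrt (64 * τ * (n + 1)) with hr
  have hr0 : 0 < r := Real.sqrt_pos.mpr (by positivity)
  refine ((gint hτ).const_mul (r ^ n * (1 / 4) ^ n)).mono'
    (Continuous.aestronglyMeasurable (by fun_prop)) (Eventually.of_forall fun v => ?_)
  rw [norm_mul, norm_pow, Real.norm_eq_abs, Real.norm_eq_abs, abs_of_pos (Real.exp_pos _)]
  have h3 := pow_le_exp (v := v) hτ n
  rw [← hr, div_pow, div_le_iff₀ (by positivity)] at h3
  calc |v| ^ n * Real.exp (-(v ^ 2 / (4 * τ))) ≤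
      ((1 / 4) ^ n * Real.exp (v ^ 2 / (8 * τ)) * r ^ n) * Real.exp (-(v ^ 2 / (4 * τ))) := by gcongr
    _ = r ^ n * (1 / 4) ^ n * (Real.exp (v ^ 2 / (8 * τ)) * Real.exp (-(v ^ 2 / (4 * τ)))) := by ring
    _ = _ := by rw [exp_comb hτ]

lemma gder {τ : ℝ} (v : ℝ) : HasDerivAt (fun v : ℝ => Real.exp (-(v ^ 2 / (4 * τ))))
    (Real.exp (-(v ^ 2 / (4 * τ))) * (-(v / (2 * τ)))) v := by
  have h1 : HasDerivAt (fun v : ℝ => -(v ^ 2 / (4 * τ))) (-(v / (2 * τ))) v := by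
    have h2 := ((hasDerivAt_pow 2 v).div_const (4 * τ)).fun_neg
    refine h2.congr_deriv ?_
    push_cast
    rw [show (4 : ℝ) * τ = 2 * (2 * τ) by ring, pow_one, mul_div_mul_left _ _ two_ne_zero]
  exact h1.exp

lemma mom_zero {τ : ℝ} (hτ : 0 < τ) : mom τ 0 = Real.sqrt (4 * Real.pi * τ) := by
  unfold mom
  have h := integral_gaussian (1 / (4 * τ))
  have e : (fun v : ℝ => v ^ 0 * Real.exp (-(v ^ 2 / (4 * τ)))) =
      fun v : ℝ => Real.exp (-(1 / (4 * τ)) * v ^ 2) := by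
    funext v
    rw [pow_zero, one_mul]
    congr 1
    ring
  rw [e, h]
  congr 1
  field_simp

lemma mom_one {τ : ℝ} (hτ : 0 < τ) : mom τ 1 = 0 := by
  have h1 := integral_eq_zero_of_hasDerivAt_of_integrable
    (f := fun v : ℝ => Real.exp (-(v ^ 2 / (4 * τ))))
    (f' := fun v : ℝ => Real.exp (-(v ^ 2 / (4 * τ))) * (-(v / (2 * τ)))) (fun v => gder v) ?_ ?_
  · have e : (fun v : ℝ => Real.exp (-(v ^ 2 / (4 * τ))) * (-(v / (2 * τ)))) =
        fun v : ℝ => (-(1 / (2 * τ))) * (v ^ 1 * Real.exp (-(v ^ 2 / (4 * τ)))) := by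
      funext v
      ring
    rw [e, integral_const_mul] at h1
    rcases mul_eq_zero.mp h1 with h | h
    · have : (0:ℝ) < 1 / (2 * τ) := by positivity
      linarith
    · exact h
  · have := (mom_int hτ 1).const_mul (-(1 / (2 * τ)))
    refine this.congr (Eventually.of_forall fun v => ?_)
    simp only
    ring
  · have := mom_int hτ 0
    simpa using this

lemma mom_succ {τ : ℝ} (hτ : 0 < τ) (n : ℕ) : mom τ (n + 2) = 2 * τ * (n + 1) * mom τ n := by
  have hi1 := mom_int hτ n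
  have hi2 := mom_int hτ (n + 2)
  have h1 := integral_eq_zero_of_hasDerivAt_of_integrable
    (f := fun v : ℝ => v ^ (n + 1) * Real.exp (-(v ^ 2 / (4 * τ))))
    (f' := fun v : ℝ => (n + 1) * (v ^ n * Real.exp (-(v ^ 2 / (4 * τ)))) -
      (1 / (2 * τ)) * (v ^ (n + 2) * Real.exp (-(v ^ 2 / (4 * τ))))) (fun v => ?_) ?_ ?_
  · rw [integral_sub (hi1.const_mul _) (hi2.const_mul _), integral_const_mul, integral_const_mul] at h1
    have h2 : mom τ (n + 2) = 2 * τ * (1 / (2 * τ) * mom τ (n + 2)) := by field_simp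
    rw [h2]
    unfold mom at *
    linear_combination (-(2 * τ)) * h1
  · have h2 := (hasDerivAt_pow (n + 1) v).fun_mul (gder (τ := τ) v)
    refine h2.congr_deriv ?_
    push_cast
    ring
  · exact (hi1.const_mul _).sub (hi2.const_mul _)
  · exact mom_int hτ (n + 1)

lemma mom_odd {τ : ℝ} (hτ : 0 < τ) (j : ℕ) : mom τ (2 * j + 1) = 0 := by
  induction j with
  | zero => exact mom_one hτ
  | succ j ih =>
    rw [show 2 * (j + 1) + 1 = (2 * j + 1) + 2 by ring, mom_succ hτ, ih, mul_zero]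

lemma mom_even {τ : ℝ} (hτ : 0 < τ) (j : ℕ) :
    mom τ (2 * j) / (2 * j)! = Real.sqrt (4 * Real.pi * τ) * (τ ^ j / j !) := by
  induction j with
  | zero => simp [mom_zero hτ]
  | succ j ih =>
    have h1 : ((2 * (j + 1))! : ℝ) = (2 * j + 2) * (2 * j + 1) * (2 * j)! := by
      rw [show 2 * (j + 1) = (2 * j + 1) + 1 by ring, Nat.factorial_succ, Nat.factorial_succ]
      push_cast
      ring
    have h2 : (((j + 1)! : ℕ) : ℝ) = (j + 1) * j ! := by
      rw [Nat.factorial_succ]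
      push_cast
      ring
    have hfac : ((2 * j)! : ℝ) ≠ 0 := by exact_mod_cast Nat.factorial_ne_zero _
    have hfac2 : (j ! : ℝ) ≠ 0 := by exact_mod_cast Nat.factorial_ne_zero _
    rw [show 2 * (j + 1) = 2 * j + 2 by ring, mom_succ hτ] at *
    rw [h1, h2]
    have h3 : mom τ (2 * j) = (2 * j)! * (Real.sqrt (4 * Real.pi * τ) * (τ ^ j / j !)) := by
      rw [← ih]
      field_simp
    rw [h3]
    push_cast
    field_simp
    ring

lemma heat_int (hf : Differentiable ℂ f) (hg : GrC f) {τ : ℝ} (hτ : 0 < τ) (s : ℂ) :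
    Integrable fun v : ℝ => f (s + v) * (Real.exp (-(v ^ 2 / (4 * τ))) : ℝ) := by
  obtain ⟨K, hK0, hK⟩ := hg (1 / (16 * τ)) (by positivity)
  refine ((gint hτ).const_mul (K * Real.exp (2 * (1 / (16 * τ)) * ‖s‖ ^ 2))).mono' ?_
    (Eventually.of_forall fun v => ?_)
  · have h1 : Continuous fun v : ℝ => f (s + v) := hf.continuous.comp (by fun_prop)
    exact (h1.mul (Complex.continuous_ofReal.comp (by fun_prop))).aestronglyMeasurable
  · rw [norm_mul, Complex.norm_real, Real.norm_eq_abs, abs_of_pos (Real.exp_pos _)]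
    have h1 : ‖s + v‖ ^ 2 ≤ 2 * ‖s‖ ^ 2 + 2 * v ^ 2 := by
      have h2 : ‖s + v‖ ≤ ‖s‖ + |v| := by
        have := norm_add_le s v
        rwa [Complex.norm_real, Real.norm_eq_abs] at this
      have h3 : ‖s + v‖ ^ 2 ≤ (‖s‖ + |v|) ^ 2 := by gcongr
      rw [← sq_abs v]
      nlinarith [sq_nonneg (‖s‖ - |v|)]
    have h2 : ‖f (s + v)‖ ≤ K * Real.exp (2 * (1 / (16 * τ)) * ‖s‖ ^ 2 + v ^ 2 / (8 * τ)) := by
      refine (hK _).trans (mul_le_mul_of_nonneg_left (Real.exp_le_exp.mpr ?_) hK0)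
      calc 1 / (16 * τ) * ‖s + v‖ ^ 2 ≤ 1 / (16 * τ) * (2 * ‖s‖ ^ 2 + 2 * v ^ 2) := by gcongr
        _ = _ := by
          field_simp
          ring
    calc ‖f (s + v)‖ * Real.exp (-(v ^ 2 / (4 * τ))) ≤
        K * Real.exp (2 * (1 / (16 * τ)) * ‖s‖ ^ 2 + v ^ 2 / (8 * τ)) *
          Real.exp (-(v ^ 2 / (4 * τ))) := by gcongr
      _ = K * Real.exp (2 * (1 / (16 * τ)) * ‖s‖ ^ 2) *
          (Real.exp (v ^ 2 / (8 * τ)) * Real.exp (-(v ^ 2 / (4 * τ)))) := by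
          rw [Real.exp_add]; ring
      _ = _ := by rw [exp_comb hτ]

/-- the expansion in powers of `τ` -/
lemma heat_hasSum (hf : Differentiable ℂ f) (hg : GrC f) {τ : ℝ} (hτ : 0 < τ) (s : ℂ) :
    HasSum (fun j : ℕ => ((τ ^ j / j ! : ℝ) : ℂ) * iteratedDeriv (2 * j) f s) (heat τ f s) := by
  obtain ⟨K, hK0, hK⟩ := term_bd hf hg hτ ‖s‖ (norm_nonneg s)
  set F : ℕ → ℝ → ℂ := fun n v =>
    (iteratedDeriv n f s / n !) * ((v ^ n * Real.exp (-(v ^ 2 / (4 * τ))) : ℝ) : ℂ) with hF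
  have hFi : ∀ n, Integrable (F n) := fun n => ((mom_int hτ n).ofReal).const_mul _
  have hFn : ∀ n v, ‖F n v‖ ≤ K * (1 / 2) ^ n * Real.exp (-(v ^ 2 / (8 * τ))) := fun n v => by
    simp only [hF]
    rw [norm_mul, norm_div, Complex.norm_natCast, Complex.norm_real, Real.norm_eq_abs, abs_mul,
      abs_pow, abs_of_pos (Real.exp_pos _), ← mul_assoc]
    calc ‖iteratedDeriv n f s‖ / n ! * |v| ^ n * Real.exp (-(v ^ 2 / (4 * τ))) ≤
        (K * (1 / 2) ^ n * Real.exp (v ^ 2 / (8 * τ))) * Real.exp (-(v ^ 2 / (4 * τ))) := by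
          have := hK n s v le_rfl
          gcongr
      _ = K * (1 / 2) ^ n * (Real.exp (v ^ 2 / (8 * τ)) * Real.exp (-(v ^ 2 / (4 * τ)))) := by ring
      _ = _ := by rw [exp_comb hτ]
  set S : ℝ := ∫ v : ℝ, Real.exp (-(v ^ 2 / (8 * τ))) with hS
  have hFs : Summable fun n => ∫ v, ‖F n v‖ := by
    refine Summable.of_nonneg_of_le (fun n => integral_nonneg fun v => norm_nonneg _) (fun n => ?_)
      (((summable_geometric_of_lt_one (by norm_num : (0:ℝ) ≤ 1 / 2) (by norm_num)).mul_left K).mul_right S)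
    refine (integral_mono (hFi n).norm ((gint hτ).const_mul (K * (1 / 2) ^ n)) (hFn n)).trans ?_
    rw [integral_const_mul]
  have h1 := hasSum_integral_of_summable_integral_norm hFi hFs
  have h2 : ∀ v : ℝ, ∑' n, F n v = f (s + v) * (Real.exp (-(v ^ 2 / (4 * τ))) : ℝ) := fun v => by
    have h3 := Complex.hasSum_taylorSeries_of_entire hf s (s + v)
    have h4 := h3.mul_right ((Real.exp (-(v ^ 2 / (4 * τ))) : ℝ) : ℂ)
    rw [← h4.tsum_eq]
    refine tsum_congr fun n => ?_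
    simp only [hF, smul_eq_mul]
    push_cast
    rw [add_sub_cancel_left]
    ring
  have h3 : ∀ n, ∫ v, F n v = (iteratedDeriv n f s / n !) * (mom τ n : ℂ) := fun n => by
    simp only [hF]
    rw [integral_const_mul, integral_complex_ofReal]
    rfl
  simp only [h2, h3] at h1
  have h4 : HasSum (fun j : ℕ => (iteratedDeriv (2 * j) f s / ((2 * j)! : ℕ)) * (mom τ (2 * j) : ℂ))
      (∫ v : ℝ, f (s + v) * (Real.exp (-(v ^ 2 / (4 * τ))) : ℝ)) := by
    have hinj : Function.Injective (fun j : ℕ => 2 * j) := fun a b h => by simpa using h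
    refine (hinj.hasSum_iff ?_).mpr h1
    intro n hn
    have hodd : ¬ Even n := fun he => hn (by
      obtain ⟨m, hm⟩ := he
      exact ⟨m, by simp only; omega⟩)
    rw [Nat.not_even_iff_odd] at hodd
    obtain ⟨m, hm⟩ := hodd
    rw [hm, mom_odd hτ]
    simp
  have h5 := h4.mul_left ((((Real.sqrt (4 * Real.pi * τ))⁻¹ : ℝ)) : ℂ)
  unfold heat
  have e : (fun j : ℕ => ((((Real.sqrt (4 * Real.pi * τ))⁻¹ : ℝ)) : ℂ) *
      ((iteratedDeriv (2 * j) f s / ((2 * j)! : ℕ)) * (mom τ (2 * j) : ℂ))) =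
      fun j : ℕ => ((τ ^ j / j ! : ℝ) : ℂ) * iteratedDeriv (2 * j) f s := by
    funext j
    have hfac : ((2 * j)! : ℝ) ≠ 0 := by exact_mod_cast Nat.factorial_ne_zero _
    have hs : Real.sqrt (4 * Real.pi * τ) ≠ 0 := (Real.sqrt_pos.mpr (by positivity)).ne'
    have h6 : mom τ (2 * j) = (2 * j)! * (Real.sqrt (4 * Real.pi * τ) * (τ ^ j / j !)) := by
      rw [← mom_even hτ]
      field_simp
    rw [h6]
    have hfac' : (((2 * j)! : ℕ) : ℂ) ≠ 0 := by exact_mod_cast Nat.factorial_ne_zero _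
    have hs' : ((Real.sqrt (4 * Real.pi * τ) : ℝ) : ℂ) ≠ 0 := by exact_mod_cast hs
    have e1 : (((2 * j)! * (Real.sqrt (4 * Real.pi * τ) * (τ ^ j / j !)) : ℝ) : ℂ) =
        (((2 * j)! : ℕ) : ℂ) * (((Real.sqrt (4 * Real.pi * τ) : ℝ) : ℂ) * ((τ ^ j / j ! : ℝ) : ℂ)) := by
      push_cast
      ring
    rw [e1, Complex.ofReal_inv]
    field_simp
  rw [e] at h5
  exact h5

end Pool.Agent.J4H34.HF
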