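import Pool.Agent.J4H34.HF.H5
import Pool.Agent.J4H34.HF.H2

/-!
The heat operator: regularity, functional equation, semigroup property, relation with the local
integrals.
-/

set_option autoImplicit false

open Complex Set MeasureTheory Filter Topology ProbabilityTheory
open scoped ComplexConjugate Nat NNReal

namespace Pool.Agent.J4H34.HF

variable {f : ℂ → ℂ}

/-- bound for the terms of the expansion in `τ` -/
lemma even_bd (hf : Differentiable ℂ f) (hg : GrC f) {τ : ℝ} (hτ : 0 < τ) (R : ℝ) (hR : 0 ≤ R) :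
    ∃ K : ℝ, 0 ≤ K ∧ ∀ (j : ℕ) (s : ℂ), ‖s‖ ≤ R →
      ‖((τ ^ j / j ! : ℝ) : ℂ) * iteratedDeriv (2 * j) f s‖ ≤ K * (1 / 4) ^ j := by
  obtain ⟨K, hK0, hK⟩ := term_bd hf hg hτ R hR
  set S : ℝ := ∫ v : ℝ, Real.exp (-(v ^ 2 / (8 * τ))) with hS
  have hS0 : 0 ≤ S := integral_nonneg fun v => (Real.exp_pos _).le
  have hq : 0 < Real.sqrt (4 * Real.pi * τ) := Real.sqrt_pos.mpr (by positivity)
  refine ⟨K * S / Real.sqrt (4 * Real.pi * τ), by positivity, fun j s hs => ?_⟩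
  have h1 : ‖iteratedDeriv (2 * j) f s‖ / (2 * j)! * mom τ (2 * j) ≤ K * (1 / 2) ^ (2 * j) * S := by
    unfold mom
    rw [← integral_const_mul, ← integral_const_mul]
    refine integral_mono ((mom_int hτ _).const_mul _) ((gint hτ).const_mul _) fun v => ?_
    have h2 := hK (2 * j) s v hs
    have h3 : |v| ^ (2 * j) = v ^ (2 * j) := by rw [pow_mul, sq_abs, ← pow_mul]
    rw [h3] at h2
    calc ‖iteratedDeriv (2 * j) f s‖ / (2 * j)! * (v ^ (2 * j) * Real.exp (-(v ^ 2 / (4 * τ))))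
        = (‖iteratedDeriv (2 * j) f s‖ / (2 * j)! * v ^ (2 * j)) * Real.exp (-(v ^ 2 / (4 * τ))) := by
          ring
      _ ≤ (K * (1 / 2) ^ (2 * j) * Real.exp (v ^ 2 / (8 * τ))) * Real.exp (-(v ^ 2 / (4 * τ))) := by
          gcongr
      _ = K * (1 / 2) ^ (2 * j) * (Real.exp (v ^ 2 / (8 * τ)) * Real.exp (-(v ^ 2 / (4 * τ)))) := by
          ring
      _ = _ := by rw [exp_comb hτ]
  have h2 : ‖iteratedDeriv (2 * j) f s‖ / (2 * j)! * mom τ (2 * j) =
      ‖iteratedDeriv (2 * j) f s‖ * (Real.sqrt (4 * Real.pi * τ) * (τ ^ j / j !)) := by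
    rw [← mom_even hτ]
    ring
  rw [h2] at h1
  have h3 : (1 / 2 : ℝ) ^ (2 * j) = (1 / 4) ^ j := by rw [pow_mul]; norm_num
  rw [h3] at h1
  rw [norm_mul, Complex.norm_real, Real.norm_eq_abs, abs_of_nonneg (by positivity)]
  have h4 : K * S / Real.sqrt (4 * Real.pi * τ) * (1 / 4) ^ j =
      (K * S * (1 / 4) ^ j) / Real.sqrt (4 * Real.pi * τ) := by ring
  rw [h4, le_div_iff₀ hq]
  linarith

lemma ider_diff (hf : Differentiable ℂ f) (n : ℕ) : Differentiable ℂ (iteratedDeriv n f) :=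
  (hf.contDiff (n := ⊤)).differentiable_iteratedDeriv n (by exact_mod_cast WithTop.coe_lt_top _)

lemma heat_diff (hf : Differentiable ℂ f) (hg : GrC f) {τ : ℝ} (hτ : 0 < τ) :
    Differentiable ℂ (heat τ f) := by
  intro s
  obtain ⟨K, hK0, hK⟩ := even_bd hf hg hτ (‖s‖ + 1) (by positivity)
  have h1 : DifferentiableOn ℂ
      (fun z => ∑' j : ℕ, ((τ ^ j / j ! : ℝ) : ℂ) * iteratedDeriv (2 * j) f z)
      (Metric.ball 0 (‖s‖ + 1)) := by
    refine differentiableOn_tsum_of_summable_norm (u := fun j => K * (1 / 4) ^ j)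
      ((summable_geometric_of_lt_one (by norm_num) (by norm_num)).mul_left K) (fun j => ?_)
      Metric.isOpen_ball (fun j z hz => hK j z ?_)
    · exact ((ider_diff hf _).const_mul _).differentiableOn
    · rw [Metric.mem_ball, dist_zero_right] at hz
      exact hz.le
  have h2 : (fun z => ∑' j : ℕ, ((τ ^ j / j ! : ℝ) : ℂ) * iteratedDeriv (2 * j) f z) = heat τ f :=
    funext fun z => (heat_hasSum hf hg hτ z).tsum_eq
  rw [h2] at h1
  refine h1.differentiableAt (Metric.isOpen_ball.mem_nhds ?_)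
  rw [Metric.mem_ball, dist_zero_right]
  linarith

lemma heat_gr (hf : Differentiable ℂ f) (hg : GrC f) {τ : ℝ} (hτ : 0 < τ) : GrC (heat τ f) := by
  intro e he
  set e' : ℝ := min (e / 2) (1 / (16 * τ)) with he'
  have he'0 : 0 < e' := lt_min (by positivity) (by positivity)
  obtain ⟨K, hK0, hK⟩ := hg e' he'0
  set S : ℝ := ∫ v : ℝ, Real.exp (-(v ^ 2 / (8 * τ))) with hS
  have hS0 : 0 ≤ S := integral_nonneg fun v => (Real.exp_pos _).le
  have hq : 0 < Real.sqrt (4 * Real.pi * τ) := Real.sqrt_pos.mpr (by positivity)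
  refine ⟨(Real.sqrt (4 * Real.pi * τ))⁻¹ * (K * S), by positivity, fun s => ?_⟩
  have h1 : ∀ v : ℝ, ‖f (s + v) * (Real.exp (-(v ^ 2 / (4 * τ))) : ℝ)‖ ≤
      K * Real.exp (e * ‖s‖ ^ 2) * Real.exp (-(v ^ 2 / (8 * τ))) := fun v => by
    rw [norm_mul, Complex.norm_real, Real.norm_eq_abs, abs_of_pos (Real.exp_pos _)]
    have h1 : ‖s + v‖ ^ 2 ≤ 2 * ‖s‖ ^ 2 + 2 * v ^ 2 := by
      have h2 : ‖s + v‖ ≤ ‖s‖ + |v| := by
        have := norm_add_le s v
        rwa [Complex.norm_real, Real.norm_eq_abs] at this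
      have h3 : ‖s + v‖ ^ 2 ≤ (‖s‖ + |v|) ^ 2 := by gcongr
      rw [← sq_abs v]
      nlinarith [sq_nonneg (‖s‖ - |v|)]
    have h2 : ‖f (s + v)‖ ≤ K * Real.exp (e * ‖s‖ ^ 2 + v ^ 2 / (8 * τ)) := by
      refine (hK _).trans (mul_le_mul_of_nonneg_left (Real.exp_le_exp.mpr ?_) hK0)
      have h3 : e' ≤ e / 2 := min_le_left _ _
      have h4 : e' ≤ 1 / (16 * τ) := min_le_right _ _
      calc e' * ‖s + v‖ ^ 2 ≤ e' * (2 * ‖s‖ ^ 2 + 2 * v ^ 2) := by gcongr
        _ = e' * (2 * ‖s‖ ^ 2) + e' * (2 * v ^ 2) := by ring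
        _ ≤ e / 2 * (2 * ‖s‖ ^ 2) + 1 / (16 * τ) * (2 * v ^ 2) := by gcongr
        _ = _ := by
          field_simp
          ring
    calc ‖f (s + v)‖ * Real.exp (-(v ^ 2 / (4 * τ))) ≤
        K * Real.exp (e * ‖s‖ ^ 2 + v ^ 2 / (8 * τ)) * Real.exp (-(v ^ 2 / (4 * τ))) := by gcongr
      _ = K * Real.exp (e * ‖s‖ ^ 2) *
          (Real.exp (v ^ 2 / (8 * τ)) * Real.exp (-(v ^ 2 / (4 * τ)))) := by
          rw [Real.exp_add]; ring
      _ = _ := by rw [exp_comb hτ]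
  have h2 := norm_integral_le_of_norm_le ((gint hτ).const_mul (K * Real.exp (e * ‖s‖ ^ 2)))
    (Eventually.of_forall h1)
  rw [integral_const_mul] at h2
  unfold heat
  rw [norm_mul, Complex.norm_real, Real.norm_eq_abs, abs_of_pos (by positivity)]
  calc (Real.sqrt (4 * Real.pi * τ))⁻¹ * ‖∫ v : ℝ, f (s + v) * (Real.exp (-(v ^ 2 / (4 * τ))) : ℝ)‖
      ≤ (Real.sqrt (4 * Real.pi * τ))⁻¹ * (K * Real.exp (e * ‖s‖ ^ 2) * S) := by gcongr
    _ = _ := by ring

lemma heat_fe {ε : ℂ} (hfe : ∀ s, f s = ε * conj (f (1 - conj s))) {τ : ℝ} (s : ℂ) :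
    heat τ f s = ε * conj (heat τ f (1 - conj s)) := by
  unfold heat
  rw [map_mul, Complex.conj_ofReal, ← integral_conj]
  have h1 : ∫ v : ℝ, f (s + v) * (Real.exp (-(v ^ 2 / (4 * τ))) : ℝ) =
      ε * ∫ v : ℝ, conj (f (1 - conj s + v) * (Real.exp (-(v ^ 2 / (4 * τ))) : ℝ)) := by
    rw [← integral_const_mul, ← integral_neg_eq_self]
    refine integral_congr_ae (Eventually.of_forall fun v => ?_)
    simp only
    rw [hfe (s + ((-v : ℝ) : ℂ)), map_mul, Complex.conj_ofReal, map_add, Complex.conj_ofReal, neg_sq]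
    have e : (1 : ℂ) - (conj s + ((-v : ℝ) : ℂ)) = 1 - conj s + v := by
      push_cast
      ring
    rw [e]
    ring
  rw [h1]
  ring

/-- the variance -/
noncomputable def vr (τ : ℝ) : ℝ≥0 := Real.toNNReal (2 * τ)

lemma coe_vr {τ : ℝ} (hτ : 0 < τ) : (vr τ : ℝ) = 2 * τ := Real.coe_toNNReal _ (by positivity)

lemma vr_ne {τ : ℝ} (hτ : 0 < τ) : vr τ ≠ 0 := by
  intro h
  have := coe_vr hτ
  rw [h] at this
  simp at this
  linarith

lemma pdf_eq {τ : ℝ} (hτ : 0 < τ) (v : ℝ) : gaussianPDFReal 0 (vr τ) v =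
    (Real.sqrt (4 * Real.pi * τ))⁻¹ * Real.exp (-(v ^ 2 / (4 * τ))) := by
  unfold gaussianPDFReal
  rw [coe_vr hτ, sub_zero]
  have e1 : 2 * Real.pi * (2 * τ) = 4 * Real.pi * τ := by ring
  have e2 : -v ^ 2 / (2 * (2 * τ)) = -(v ^ 2 / (4 * τ)) := by ring
  rw [e1, e2]

lemma heat_gauss {τ : ℝ} (hτ : 0 < τ) (f : ℂ → ℂ) (s : ℂ) :
    heat τ f s = ∫ v : ℝ, f (s + v) ∂(gaussianReal 0 (vr τ)) := by
  rw [integral_gaussianReal_eq_integral_smul (vr_ne hτ)]
  unfold heat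
  rw [← integral_const_mul]
  refine integral_congr_ae (Eventually.of_forall fun v => ?_)
  simp only
  rw [pdf_eq hτ, Complex.real_smul]
  push_cast
  ring

/-- the semigroup property -/
lemma heat_heat (hf : Differentiable ℂ f) (hg : GrC f) {τ₁ τ₂ : ℝ} (h1 : 0 < τ₁) (h2 : 0 < τ₂)
    (s : ℂ) : heat τ₂ (heat τ₁ f) s = heat (τ₁ + τ₂) f s := by
  have h12 : 0 < τ₁ + τ₂ := by positivity
  have hsum : gaussianReal 0 (vr (τ₁ + τ₂)) =
      (gaussianReal 0 (vr τ₂)).conv (gaussianReal 0 (vr τ₁)) := by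
    rw [gaussianReal_conv_gaussianReal]
    congr 1
    · simp
    · apply NNReal.eq
      rw [NNReal.coe_add, coe_vr h1, coe_vr h2, coe_vr h12]
      ring
  rw [heat_gauss h12, hsum]
  have hint : Integrable (fun v : ℝ => f (s + v))
      ((gaussianReal 0 (vr τ₂)).conv (gaussianReal 0 (vr τ₁))) := by
    rw [← hsum, gaussianReal_of_var_ne_zero _ (vr_ne h12)]
    rw [integrable_withDensity_iff_integrable_smul' (measurable_gaussianPDF _ _)
      (ae_of_all _ fun _ => gaussianPDF_lt_top)]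
    have h3 := (heat_int hf hg h12 s).const_mul (((Real.sqrt (4 * Real.pi * (τ₁ + τ₂)))⁻¹ : ℝ) : ℂ)
    refine h3.congr (Eventually.of_forall fun v => ?_)
    simp only
    rw [toReal_gaussianPDF, pdf_eq h12, Complex.real_smul]
    push_cast
    ring
  rw [integral_conv hint, heat_gauss h2]
  refine integral_congr_ae (Eventually.of_forall fun v => ?_)
  simp only
  rw [heat_gauss h1]
  refine integral_congr_ae (Eventually.of_forall fun w => ?_)
  simp only
  congr 1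
  push_cast
  ring

/-- relation with the local integrals -/
lemma heat_local {τ : ℝ} (hτ : 0 < τ) (c : ℂ) (x : ℝ) :
    heat τ f (c + x) = (((Real.sqrt (4 * Real.pi * τ))⁻¹ * Real.exp (-(x ^ 2 / (4 * τ))) : ℝ) : ℂ) *
      Hf (fun v => f (c + v)) τ x := by
  have key : ∫ v : ℝ, f (c + x + v) * (Real.exp (-(v ^ 2 / (4 * τ))) : ℝ) =
      ((Real.exp (-(x ^ 2 / (4 * τ))) : ℝ) : ℂ) * ∫ v : ℝ, f (c + v) * (Wt τ x v : ℂ) := by
    have h1 := integral_add_right_eq_self (μ := volume) (fun v : ℝ => f (c + v) * (Wt τ x v : ℂ)) x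
    rw [← h1, ← integral_const_mul]
    refine integral_congr_ae (Eventually.of_forall fun v => ?_)
    simp only
    have e1 : c + (x : ℂ) + v = c + ((v + x : ℝ) : ℂ) := by push_cast; ring
    have e2 : Real.exp (-(v ^ 2 / (4 * τ))) = Real.exp (-(x ^ 2 / (4 * τ))) * Wt τ x (v + x) := by
      unfold Wt
      rw [← Real.exp_add]
      congr 1
      field_simp
      ring
    rw [e1, e2]
    push_cast
    ring
  unfold heat Hf
  rw [key, Complex.ofReal_mul]
  ring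

end Pool.Agent.J4H34.HF
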